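import Pool.Agent.P.MP_8b3519_lc.Force

/-!
Locally generic values of a Baire measurable cocycle into the permutations of `ℕ`.
-/

namespace Pool.Agent.P.MP_8b3519_lc

open Filter Topology Set

section General

variable {G X : Type*} [Group G] [TopologicalSpace G] [IsTopologicalGroup G] [TopologicalSpace X]
  [MulAction G X] [ContinuousSMul G X]

/-- Inversion of arrows. -/
def invH : G × X ≃ₜ G × X where
  toFun a := (a.1⁻¹, a.1 • a.2)
  invFun a := (a.1⁻¹, a.1 • a.2)
  left_inv a := by simp
  right_inv a := by simp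
  continuous_toFun := by fun_prop
  continuous_invFun := by fun_prop

def shear1 : G × G × X ≃ₜ G × G × X where
  toFun a := (a.2.1, a.1, a.2.1 • a.2.2)
  invFun a := (a.2.1, a.1, a.1⁻¹ • a.2.2)
  left_inv a := by simp
  right_inv a := by simp
  continuous_toFun := by fun_prop
  continuous_invFun := by fun_prop

def shear2 : G × G × X ≃ₜ G × G × X where
  toFun a := (a.2.1, a.1 * a.2.1, a.2.2)
  invFun a := (a.2.1 * a.1⁻¹, a.1, a.2.2)
  left_inv a := by simp
  right_inv a := by simp
  continuous_toFun := by fun_prop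
  continuous_invFun := by fun_prop

/-- A Baire measurable cocycle. -/
structure IsCoc (c : G × X → Equiv.Perm ℕ) : Prop where
  bm : ∀ j k, BaireMeasurableSet {a | c a j = k}
  mul : ∀ h g x, c (h * g, x) = c (h, g • x) * c (g, x)

/-- Near the arrow `a` the cocycle generically sends `j` to `k`. -/
def Ar (c : G × X → Equiv.Perm ℕ) (j k : ℕ) (a : G × X) : Prop := Forces a (fun b => c b j = k)

variable {c : G × X → Equiv.Perm ℕ}

omit [Group G] [IsTopologicalGroup G] [MulAction G X] [ContinuousSMul G X] in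
theorem isOpen_Ar (c : G × X → Equiv.Perm ℕ) (j k : ℕ) : IsOpen {a | Ar c j k a} :=
  isOpen_forces _

omit [Group G] [IsTopologicalGroup G] [MulAction G X] [ContinuousSMul G X] in
theorem Ar.unique [BaireSpace (G × X)] {j k k' : ℕ} {a : G × X} (h : Ar c j k a)
    (h' : Ar c j k' a) : k = k' := by
  obtain ⟨w, h1, h2⟩ := (Forces.and h h').exists
  exact h1.symm.trans h2

omit [Group G] [IsTopologicalGroup G] [MulAction G X] [ContinuousSMul G X] in
theorem Ar.unique' [BaireSpace (G × X)] {j j' k : ℕ} {a : G × X} (h : Ar c j k a)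
    (h' : Ar c j' k a) : j = j' := by
  obtain ⟨w, h1, h2⟩ := (Forces.and h h').exists
  exact (c w).injective (h1.trans h2.symm)

omit [IsTopologicalGroup G] [ContinuousSMul G X] in
theorem IsCoc.dense [BaireSpace (G × X)] (hc : IsCoc c) {U : Set (G × X)} (hU : IsOpen U)
    (hne : U.Nonempty) (j : ℕ) : ∃ a ∈ U, ∃ k, Ar c j k a :=
  exists_forces (P := fun k b => c b j = k) (fun k => hc.bm j k) hU hne fun z _ => ⟨_, rfl⟩

omit [IsTopologicalGroup G] [ContinuousSMul G X] in
theorem IsCoc.dense' [BaireSpace (G × X)] (hc : IsCoc c) {U : Set (G × X)} (hU : IsOpen U)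
    (hne : U.Nonempty) (k : ℕ) : ∃ a ∈ U, ∃ j, Ar c j k a :=
  exists_forces (P := fun j b => c b j = k) (fun j => hc.bm j k) hU hne
    fun z _ => (c z).surjective k

omit [IsTopologicalGroup G] [ContinuousSMul G X] in
theorem IsCoc.one (hc : IsCoc c) (x : X) : c (1, x) = 1 := by
  have := hc.mul 1 1 x
  simpa using this

theorem IsCoc.comp [BaireSpace (G × G × X)] (hc : IsCoc c) {j k l : ℕ} {g h : G} {x : X}
    (h1 : Ar c j k (g, x)) (h2 : Ar c k l (h, g • x)) : Ar c j l (h * g, x) := by
  have p1 : Forces ((h, g, x) : G × G × X) (fun w => c w.2 j = k) :=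
    Forces.pullback (f := Prod.snd) (z := ((h, g, x) : G × G × X)) (P := fun b => c b j = k)
      continuous_snd isOpenMap_snd h1
  have p2 : Forces ((h, g, x) : G × G × X) (fun w => c (shear1 w).2 k = l) :=
    Forces.pullback (f := fun w : G × G × X => (shear1 w).2) (z := ((h, g, x) : G × G × X))
      (P := fun b => c b k = l)
      (continuous_snd.comp shear1.continuous) (isOpenMap_snd.comp shear1.isOpenMap) h2
  refine Forces.pushforward (f := fun w : G × G × X => (shear2 w).2)
    (continuous_snd.comp shear2.continuous) (isOpenMap_snd.comp shear2.isOpenMap) (hc.bm j l)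
    (z := (h, g, x)) ((p1.and p2).mono ?_)
  rintro ⟨h', g', x'⟩ ⟨a, b⟩
  change c (h' * g', x') j = l
  change c (h', g' • x') k = l at b
  change c (g', x') j = k at a
  rw [hc.mul, Equiv.Perm.mul_apply, a, b]

theorem IsCoc.inv (hc : IsCoc c) {j k : ℕ} {g : G} {x : X}
    (h1 : Ar c j k (g, x)) : Ar c k j (g⁻¹, g • x) := by
  have e : invH ((g⁻¹, g • x) : G × X) = (g, x) := by simp [invH]
  have p1 : Forces ((g⁻¹, g • x) : G × X) (fun w => c (invH w) j = k) :=
    Forces.pullback (f := invH) invH.continuous invH.isOpenMap (by rw [e]; exact h1)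
  refine p1.mono ?_
  rintro ⟨g', x'⟩ a
  change c (g'⁻¹, g' • x') j = k at a
  have := hc.mul g' g'⁻¹ (g' • x')
  rw [mul_inv_cancel, hc.one, inv_smul_smul] at this
  have h2 := congrArg (fun s : Equiv.Perm ℕ => s j) this
  simp only [Equiv.Perm.one_apply, Equiv.Perm.mul_apply, a] at h2
  exact h2.symm

theorem IsCoc.conj [BaireSpace (G × G × X)] (hc : IsCoc c) {a b k l : ℕ} {d g : G} {z : X}
    (h1 : Ar c a k (d, z)) (h2 : Ar c b l (d, g • z)) :
    Ar c k l (d * g * d⁻¹, d • z) ↔ Ar c a b (g, z) := by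
  constructor
  · intro h
    have e1 := hc.comp h1 h
    have e2 := hc.inv h2
    have e3 : d • g • z = (d * g * d⁻¹ * d) • z := by simp [mul_smul]
    rw [e3] at e2
    have e4 := hc.comp e1 e2
    have e5 : d⁻¹ * (d * g * d⁻¹ * d) = g := by group
    rwa [e5] at e4
  · intro h
    have e1 := hc.inv h1
    have e2 : z = d⁻¹ • d • z := by simp
    have e3 : Ar c a b (g, d⁻¹ • d • z) := by rwa [← e2]
    have e4 := hc.comp e1 e3
    have e5 : Ar c b l (d, (g * d⁻¹) • d • z) := by
      have : (g * d⁻¹) • d • z = g • z := by simp [mul_smul]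
      rwa [this]
    have e6 := hc.comp e4 e5
    rwa [← mul_assoc] at e6

/-- A family of facts about tuples, compatible with the cocycle. -/
structure IsFact (c : G × X → Equiv.Perm ℕ) {n : ℕ} (R : (Fin n → ℕ) → X → Prop) : Prop where
  bm : ∀ v, BaireMeasurableSet {x | R v x}
  inv : ∀ v g x, R (c (g, x) ∘ v) (g • x) ↔ R v x

omit [TopologicalSpace G] [IsTopologicalGroup G] [ContinuousSMul G X] in
theorem IsFact.not {n : ℕ} {R : (Fin n → ℕ) → X → Prop} (h : IsFact c R) :
    IsFact c (fun v x => ¬ R v x) :=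
  ⟨fun v => (h.bm v).compl, fun v g x => not_congr (h.inv v g x)⟩

theorem IsFact.transfer [BaireSpace (G × X)] {n : ℕ} {R : (Fin n → ℕ) → X → Prop}
    (h : IsFact c R) {v w : Fin n → ℕ} {g : G} {x : X} (ha : ∀ i, Ar c (v i) (w i) (g, x))
    (hx : Forces x (R v)) : Forces (g • x) (R w) := by
  have p1 : Forces ((g, x) : G × X) (fun a => R v a.2) :=
    Forces.pullback (f := Prod.snd) continuous_snd isOpenMap_snd hx
  have p2 := forces_all ha
  refine Forces.pushforward (f := fun a : G × X => (invH a).2)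
    (continuous_snd.comp invH.continuous) (isOpenMap_snd.comp invH.isOpenMap) (h.bm w)
    (z := (g, x)) ((p1.and p2).mono ?_)
  rintro ⟨g', x'⟩ ⟨a, b⟩
  have e : w = c (g', x') ∘ v := funext fun i => (b i).symm
  change R w (g' • x')
  rw [e]
  exact (h.inv v g' x').2 a

end General

end Pool.Agent.P.MP_8b3519_lc
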