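import Mathlib

/-!
A countable structure in which, among any three elements, one lies in a finite list attached to
the other two, with a colouring all of whose permutations of colours lift to automorphisms.
-/

namespace Pool.Agent.P.MP_8b3519_lc

open Function

/-- Finite approximations. -/
structure St where
  n : ℕ
  t : ℕ → ℕ → List ℕ
  π : ℕ → ℕ
  closed : ∀ a < n, ∀ b < n, ∀ c ∈ t a b, c < n
  triple : ∀ a < n, ∀ b < n, ∀ c < n, c ∈ t a b ∨ a ∈ t b c ∨ b ∈ t c a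

instance : Preorder St where
  le s s' := s.n ≤ s'.n ∧ (∀ a < s.n, ∀ b < s.n, s'.t a b = s.t a b) ∧ ∀ a < s.n, s'.π a = s.π a
  le_refl s := ⟨le_rfl, fun _ _ _ _ => rfl, fun _ _ => rfl⟩
  le_trans s s' s'' h h' := ⟨h.1.trans h'.1,
    fun a ha b hb => (h'.2.1 a (ha.trans_le h.1) b (hb.trans_le h.1)).trans (h.2.1 a ha b hb),
    fun a ha => (h'.2.2 a (ha.trans_le h.1)).trans (h.2.2 a ha)⟩

theorem St.le_def {s s' : St} : s ≤ s' ↔
    s.n ≤ s'.n ∧ (∀ a < s.n, ∀ b < s.n, s'.t a b = s.t a b) ∧ ∀ a < s.n, s'.π a = s.π a := Iff.rfl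

/-- Extension problems. -/
abbrev Task : Type :=
  Σ m : ℕ, Set (Fin m) × (Fin m → Fin m → List (Fin m)) × (Fin m → ℕ) × (Fin m → ℕ)

def App {m : ℕ} (A : Set (Fin m)) (tB : Fin m → Fin m → List (Fin m)) (πB p : Fin m → ℕ)
    (t : ℕ → ℕ → List ℕ) (π : ℕ → ℕ) : Prop :=
  (∀ a b c, c ∈ tB a b ∨ a ∈ tB b c ∨ b ∈ tB c a) ∧ (∀ a ∈ A, ∀ b ∈ A, ∀ c ∈ tB a b, c ∈ A) ∧
    Set.InjOn p A ∧ (∀ a ∈ A, ∀ b ∈ A, t (p a) (p b) = (tB a b).map p) ∧ ∀ a ∈ A, π (p a) = πB a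

def Sol {m : ℕ} (A : Set (Fin m)) (tB : Fin m → Fin m → List (Fin m)) (πB p q : Fin m → ℕ)
    (t : ℕ → ℕ → List ℕ) (π : ℕ → ℕ) : Prop :=
  Injective q ∧ (∀ a ∈ A, q a = p a) ∧ (∀ a b, t (q a) (q b) = (tB a b).map q) ∧
    ∀ a, π (q a) = πB a

theorem amalg (s : St) {m : ℕ} (A : Set (Fin m)) (tB : Fin m → Fin m → List (Fin m))
    (πB p : Fin m → ℕ) (hp : ∀ a ∈ A, p a < s.n) (h : App A tB πB p s.t s.π) :
    ∃ s' : St, s ≤ s' ∧ s'.n = s.n + m ∧ ∃ q, (∀ a, q a < s'.n) ∧ Sol A tB πB p q s'.t s'.π := by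
  classical
  obtain ⟨htr, hcl, hinj, ht, hπ⟩ := h
  let q : Fin m → ℕ := fun a => if a ∈ A then p a else s.n + a
  have hqA : ∀ a ∈ A, q a = p a := fun a ha => by simp [q, ha]
  have hqlt : ∀ a, q a < s.n ↔ a ∈ A := fun a => by
    by_cases ha : a ∈ A
    · simp [q, ha, hp a ha]
    · simp [q, ha]
  have hqlt' : ∀ a, q a < s.n + m := fun a => by
    by_cases ha : a ∈ A
    · have := hp a ha
      simp only [q, ha, if_true]; omega
    · have := a.2
      simp only [q, ha, if_false]; omega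
  have hqi : Injective q := by
    intro a b hab
    by_cases ha : a ∈ A
    · have hb : b ∈ A := (hqlt b).1 (hab ▸ (hqlt a).2 ha)
      exact hinj ha hb (by rw [← hqA a ha, ← hqA b hb, hab])
    · have hb : b ∉ A := fun hb => ha ((hqlt a).1 (hab ▸ (hqlt b).2 hb))
      simp only [q, ha, hb, if_false] at hab
      exact Fin.ext (by omega)
  let t' : ℕ → ℕ → List ℕ := fun x y =>
    if x < s.n ∧ y < s.n then s.t x y
    else if h : ∃ ij : Fin m × Fin m, q ij.1 = x ∧ q ij.2 = y then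
      (tB h.choose.1 h.choose.2).map q
    else List.range (s.n + m)
  let π' : ℕ → ℕ := fun x =>
    if x < s.n then s.π x else if h : ∃ i : Fin m, q i = x then πB h.choose else 0
  have t'q : ∀ a b, t' (q a) (q b) = (tB a b).map q := by
    intro a b
    by_cases hab : q a < s.n ∧ q b < s.n
    · have ha := (hqlt a).1 hab.1
      have hb := (hqlt b).1 hab.2
      simp only [t', hab, and_self, if_true]
      rw [hqA a ha, hqA b hb, ht a ha b hb]
      exact List.map_congr_left fun c hc => (hqA c (hcl a ha b hb c hc)).symm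
    · have hex : ∃ ij : Fin m × Fin m, q ij.1 = q a ∧ q ij.2 = q b := ⟨(a, b), rfl, rfl⟩
      simp only [t', hab, if_false, hex, dif_pos]
      rw [hqi hex.choose_spec.1, hqi hex.choose_spec.2]
  have t'old : ∀ x < s.n, ∀ y < s.n, t' x y = s.t x y := fun x hx y hy => by
    simp only [t', hx, hy, and_self, if_true]
  have t'new : ∀ x y, ¬ (x < s.n ∧ y < s.n) → ¬ (x ∈ Set.range q ∧ y ∈ Set.range q) →
      t' x y = List.range (s.n + m) := by
    intro x y h1 h2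
    have h3 : ¬ ∃ ij : Fin m × Fin m, q ij.1 = x ∧ q ij.2 = y := by
      rintro ⟨ij, hi, hj⟩
      exact h2 ⟨⟨_, hi⟩, ⟨_, hj⟩⟩
    simp only [t', h1, if_false, h3, dif_neg, not_false_eq_true]
  refine ⟨⟨s.n + m, t', π', ?_, ?_⟩, ⟨Nat.le_add_right _ _, t'old, ?_⟩, rfl, q, hqlt', hqi, hqA,
    t'q, ?_⟩
  · intro x hx y hy c hc
    by_cases h1 : x < s.n ∧ y < s.n
    · rw [t'old x h1.1 y h1.2] at hc
      have := s.closed x h1.1 y h1.2 c hc
      omega
    · by_cases h2 : x ∈ Set.range q ∧ y ∈ Set.range q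
      · obtain ⟨⟨a, rfl⟩, ⟨b, rfl⟩⟩ := h2
        rw [t'q] at hc
        obtain ⟨d, -, rfl⟩ := List.mem_map.1 hc
        exact hqlt' d
      · rw [t'new x y h1 h2] at hc
        exact List.mem_range.1 hc
  · intro x hx y hy z hz
    by_cases h1 : x < s.n ∧ y < s.n ∧ z < s.n
    · rw [t'old x h1.1 y h1.2.1, t'old y h1.2.1 z h1.2.2, t'old z h1.2.2 x h1.1]
      exact s.triple x h1.1 y h1.2.1 z h1.2.2
    · by_cases h2 : x ∈ Set.range q ∧ y ∈ Set.range q ∧ z ∈ Set.range q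
      · obtain ⟨⟨a, rfl⟩, ⟨b, rfl⟩, ⟨c, rfl⟩⟩ := h2
        rw [t'q, t'q, t'q]
        rcases htr a b c with h | h | h
        · exact Or.inl (List.mem_map_of_mem h)
        · exact Or.inr (Or.inl (List.mem_map_of_mem h))
        · exact Or.inr (Or.inr (List.mem_map_of_mem h))
      · by_cases h3 : ¬ (x < s.n ∧ y < s.n) ∧ ¬ (x ∈ Set.range q ∧ y ∈ Set.range q)
        · left; rw [t'new x y h3.1 h3.2]; exact List.mem_range.2 hz
        · by_cases h4 : ¬ (y < s.n ∧ z < s.n) ∧ ¬ (y ∈ Set.range q ∧ z ∈ Set.range q)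
          · right; left; rw [t'new y z h4.1 h4.2]; exact List.mem_range.2 hx
          · right; right
            rw [t'new z x (by tauto) (by tauto)]; exact List.mem_range.2 hy
  · intro a ha
    simp only [π', ha, if_true]
  · intro a
    by_cases ha : q a < s.n
    · have ha' := (hqlt a).1 ha
      simp only [π', ha, if_true]
      rw [hqA a ha', hπ a ha']
    · have hex : ∃ i : Fin m, q i = q a := ⟨a, rfl⟩
      simp only [π', ha, if_false, hex, dif_pos]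
      rw [hqi hex.choose_spec]

theorem grow (s : St) (N : ℕ) : ∃ s' : St, s ≤ s' ∧ N ≤ s'.n := by
  obtain ⟨s', h1, h2, -⟩ := amalg s (m := N) ∅ (fun _ _ => List.finRange N) (fun _ => 0)
    (fun _ => 0) (by simp) ⟨fun a b c => Or.inl (List.mem_finRange c), by simp, by simp, by simp,
      by simp⟩
  exact ⟨s', h1, by omega⟩

/-- The dense set attached to a task and a bound. -/
def dense (i : Task × ℕ) : Order.Cofinal St where
  carrier := {s | i.2 ≤ s.n ∧ ((∀ a ∈ i.1.2.1, i.1.2.2.2.2 a < s.n) →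
    App i.1.2.1 i.1.2.2.1 i.1.2.2.2.1 i.1.2.2.2.2 s.t s.π →
      ∃ q, (∀ a, q a < s.n) ∧ Sol i.1.2.1 i.1.2.2.1 i.1.2.2.2.1 i.1.2.2.2.2 q s.t s.π)}
  isCofinal := by
    intro s
    obtain ⟨⟨m, A, tB, πB, p⟩, N⟩ := i
    obtain ⟨s₁, h1, h2⟩ := grow s N
    by_cases h : (∀ a ∈ A, p a < s₁.n) ∧ App A tB πB p s₁.t s₁.π
    · obtain ⟨s₂, h3, h4, h5⟩ := amalg s₁ A tB πB p h.1 h.2
      exact ⟨s₂, ⟨h2.trans h3.1, fun _ _ => h5⟩, h1.trans h3⟩
    · exact ⟨s₁, ⟨h2, fun a b => absurd ⟨a, b⟩ h⟩, h1⟩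

theorem exists_generic : ∃ (t : ℕ → ℕ → List ℕ) (π : ℕ → ℕ),
    (∀ a b c, c ∈ t a b ∨ a ∈ t b c ∨ b ∈ t c a) ∧
    (∀ N, ∃ n, N ≤ n ∧ ∀ a < n, ∀ b < n, ∀ c ∈ t a b, c < n) ∧
    ∀ (m : ℕ) (A : Set (Fin m)) (tB : Fin m → Fin m → List (Fin m)) (πB p : Fin m → ℕ),
      App A tB πB p t π → ∃ q, Sol A tB πB p q t π := by
  classical
  letI : Encodable (Task × ℕ) := Encodable.ofCountable _
  let s₀ : St := ⟨0, fun _ _ => [], fun _ => 0, by simp, by simp⟩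
  let s : ℕ → St := Order.sequenceOfCofinals s₀ dense
  have hmono : Monotone s := Order.sequenceOfCofinals.monotone s₀ dense
  have hmem : ∀ i, ∃ k, s k ∈ dense i := fun i =>
    ⟨_, Order.sequenceOfCofinals.encode_mem s₀ dense i⟩
  have hN : ∀ N, ∃ k, N ≤ (s k).n := fun N => by
    obtain ⟨k, hk⟩ := hmem (⟨0, ∅, fun _ _ => [], fun _ => 0, fun _ => 0⟩, N)
    exact ⟨k, hk.1⟩
  choose κ hκ using hN
  let t : ℕ → ℕ → List ℕ := fun a b => (s (κ (max a b + 1))).t a b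
  let π : ℕ → ℕ := fun a => (s (κ (a + 1))).π a
  have ht : ∀ k, ∀ a < (s k).n, ∀ b < (s k).n, t a b = (s k).t a b := by
    intro k a ha b hb
    have h1 := hκ (max a b + 1)
    rcases le_total k (κ (max a b + 1)) with h | h
    · exact (hmono h).2.1 a ha b hb
    · exact ((hmono h).2.1 a (by omega) b (by omega)).symm
  have hπ : ∀ k, ∀ a < (s k).n, π a = (s k).π a := by
    intro k a ha
    have h1 := hκ (a + 1)
    rcases le_total k (κ (a + 1)) with h | h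
    · exact (hmono h).2.2 a ha
    · exact ((hmono h).2.2 a (by omega)).symm
  refine ⟨t, π, ?_, ?_, ?_⟩
  · intro a b c
    have h1 := hκ (a + b + c + 1)
    rw [ht (κ (a + b + c + 1)) a (by omega) b (by omega),
      ht (κ (a + b + c + 1)) b (by omega) c (by omega),
      ht (κ (a + b + c + 1)) c (by omega) a (by omega)]
    exact St.triple _ a (by omega) b (by omega) c (by omega)
  · intro N
    refine ⟨(s (κ N)).n, hκ N, fun a ha b hb c hc => ?_⟩
    rw [ht _ a ha b hb] at hc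
    exact St.closed _ a ha b hb c hc
  · intro m A tB πB p h
    obtain ⟨k, hk1, hk2⟩ := hmem (⟨m, A, tB, πB, p⟩, Finset.univ.sup p + 1)
    have hp : ∀ a, p a < (s k).n := fun a => by
      have : p a ≤ Finset.univ.sup p := Finset.le_sup (Finset.mem_univ a)
      exact lt_of_lt_of_le (Nat.lt_succ_of_le this) hk1
    obtain ⟨h1, h2, h3, h4, h5⟩ := h
    obtain ⟨q, hq, g1, g2, g3, g4⟩ := hk2 (fun a _ => hp a) ⟨h1, h2, h3,
      fun a ha b hb => by rw [← ht k _ (hp a) _ (hp b)]; exact h4 a ha b hb,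
      fun a ha => by rw [← hπ k _ (hp a)]; exact h5 a ha⟩
    exact ⟨q, g1, g2, fun a b => by rw [ht k _ (hq a) _ (hq b)]; exact g3 a b,
      fun a => by rw [hπ k _ (hq a)]; exact g4 a⟩

theorem ext_perm (s : Finset ℕ) (φ : ℕ → ℕ) (h : Set.InjOn φ s) :
    ∃ g : Equiv.Perm ℕ, ∀ i ∈ s, g i = φ i := by
  obtain ⟨σ, hσ⟩ := Equiv.Perm.exists_extending_pair (fun x : s => (x : ℕ)) (fun x : s => φ x)
    Subtype.val_injective (fun a b hab => Subtype.ext (h a.2 b.2 hab))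
  exact ⟨σ, fun i hi => hσ ⟨i, hi⟩⟩

section BF

variable {t : ℕ → ℕ → List ℕ} {π : ℕ → ℕ}

/-- Finite approximations to a lift of `σ`. -/
def Good (t : ℕ → ℕ → List ℕ) (π : ℕ → ℕ) (σ : Equiv.Perm ℕ) (A : Finset ℕ)
    (p : Equiv.Perm ℕ) : Prop :=
  (∀ a ∈ A, ∀ b ∈ A, ∀ c ∈ t a b, c ∈ A) ∧ (∀ a ∈ A, ∀ b ∈ A, t (p a) (p b) = (t a b).map p) ∧
    ∀ a ∈ A, π (p a) = σ (π a)

theorem Good.inv {σ : Equiv.Perm ℕ} {A : Finset ℕ} {p : Equiv.Perm ℕ} (h : Good t π σ A p) :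
    Good t π σ⁻¹ (A.image p) p⁻¹ := by
  obtain ⟨h1, h2, h3⟩ := h
  refine ⟨?_, ?_, ?_⟩
  · intro a ha b hb c hc
    obtain ⟨a, ha', rfl⟩ := Finset.mem_image.1 ha
    obtain ⟨b, hb', rfl⟩ := Finset.mem_image.1 hb
    rw [h2 a ha' b hb'] at hc
    obtain ⟨c, hc', rfl⟩ := List.mem_map.1 hc
    exact Finset.mem_image_of_mem _ (h1 a ha' b hb' c hc')
  · intro a ha b hb
    obtain ⟨a, ha', rfl⟩ := Finset.mem_image.1 ha
    obtain ⟨b, hb', rfl⟩ := Finset.mem_image.1 hb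
    rw [h2 a ha' b hb']
    simp
  · intro a ha
    obtain ⟨a, ha', rfl⟩ := Finset.mem_image.1 ha
    rw [h3 a ha']
    simp

variable (htr : ∀ a b c, c ∈ t a b ∨ a ∈ t b c ∨ b ∈ t c a)
  (hcl : ∀ N, ∃ n, N ≤ n ∧ ∀ a < n, ∀ b < n, ∀ c ∈ t a b, c < n)
  (hext : ∀ (m : ℕ) (A : Set (Fin m)) (tB : Fin m → Fin m → List (Fin m)) (πB p : Fin m → ℕ),
      App A tB πB p t π → ∃ q, Sol A tB πB p q t π)

include htr hcl hext

theorem forth {σ : Equiv.Perm ℕ} {A : Finset ℕ} {p : Equiv.Perm ℕ} (h : Good t π σ A p) (x : ℕ) :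
    ∃ A' p', Good t π σ A' p' ∧ A ⊆ A' ∧ x ∈ A' ∧ ∀ a ∈ A, p' a = p a := by
  obtain ⟨h1, h2, h3⟩ := h
  obtain ⟨m, hm, hmc⟩ := hcl (A.sup id + x + 1)
  have hA : ∀ a ∈ A, a < m := fun a ha => by
    have : id a ≤ A.sup id := Finset.le_sup ha
    simp only [id] at this
    omega
  haveI : NeZero m := ⟨by omega⟩
  have hof : ∀ c < m, ((Fin.ofNat m c : Fin m) : ℕ) = c := fun c hc => by
    simp [Fin.ofNat, Nat.mod_eq_of_lt hc]
  have hof' : ∀ c : Fin m, Fin.ofNat m (c : ℕ) = c := fun c => Fin.ext (hof c c.2)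
  obtain ⟨q, g1, g2, g3, g4⟩ := hext m {a | (a : ℕ) ∈ A}
    (fun a b => (t a b).map (Fin.ofNat m)) (fun a => σ (π a)) (fun a => p a) ⟨by
      intro a b c
      rcases htr a b c with h | h | h
      · exact Or.inl (List.mem_map.2 ⟨_, h, hof' c⟩)
      · exact Or.inr (Or.inl (List.mem_map.2 ⟨_, h, hof' a⟩))
      · exact Or.inr (Or.inr (List.mem_map.2 ⟨_, h, hof' b⟩)), by
      intro a ha b hb c hc
      obtain ⟨d, hd, rfl⟩ := List.mem_map.1 hc
      have := h1 a ha b hb d hd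
      simpa only [Set.mem_ofPred_eq, hof d (hA d this)] using this, by
      intro a _ b _ hab
      exact Fin.ext (p.injective hab), by
      intro a ha b hb
      rw [h2 a ha b hb, List.map_map]
      refine List.map_congr_left fun c hc => ?_
      simp only [comp, hof c (hmc a a.2 b b.2 c hc)], fun a ha => h3 a ha⟩
  beta_reduce at g2 g3 g4
  obtain ⟨p', hp'⟩ := ext_perm (Finset.range m) (fun c => q (Fin.ofNat m c)) (by
    intro a ha b hb hab
    have := congrArg Fin.val (g1 hab)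
    rwa [hof a (by simpa using ha), hof b (by simpa using hb)] at this)
  refine ⟨Finset.range m, p', ⟨?_, ?_, ?_⟩, fun a ha => Finset.mem_range.2 (hA a ha),
    Finset.mem_range.2 (by omega), ?_⟩
  · intro a ha b hb c hc
    exact Finset.mem_range.2 (hmc a (Finset.mem_range.1 ha) b (Finset.mem_range.1 hb) c hc)
  · intro a ha b hb
    rw [hp' a ha, hp' b hb, g3, List.map_map, hof a (Finset.mem_range.1 ha),
      hof b (Finset.mem_range.1 hb)]
    refine List.map_congr_left fun c hc => ?_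
    rw [hp' c (Finset.mem_range.2 (hmc a (Finset.mem_range.1 ha) b (Finset.mem_range.1 hb) c hc))]
    rfl
  · intro a ha
    rw [hp' a ha, g4, hof a (Finset.mem_range.1 ha)]
  · intro a ha
    rw [hp' a (Finset.mem_range.2 (hA a ha)), g2 _ (by simpa only [Set.mem_ofPred_eq, hof a (hA a ha)]
      using ha), hof a (hA a ha)]

theorem back {σ : Equiv.Perm ℕ} {A : Finset ℕ} {p : Equiv.Perm ℕ} (h : Good t π σ A p) (y : ℕ) :
    ∃ A' p', Good t π σ A' p' ∧ A ⊆ A' ∧ (∃ x ∈ A', p' x = y) ∧ ∀ a ∈ A, p' a = p a := by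
  obtain ⟨B, q, g1, g2, g3, g4⟩ := forth htr hcl hext h.inv y
  have key : ∀ a ∈ A, q (p a) = a := fun a ha => by
    rw [g4 _ (Finset.mem_image_of_mem _ ha)]; simp
  refine ⟨B.image q, q⁻¹, by simpa using g1.inv, ?_, ⟨q y, Finset.mem_image_of_mem _ g3, by simp⟩,
    ?_⟩
  · intro a ha
    exact Finset.mem_image.2 ⟨p a, g2 (Finset.mem_image_of_mem _ ha), key a ha⟩
  · intro a ha
    rw [Equiv.Perm.inv_eq_iff_eq, key a ha]

omit htr hcl hext in
/-- The order of approximations. -/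
def Apx (t : ℕ → ℕ → List ℕ) (π : ℕ → ℕ) (σ : Equiv.Perm ℕ) : Type :=
  {u : Finset ℕ × Equiv.Perm ℕ // Good t π σ u.1 u.2}

omit htr hcl hext in
instance (σ : Equiv.Perm ℕ) : Preorder (Apx t π σ) where
  le u v := u.1.1 ⊆ v.1.1 ∧ ∀ a ∈ u.1.1, v.1.2 a = u.1.2 a
  le_refl u := ⟨subset_rfl, fun _ _ => rfl⟩
  le_trans u v w h h' := ⟨h.1.trans h'.1, fun a ha => (h'.2 a (h.1 ha)).trans (h.2 a ha)⟩

theorem lift (σ : Equiv.Perm ℕ) : ∃ τ : Equiv.Perm ℕ, (∀ a, π (τ a) = σ (π a)) ∧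
    ∀ a b, t (τ a) (τ b) = (t a b).map τ := by
  classical
  let D : ℕ → Order.Cofinal (Apx t π σ) := fun x =>
    ⟨{u | x ∈ u.1.1 ∧ ∃ a ∈ u.1.1, u.1.2 a = x}, by
      intro u
      obtain ⟨A', p', g1, g2, g3, g4⟩ := forth htr hcl hext u.2 x
      obtain ⟨A'', p'', k1, k2, k3, k4⟩ := back htr hcl hext g1 x
      exact ⟨⟨(A'', p''), k1⟩, ⟨k2 g3, k3⟩, g2.trans k2,
        fun a ha => (k4 a (g2 ha)).trans (g4 a ha)⟩⟩
  let u₀ : Apx t π σ := ⟨(∅, 1), by simp [Good]⟩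
  let u : ℕ → Apx t π σ := Order.sequenceOfCofinals u₀ D
  have hmono : Monotone u := Order.sequenceOfCofinals.monotone u₀ D
  have hmem : ∀ x, ∃ k, x ∈ (u k).1.1 ∧ ∃ a ∈ (u k).1.1, (u k).1.2 a = x := fun i =>
    ⟨_, Order.sequenceOfCofinals.encode_mem u₀ D i⟩
  choose κ hκ hκ' using hmem
  let τ : ℕ → ℕ := fun a => (u (κ a)).1.2 a
  have hτ : ∀ k, ∀ a ∈ (u k).1.1, τ a = (u k).1.2 a := by
    intro k a ha
    rcases le_total k (κ a) with h | h
    · exact (hmono h).2 a ha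
    · exact ((hmono h).2 a (hκ a)).symm
  have hboth : ∀ a b, ∃ k, a ∈ (u k).1.1 ∧ b ∈ (u k).1.1 := fun a b =>
    ⟨max (κ a) (κ b), (hmono (le_max_left _ _)).1 (hκ a), (hmono (le_max_right _ _)).1 (hκ b)⟩
  have hbij : Bijective τ := by
    constructor
    · intro a b hab
      obtain ⟨k, ha, hb⟩ := hboth a b
      rw [hτ k a ha, hτ k b hb] at hab
      exact (u k).1.2.injective hab
    · intro y
      obtain ⟨a, ha, hay⟩ := hκ' y
      exact ⟨a, (hτ _ a ha).trans hay⟩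
  refine ⟨Equiv.ofBijective τ hbij, fun a => ?_, fun a b => ?_⟩
  · exact (u (κ a)).2.2.2 a (hκ a)
  · obtain ⟨k, ha, hb⟩ := hboth a b
    change t (τ a) (τ b) = (t a b).map τ
    rw [hτ k a ha, hτ k b hb, (u k).2.2.1 a ha b hb]
    exact List.map_congr_left fun c hc => (hτ k c ((u k).2.1 a ha b hb c hc)).symm

end BF

theorem exists_K : ∃ (t : ℕ → ℕ → List ℕ) (π : ℕ → ℕ), Surjective π ∧
    (∀ a b c, c ∈ t a b ∨ a ∈ t b c ∨ b ∈ t c a) ∧
    ∀ σ : Equiv.Perm ℕ, ∃ τ : Equiv.Perm ℕ, (∀ a, π (τ a) = σ (π a)) ∧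
      ∀ a b, t (τ a) (τ b) = (t a b).map τ := by
  obtain ⟨t, π, h1, h2, h3⟩ := exists_generic
  refine ⟨t, π, fun y => ?_, h1, lift h1 h2 h3⟩
  obtain ⟨τ, hτ, -⟩ := lift h1 h2 h3 (Equiv.swap (π 0) y)
  exact ⟨τ 0, by rw [hτ]; simp⟩

end Pool.Agent.P.MP_8b3519_lc
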