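import Pool.Agent.P.MP_8b3519_lc.Defs
import Pool.Agent.P.MP_8b3519_lc.Generic

/-!
The two classes, and their Borel completeness.
-/

namespace Pool.Agent.P.MP_8b3519_lc

open Function

/-- The relation symbols. -/
inductive Rel : ℕ → Type
  | T (k : ℕ) : Rel 3
  | E : Rel 2
  | R (n k : ℕ) : Rel n
  | F (n k : ℕ) : Rel (n + 1)

/-- The language. -/
def LL : FirstOrder.Language.{0, 0} := ⟨fun _ => Empty, Rel⟩

theorem countable_rel : Countable (Σ n, Rel n) := by
  let d : ℕ ⊕ Unit ⊕ (ℕ × ℕ) ⊕ (ℕ × ℕ) → Σ n, Rel n := fun u => match u with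
    | .inl k => ⟨3, .T k⟩
    | .inr (.inl _) => ⟨2, .E⟩
    | .inr (.inr (.inl (n, k))) => ⟨n, .R n k⟩
    | .inr (.inr (.inr (n, k))) => ⟨n + 1, .F n k⟩
  refine Surjective.countable (f := d) ?_
  rintro ⟨_, _ | _ | _ | _⟩
  · exact ⟨.inl _, rfl⟩
  · exact ⟨.inr (.inl ()), rfl⟩
  · exact ⟨.inr (.inr (.inl (_, _))), rfl⟩
  · exact ⟨.inr (.inr (.inr (_, _))), rfl⟩

theorem countable_LL : Countable LL.Symbols := by
  haveI : Countable (Σ n, LL.Relations n) := countable_rel
  haveI : IsEmpty (Σ n, LL.Functions n) := ⟨fun p => p.2.elim⟩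
  infer_instance

/-- Truth value of a relation symbol. -/
def rel {L : FirstOrder.Language.{0, 0}} (M : ModL L) {n : ℕ} (r : L.Relations n)
    (x : Fin n → ℕ) : Prop := @FirstOrder.Language.Structure.RelMap L ℕ M n r x

/-- Value of a function symbol. -/
def fn {L : FirstOrder.Language.{0, 0}} (M : ModL L) {n : ℕ} (f : L.Functions n)
    (x : Fin n → ℕ) : ℕ := @FirstOrder.Language.Structure.funMap L ℕ M n f x

theorem measurable_diagram (L : FirstOrder.Language.{0, 0}) : Measurable (diagram L) :=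
  comap_measurable _

theorem measurable_rel {L : FirstOrder.Language.{0, 0}} {n : ℕ} (r : L.Relations n)
    (x : Fin n → ℕ) : Measurable fun M : ModL L => rel M r x :=
  (measurable_pi_apply (⟨n, r, x⟩ : Σ n : ℕ, L.Relations n × (Fin n → ℕ))).comp
    (measurable_snd.comp (measurable_diagram L))

theorem measurable_fn {L : FirstOrder.Language.{0, 0}} {n : ℕ} (f : L.Functions n)
    (x : Fin n → ℕ) : Measurable fun M : ModL L => fn M f x :=
  (measurable_pi_apply (⟨n, f, x⟩ : Σ n : ℕ, L.Functions n × (Fin n → ℕ))).comp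
    (measurable_fst.comp (measurable_diagram L))

theorem iso_iff {L : FirstOrder.Language.{0, 0}} {M N : ModL L} : Iso M N ↔
    ∃ σ : Equiv.Perm ℕ, (∀ n (f : L.Functions n) x, fn N f (σ ∘ x) = σ (fn M f x)) ∧
      ∀ n (r : L.Relations n) x, rel N r (σ ∘ x) ↔ rel M r x := by
  constructor
  · rintro ⟨e⟩
    exact ⟨@FirstOrder.Language.Equiv.toEquiv L ℕ ℕ M N e,
      fun n f x => (@FirstOrder.Language.Equiv.map_fun' L ℕ ℕ M N e n f x).symm,
      fun n r x => @FirstOrder.Language.Equiv.map_rel' L ℕ ℕ M N e n r x⟩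
  · rintro ⟨σ, h1, h2⟩
    exact ⟨@FirstOrder.Language.Equiv.mk L ℕ ℕ M N σ (fun f x => (h1 _ f x).symm)
      (fun r x => h2 _ r x)⟩

/-- The structure with given relations. -/
def mkLL (ρ : ∀ n, Rel n → (Fin n → ℕ) → Prop) : ModL LL :=
  ⟨fun f _ => Empty.elim f, fun r x => ρ _ r x⟩

theorem measurable_mkLL {α : Type} [MeasurableSpace α] {ρ : α → ∀ n, Rel n → (Fin n → ℕ) → Prop}
    (h : ∀ n r x, Measurable fun a => ρ a n r x) : Measurable fun a => mkLL (ρ a) := by
  refine measurable_comap_iff.2 (Measurable.prodMk ?_ ?_)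
  · exact measurable_pi_iff.2 fun p => p.2.1.elim
  · exact measurable_pi_iff.2 fun p => h _ _ _

theorem iso_LL {M N : ModL LL} : Iso M N ↔
    ∃ σ : Equiv.Perm ℕ, ∀ n (r : Rel n) x, rel N r (σ ∘ x) ↔ rel M r x := by
  rw [iso_iff]
  exact ⟨fun ⟨σ, h⟩ => ⟨σ, h.2⟩, fun ⟨σ, h⟩ => ⟨σ, fun _ f => f.elim, h⟩⟩

theorem ext_LL {M N : ModL LL} (h : ∀ n (r : Rel n) x, rel M r x ↔ rel N r x) : M = N := by
  obtain ⟨f, r⟩ := M
  obtain ⟨f', r'⟩ := N
  congr
  · funext n g
    exact g.elim
  · funext n s x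
    exact propext (h n s x)

theorem rel_act {L : FirstOrder.Language.{0, 0}} (g : Equiv.Perm ℕ) (M : ModL L) {n : ℕ}
    (r : L.Relations n) (x : Fin n → ℕ) : rel (act g M) r x ↔ rel M r (g.symm ∘ x) := Iff.rfl

theorem comp3 (σ : ℕ → ℕ) (a b c : ℕ) : σ ∘ ![a, b, c] = ![σ a, σ b, σ c] := by
  funext i; fin_cases i <;> rfl

/-- All structures. -/
def clsAll : Cls LL := ⟨Set.univ, MeasurableSet.univ, fun _ _ _ _ => trivial⟩

/-- The structures with the triple property. -/
def clsTriple : Cls LL where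
  carrier := {M | (∀ k a b e e', rel M (Rel.T k) ![a, b, e] → rel M (Rel.T k) ![a, b, e'] →
    e = e') ∧ ∀ a b e, ∃ k, rel M (Rel.T k) ![a, b, e] ∨ rel M (Rel.T k) ![b, e, a] ∨
      rel M (Rel.T k) ![e, a, b]}
  borel := by
    refine measurableSet_setOfPred.2 (Measurable.and ?_ ?_)
    · exact .forall fun k => .forall fun a => .forall fun b => .forall fun e => .forall fun e' =>
        (measurable_rel _ _).imp ((measurable_rel _ _).imp measurable_const)
    · exact .forall fun a => .forall fun b => .forall fun e => .exists fun k =>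
        (measurable_rel _ _).or ((measurable_rel _ _).or (measurable_rel _ _))
  invariant := by
    intro M N h ⟨h1, h2⟩
    obtain ⟨σ, hσ⟩ := iso_LL.1 h
    have key : ∀ k a b e, rel N (Rel.T k) ![σ a, σ b, σ e] ↔ rel M (Rel.T k) ![a, b, e] :=
      fun k a b e => by rw [← comp3]; exact hσ _ _ _
    refine ⟨fun k a b e e' => ?_, fun a b e => ?_⟩
    · obtain ⟨a, rfl⟩ := σ.surjective a
      obtain ⟨b, rfl⟩ := σ.surjective b
      obtain ⟨e, rfl⟩ := σ.surjective e
      obtain ⟨e', rfl⟩ := σ.surjective e'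
      rw [key, key]
      intro p q
      rw [h1 k a b e e' p q]
    · obtain ⟨a, rfl⟩ := σ.surjective a
      obtain ⟨b, rfl⟩ := σ.surjective b
      obtain ⟨e, rfl⟩ := σ.surjective e
      simp only [key]
      exact h2 a b e

section Star

variable {L : FirstOrder.Language.{0, 0}} (t : ℕ → ℕ → List ℕ) (π : ℕ → ℕ)
  (eR : (Σ n, L.Relations n) → ℕ) (eF : (Σ n, L.Functions n) → ℕ)

/-- The pull-back of a structure along the colouring. -/
def starRel (M : ModL L) : ∀ n, Rel n → (Fin n → ℕ) → Prop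
  | _, .T k, x => (t (x 0) (x 1))[k]? = some (x 2)
  | _, .E, x => π (x 0) = π (x 1)
  | _, .R n k, x => ∃ r : L.Relations n, eR ⟨n, r⟩ = k ∧ rel M r (π ∘ x)
  | _, .F n k, x => ∃ f : L.Functions n, eF ⟨n, f⟩ = k ∧ fn M f (fun i => π (x i.succ)) = π (x 0)

theorem measurable_star [Countable L.Symbols] :
    Measurable fun M : ModL L => mkLL (starRel t π eR eF M) := by
  haveI : Countable (Σ n, L.Relations n) :=
    (Sum.inr_injective (α := Σ n, L.Functions n)).countable
  haveI : ∀ n, Countable (L.Relations n) := fun n =>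
    (sigma_mk_injective (β := L.Relations) (i := n)).countable
  haveI : ∀ n, Countable (L.Functions n) := fun n =>
    (sigma_mk_injective (β := L.Functions) (i := n)).countable
  refine measurable_mkLL fun n r x => ?_
  cases r with
  | T k => exact measurable_const
  | E => exact measurable_const
  | R n k => exact .exists fun r => measurable_const.and (measurable_rel _ _)
  | F n k =>
    exact .exists fun f => measurable_const.and
      ((measurable_of_countable fun m : ℕ => m = π (x 0)).comp (measurable_fn _ _))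

theorem star_mem (htr : ∀ a b c, c ∈ t a b ∨ a ∈ t b c ∨ b ∈ t c a) (M : ModL L) :
    mkLL (starRel t π eR eF M) ∈ clsTriple.carrier := by
  refine ⟨fun k a b e e' h h' => ?_, fun a b e => ?_⟩
  · change (t a b)[k]? = some e at h
    change (t a b)[k]? = some e' at h'
    exact Option.some.inj (h.symm.trans h')
  · change ∃ k : ℕ, (t a b)[k]? = some e ∨ (t b e)[k]? = some a ∨ (t e a)[k]? = some b
    rcases htr a b e with h | h | h
    · obtain ⟨k, hk⟩ := List.mem_iff_getElem?.1 h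
      exact ⟨k, Or.inl hk⟩
    · obtain ⟨k, hk⟩ := List.mem_iff_getElem?.1 h
      exact ⟨k, Or.inr (Or.inl hk)⟩
    · obtain ⟨k, hk⟩ := List.mem_iff_getElem?.1 h
      exact ⟨k, Or.inr (Or.inr hk)⟩

theorem star_iso (hlift : ∀ σ : Equiv.Perm ℕ, ∃ τ : Equiv.Perm ℕ, (∀ a, π (τ a) = σ (π a)) ∧
      ∀ a b, t (τ a) (τ b) = (t a b).map τ) {M N : ModL L} (h : Iso M N) :
    Iso (mkLL (starRel t π eR eF M)) (mkLL (starRel t π eR eF N)) := by
  obtain ⟨σ, h1, h2⟩ := iso_iff.1 h
  obtain ⟨τ, g1, g2⟩ := hlift σ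
  refine iso_LL.2 ⟨τ, fun n r x => ?_⟩
  cases r with
  | T k =>
    change (t (τ (x 0)) (τ (x 1)))[k]? = some (τ (x 2)) ↔ (t (x 0) (x 1))[k]? = some (x 2)
    rw [g2, List.getElem?_map]
    cases (t (x 0) (x 1))[k]? <;> simp
  | E =>
    change π (τ (x 0)) = π (τ (x 1)) ↔ π (x 0) = π (x 1)
    rw [g1, g1, σ.injective.eq_iff]
  | R n k =>
    change (∃ r : L.Relations n, eR ⟨n, r⟩ = k ∧ rel N r (π ∘ τ ∘ x)) ↔
      ∃ r : L.Relations n, eR ⟨n, r⟩ = k ∧ rel M r (π ∘ x)
    have : π ∘ τ ∘ x = σ ∘ π ∘ x := funext fun i => g1 _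
    simp only [this, h2]
  | F n k =>
    change (∃ f : L.Functions n, eF ⟨n, f⟩ = k ∧
        fn N f (fun i => π (τ (x i.succ))) = π (τ (x 0))) ↔
      ∃ f : L.Functions n, eF ⟨n, f⟩ = k ∧ fn M f (fun i => π (x i.succ)) = π (x 0)
    have : (fun i : Fin n => π (τ (x i.succ))) = σ ∘ fun i : Fin n => π (x i.succ) :=
      funext fun i => g1 _
    rw [this, g1]
    simp only [h1, σ.injective.eq_iff]

theorem iso_of_star (hπ : Surjective π) (hR : Injective eR) (hF : Injective eF) {M N : ModL L}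
    (h : Iso (mkLL (starRel t π eR eF M)) (mkLL (starRel t π eR eF N))) : Iso M N := by
  obtain ⟨τ, hτ⟩ := iso_LL.1 h
  obtain ⟨sec, hsec⟩ := hπ.hasRightInverse
  have hE : ∀ a b, π (τ a) = π (τ b) ↔ π a = π b := fun a b => hτ 2 Rel.E ![a, b]
  let s : ℕ → ℕ := fun u => π (τ (sec u))
  have hs : ∀ a, s (π a) = π (τ a) := fun a => (hE _ _).2 (hsec _)
  have hbij : Bijective s := by
    constructor
    · intro u v e
      have := (hE _ _).1 e
      rwa [hsec, hsec] at this
    · intro v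
      exact ⟨π (τ.symm (sec v)), by rw [hs, Equiv.apply_symm_apply, hsec]⟩
  refine iso_iff.2 ⟨Equiv.ofBijective s hbij, fun n f x => ?_, fun n r x => ?_⟩
  · have := (hτ (n + 1) (Rel.F n (eF ⟨n, f⟩)) (Fin.cons (sec (fn M f x)) (sec ∘ x))).2
      ⟨f, rfl, by
        simp only [Fin.cons_succ, Fin.cons_zero, comp, hsec _]⟩
    obtain ⟨f', e1, e2⟩ := this
    obtain rfl : f' = f := sigma_mk_injective (hF e1)
    exact e2
  · have := hτ n (Rel.R n (eR ⟨n, r⟩)) (sec ∘ x)
    have e : π ∘ sec ∘ x = x := funext fun i => hsec _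
    constructor
    · intro hh
      obtain ⟨r', e1, e2⟩ := this.1 ⟨r, rfl, hh⟩
      obtain rfl : r' = r := sigma_mk_injective (hR e1)
      rwa [e] at e2
    · intro hh
      obtain ⟨r', e1, e2⟩ := this.2 ⟨r, rfl, by rwa [e]⟩
      obtain rfl : r' = r := sigma_mk_injective (hR e1)
      exact e2

end Star

theorem complete_triple : BorelComplete clsTriple := by
  intro L hL C
  obtain ⟨t, π, h1, h2, h3⟩ := exists_K
  haveI : Countable (Σ n, L.Relations n) :=
    (Sum.inr_injective (α := Σ n, L.Functions n)).countable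
  obtain ⟨eR, hR⟩ := exists_injective_nat (Σ n, L.Relations n)
  obtain ⟨eF, hF⟩ := exists_injective_nat (Σ n, L.Functions n)
  exact ⟨fun x => ⟨mkLL (starRel t π eR eF x.1), star_mem t π eR eF h2 _⟩,
    ((measurable_star t π eR eF).comp measurable_subtype_coe).subtype_mk,
    fun x y => ⟨star_iso t π eR eF h3, iso_of_star t π eR eF h1 hR hF⟩⟩

theorem complete_all : BorelComplete clsAll := by
  intro L hL C
  obtain ⟨f, hf, h⟩ := complete_triple L hL C
  exact ⟨fun x => ⟨(f x).1, trivial⟩, (measurable_subtype_coe.comp hf).subtype_mk, h⟩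

end Pool.Agent.P.MP_8b3519_lc
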