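import Pool.Agent.P.MP_8b3519_lc.LoSpace

/-!
Matrices with reals for the columns and relations of prime arity on the rows.
-/

namespace Pool.Agent.P.MP_8b3519_lc

open Filter Topology Set Function

/-- The `n`-th prime minus one. -/
noncomputable def pm (n : ℕ) : ℕ := Nat.nth Nat.Prime n - 1

theorem pm_succ (n : ℕ) : pm n + 1 = Nat.nth Nat.Prime n := by
  have := (Nat.prime_nth_prime n).pos
  unfold pm
  omega

theorem pm_prime (n : ℕ) : (pm n + 1).Prime := by
  rw [pm_succ]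
  exact Nat.prime_nth_prime n

theorem pm_inj {n m : ℕ} (h : pm n + 1 = pm m + 1) : n = m := by
  rw [pm_succ, pm_succ] at h
  exact Nat.nth_injective Nat.infinite_setOfPred_prime h

theorem lt_pm (n : ℕ) : n < pm n := by
  have := Nat.add_two_le_nth_prime n
  have := pm_succ n
  omega

theorem nonconst_max {α : Type*} [LinearOrder α] {m : ℕ} (f : Fin (m + 1) → α)
    (h : ∃ i, f i ≠ f 0) : ∃ s, ¬ ((∀ i, f (i + s) ≤ f (0 + s)) ↔ ∀ i, f i ≤ f 0) := by
  obtain ⟨i₀, -, h0⟩ := Finset.exists_max_image Finset.univ f Finset.univ_nonempty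
  by_cases e : ∀ i, f i ≤ f 0
  · obtain ⟨i, hi⟩ := h
    refine ⟨i, fun hh => hi (le_antisymm (e i) ?_)⟩
    have := hh.2 e (-i)
    simpa using this
  · exact ⟨i₀, fun hh => e (hh.1 fun i => by simpa using h0 (i + i₀) (Finset.mem_univ _))⟩

theorem all_shift {m : ℕ} {α : Type*} {S : α → Prop} (a : Fin (m + 1) → α) (s : Fin (m + 1)) :
    (∀ i, S (a (i + s))) ↔ ∀ i, S (a i) :=
  ⟨fun h i => by simpa using h (i - s), fun h _ => h _⟩

/-- The constraints on the relations. -/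
def ROk (n₀ : ℕ) (r : ∀ n, (Fin (pm n + 1) → ℕ) → Bool) : Prop :=
  (∀ n a, (n = n₀ ∨ ¬ Injective a) → r n a = false) ∧
    ∀ n, n ≠ n₀ → ∀ a, Injective a → ∃ s, r n (fun i => a (i + s)) ≠ r n a

theorem isClosed_ROk (n₀ : ℕ) : IsClosed {r | ROk n₀ r} := by
  have c : ∀ n a, Continuous fun r : ∀ n, (Fin (pm n + 1) → ℕ) → Bool => r n a := fun n a =>
    (continuous_apply a).comp (continuous_apply n)
  have e : {r | ROk n₀ r} = (⋂ n, ⋂ a, ⋂ _ : n = n₀ ∨ ¬ Injective a, {r | r n a = false}) ∩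
      ⋂ n, ⋂ _ : n ≠ n₀, ⋂ a, ⋂ _ : Injective a, ⋃ s, {r | r n (fun i => a (i + s)) ≠ r n a} := by
    ext r
    simp only [ROk, mem_inter_iff, mem_iInter, mem_iUnion, mem_ofPred_eq]
  rw [e]
  refine IsClosed.inter (isClosed_iInter fun n => isClosed_iInter fun a => isClosed_iInter fun _ =>
    isClosed_eq (c n a) continuous_const) (isClosed_iInter fun n => isClosed_iInter fun _ =>
    isClosed_iInter fun a => isClosed_iInter fun _ => isClosed_iUnion_of_finite fun s => ?_)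
  exact (isClosed_discrete {p : Bool × Bool | p.1 ≠ p.2}).preimage ((c n _).prodMk (c n a))

/-- The relations on the rows. -/
def RR (n₀ : ℕ) : Type := {r : ∀ n, (Fin (pm n + 1) → ℕ) → Bool // ROk n₀ r}

variable {n₀ : ℕ}

instance : TopologicalSpace (RR n₀) :=
  inferInstanceAs (TopologicalSpace {r : ∀ n, (Fin (pm n + 1) → ℕ) → Bool // ROk n₀ r})
instance : PolishSpace (RR n₀) :=
  haveI : PolishSpace (∀ n, (Fin (pm n + 1) → ℕ) → Bool) := {}
  (isClosed_ROk n₀).polishSpace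
instance : PolishSpace SX := {}

theorem ROk.comp {r : ∀ n, (Fin (pm n + 1) → ℕ) → Bool} (h : ROk n₀ r) (g : Equiv.Perm ℕ) :
    ROk n₀ fun n a => r n (g ∘ a) :=
  ⟨fun n _ ha => h.1 n _ (ha.imp id fun h1 h2 => h1 (Injective.of_comp h2)),
    fun n hn a ha => h.2 n hn (g ∘ a) (g.injective.comp ha)⟩

theorem ROk.patch {r r' : ∀ n, (Fin (pm n + 1) → ℕ) → Bool} (h : ROk n₀ r) (h' : ROk n₀ r')
    (S : ℕ → Prop) [DecidablePred S] : ROk n₀ fun n a => if ∀ i, S (a i) then r n a else r' n a := by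
  refine ⟨fun n a ha => ?_, fun n hn a ha => ?_⟩
  · dsimp only
    split_ifs
    · exact h.1 n a ha
    · exact h'.1 n a ha
  · simp only [all_shift (S := S) a]
    split_ifs
    · exact h.2 n hn a ha
    · exact h'.2 n hn a ha

/-- The data on the rows: a matrix and the relations. -/
def RX (n₀ : ℕ) : Type := SX × RR n₀

instance : TopologicalSpace (RX n₀) := inferInstanceAs (TopologicalSpace (SX × RR n₀))
instance : PolishSpace (RX n₀) := inferInstanceAs (PolishSpace (SX × RR n₀))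

/-- The data on the rows and a real for each column. -/
def CX (n₀ : ℕ) : Type := RX n₀ × SX

instance : TopologicalSpace (CX n₀) := inferInstanceAs (TopologicalSpace (RX n₀ × SX))
instance : PolishSpace (CX n₀) := inferInstanceAs (PolishSpace (RX n₀ × SX))

/-- The point with given row data and given reals. -/
def CX.mk' (ρ : RX n₀) (b : SX) : CX n₀ := (ρ, b)

/-- The point with given matrix, relations and reals. -/
def CX.mk (A : SX) (r : ∀ n, (Fin (pm n + 1) → ℕ) → Bool) (h : ROk n₀ r) (b : SX) : CX n₀ :=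
  ((A, ⟨r, h⟩), b)

/-- The row data. -/
def CX.row (x : CX n₀) : RX n₀ := x.1

/-- The matrix. -/
def CX.A (x : CX n₀) : SX := x.1.1

/-- The relations. -/
def CX.r (x : CX n₀) : ∀ n, (Fin (pm n + 1) → ℕ) → Bool := x.1.2.1

/-- The reals. -/
def CX.b (x : CX n₀) : SX := x.2

theorem CX.ok (x : CX n₀) : ROk n₀ x.r := x.1.2.2

@[simp] theorem CX.A_mk (A r) (h : ROk n₀ r) (b) : (CX.mk A r h b).A = A := rfl
@[simp] theorem CX.r_mk (A r) (h : ROk n₀ r) (b) : (CX.mk A r h b).r = r := rfl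
@[simp] theorem CX.b_mk (A r) (h : ROk n₀ r) (b) : (CX.mk A r h b).b = b := rfl

theorem CX.crow : Continuous (CX.row (n₀ := n₀)) := continuous_fst
theorem CX.cA : Continuous (CX.A (n₀ := n₀)) := continuous_fst.comp continuous_fst
theorem CX.cr : Continuous (CX.r (n₀ := n₀)) :=
  continuous_subtype_val.comp (continuous_snd.comp continuous_fst)
theorem CX.cb : Continuous (CX.b (n₀ := n₀)) := continuous_snd
theorem CX.cr' (n : ℕ) (a : Fin (pm n + 1) → ℕ) : Continuous fun x : CX n₀ => x.r n a :=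
  (continuous_apply a).comp ((continuous_apply n).comp CX.cr)
theorem CX.cmk' {W : Type*} [TopologicalSpace W] {f : W → RX n₀} {g : W → SX} (hf : Continuous f)
    (hg : Continuous g) : Continuous fun w => CX.mk' (f w) (g w) := hf.prodMk hg

instance : MulAction GG (CX n₀) where
  smul γ x := CX.mk (fun i n => x.A (γ.r⁻¹ i) (γ.s⁻¹ n)) (fun n a => x.r n fun i => γ.r⁻¹ (a i))
    (x.ok.comp γ.r⁻¹) (fun n => x.b (γ.s⁻¹ n))
  one_smul _ := rfl
  mul_smul _ _ _ := rfl

theorem csmul_A (γ : GG) (x : CX n₀) (i n : ℕ) : (γ • x).A i n = x.A (γ.r⁻¹ i) (γ.s⁻¹ n) := rfl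
theorem csmul_r (γ : GG) (x : CX n₀) (n : ℕ) (a : Fin (pm n + 1) → ℕ) :
    (γ • x).r n a = x.r n (fun i => γ.r⁻¹ (a i)) := rfl
theorem csmul_b (γ : GG) (x : CX n₀) (n : ℕ) : (γ • x).b n = x.b (γ.s⁻¹ n) := rfl

instance : ContinuousSMul GG (CX n₀) where
  continuous_smul := by
    refine Continuous.prodMk (Continuous.prodMk
      (continuous_pi fun i => continuous_pi fun n => ?_)
      (Continuous.subtype_mk (continuous_pi fun n => continuous_pi fun a => ?_) _))
      (continuous_pi fun n => ?_)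
    · exact Continuous.ev (f := fun w : GG × CX n₀ => w.2.A (w.1.r⁻¹ i))
        (Continuous.ev (f := fun w : GG × CX n₀ => w.2.A) (CX.cA.comp continuous_snd)
          (SG.cev' (GG.c1.comp continuous_fst) i)) (SG.cev' (GG.c2.comp continuous_fst) n)
    · have h1 : Continuous fun a : ((Fin (pm n + 1) → ℕ) → Bool) × (Fin (pm n + 1) → ℕ) =>
          a.1 a.2 := continuous_prod_of_discrete_right.2 fun y => continuous_apply y
      exact h1.comp (f := fun w : GG × CX n₀ => (w.2.r n, fun i => w.1.r⁻¹ (a i)))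
        (((continuous_apply n).comp (CX.cr.comp continuous_snd)).prodMk
          (continuous_pi fun i => SG.cev' (GG.c1.comp continuous_fst) (a i)))
    · exact Continuous.ev (f := fun w : GG × CX n₀ => w.2.b) (CX.cb.comp continuous_snd)
        (SG.cev' (GG.c2.comp continuous_fst) n)

instance : BaireSpace (CX n₀) := inferInstance
instance : BaireSpace (GG × CX n₀) := inferInstance
instance : BaireSpace (GG × GG × CX n₀) := inferInstance
instance : BaireSpace (RX n₀ × CX n₀) := inferInstance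

/-- Basic neighbourhoods. -/
def CB (z : CX n₀) (N : ℕ) : Set (CX n₀) :=
  {w | w.A ∈ Bx z.A N ∧ (∀ n < N, ∀ a, (∀ i, a i < N) → w.r n a = z.r n a) ∧ w.b ∈ Bx z.b N}

theorem self_mem_CB (z : CX n₀) (N : ℕ) : z ∈ CB z N :=
  ⟨self_mem_Bx _ _, fun _ _ _ _ => rfl, self_mem_Bx _ _⟩

theorem CB.r_eq {z w : CX n₀} {N : ℕ} (h : w ∈ CB z N) (n : ℕ) (a : Fin (pm n + 1) → ℕ)
    (ha : ∀ i, a i < N) : w.r n a = z.r n a := by
  by_cases hn : n < N
  · exact h.2.1 n hn a ha
  · have : ¬ Injective a := fun hi => by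
      have h1 : Injective fun i => (⟨a i, ha i⟩ : Fin N) := fun i j e => hi (congrArg Fin.val e)
      have h2 := Fintype.card_le_of_injective _ h1
      have h3 := lt_pm n
      simp at h2
      omega
    rw [w.ok.1 n a (Or.inr this), z.ok.1 n a (Or.inr this)]

theorem isOpen_CB (z : CX n₀) (N : ℕ) : IsOpen (CB z N) := by
  refine ((isOpen_Bx z.A N).preimage CX.cA).inter (IsOpen.inter (isOpen_forall_lt N fun n => ?_)
    ((isOpen_Bx z.b N).preimage CX.cb))
  have : {w : CX n₀ | ∀ a, (∀ i, a i < N) → w.r n a = z.r n a} =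
      ⋂ a ∈ {a : Fin (pm n + 1) → ℕ | ∀ i, a i ∈ Iio N}, {w | w.r n a = z.r n a} := by
    ext w
    simp
  rw [this]
  exact (Set.Finite.pi' fun _ => finite_Iio N).isOpen_biInter fun a _ =>
    isOpen_eq_const (CX.cr' n a) (fun t => t = z.r n a)

theorem CB_mono {z : CX n₀} {N M : ℕ} (h : N ≤ M) : CB z M ⊆ CB z N :=
  fun _ hw => ⟨Bx_mono h hw.1, fun n hn a ha => hw.2.1 n (hn.trans_le h) a
    fun i => (ha i).trans_le h, Bx_mono h hw.2.2⟩

theorem tendsto_of_CB {z : CX n₀} {w : ℕ → CX n₀} (h : ∀ N, w N ∈ CB z N) :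
    Tendsto w atTop (𝓝 z) := by
  have h1 : Tendsto (fun N => (w N).r) atTop (𝓝 z.r) := by
    refine tendsto_pi_nhds.2 fun n => tendsto_pi_nhds.2 fun a => tendsto_const_nhds.congr' ?_
    filter_upwards [eventually_gt_atTop (Finset.univ.sup a)] with N hN
    exact (CB.r_eq (h N) n a fun i =>
      (Finset.le_sup (f := a) (Finset.mem_univ i)).trans_lt hN).symm
  exact ((tendsto_of_Bx fun N => (h N).1).prodMk_nhds (tendsto_subtype_rng.2 h1)).prodMk_nhds
    (tendsto_of_Bx fun N => (h N).2.2)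

theorem exists_CB {z : CX n₀} {U : Set (CX n₀)} (hU : IsOpen U) (hz : z ∈ U) (N₀ : ℕ) :
    ∃ N, N₀ ≤ N ∧ CB z N ⊆ U := by
  have : ∃ N, CB z N ⊆ U := by
    by_contra hcon
    push Not at hcon
    choose w hw using fun N => not_subset.1 (hcon N)
    obtain ⟨N, hN⟩ := ((tendsto_of_CB fun N => (hw N).1).eventually (hU.mem_nhds hz)).exists
    exact (hw N).2 hN
  obtain ⟨N, hN⟩ := this
  exact ⟨max N₀ N, le_max_left _ _, (CB_mono (le_max_right _ _)).trans hN⟩

theorem exists_box_one3 {z : CX n₀} {U : Set (GG × CX n₀)} (hU : IsOpen U)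
    (hz : ((1 : GG), z) ∈ U) : ∃ N, ∀ (γ : GG) (w : CX n₀), (∀ i < N, γ.r i = i) →
      (∀ i < N, γ.s i = i) → w ∈ CB z N → (γ, w) ∈ U := by
  by_contra hcon
  push Not at hcon
  choose g w hg hg' hw hn using hcon
  have h1 : Tendsto g atTop (𝓝 1) :=
    (tendsto_one (g := fun N => (g N).1) hg).prodMk_nhds (tendsto_one (g := fun N => (g N).2) hg')
  obtain ⟨N, hN⟩ := ((h1.prodMk_nhds (tendsto_of_CB hw)).eventually (hU.mem_nhds hz)).exists
  exact hn N hN

/-- The point equal to `z` on the box of size `M` and to `w` elsewhere. -/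
noncomputable def patch (M : ℕ) (z w : CX n₀) : CX n₀ :=
  CX.mk (fun i n => if i < M ∧ n < M then z.A i n else w.A i n)
    (fun n a => if ∀ i, a i < M then z.r n a else w.r n a) (z.ok.patch w.ok fun t => t < M)
    (fun n => if n < M then z.b n else w.b n)

theorem patch_mem (M : ℕ) (z w : CX n₀) : patch M z w ∈ CB z M :=
  ⟨fun i hi n hn => by simp [patch, hi, hn], fun n _ a ha => by simp [patch, ha],
    fun n hn j _ => by simp [patch, hn]⟩

theorem fresh (z z' : CX n₀) (M N : ℕ) (hb : z.b ∈ Bx z'.b N) :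
    ∃ (u : SG) (y : CX n₀), (∀ i < N, u.p⁻¹ i = M + i) ∧ y ∈ CB z M ∧ GG.mk u 1 • y ∈ CB z' N := by
  obtain ⟨u, hu⟩ := exists_inv_eq N (fun i => M + i) (fun i _ j _ e => by omega)
  have hu' : ∀ i < N, u.p (M + i) = i := fun i hi => by rw [← hu i hi]; simp
  refine ⟨u, patch M z ((GG.mk u 1)⁻¹ • CX.mk' z'.row z.b), hu, patch_mem _ _ _,
    fun i hi n _ => ?_, fun n _ a ha => ?_, fun n hn j hj => ?_⟩
  · rw [csmul_A]
    simp only [patch, CX.A_mk, GG.r_mk, hu i hi, show ¬ (M + i < M) by omega, false_and, if_false,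
      csmul_A, GG.r_inv, inv_inv, hu' i hi]
    rfl
  · rw [csmul_r]
    have e : ¬ ∀ i, u.p⁻¹ (a i) < M := fun h => by
      have := h 0
      rw [hu _ (ha 0)] at this
      omega
    simp only [patch, CX.r_mk, GG.r_mk, e, if_false, csmul_r, GG.r_inv, inv_inv]
    simp only [Equiv.Perm.coe_inv, Equiv.apply_symm_apply]
    rfl
  · rw [csmul_b, ← hb n hn j hj]
    simp only [patch, CX.b_mk, csmul_b]
    split_ifs <;> rfl

theorem fiber_trans3 {U U' : Set (CX n₀)} (hU : IsOpen U) (hU' : IsOpen U') {x x' : CX n₀}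
    (hb : x.b = x'.b) (h : x ∈ U) (h' : x' ∈ U') :
    ∃ (g : SG) (u : CX n₀), u ∈ U ∧ GG.mk g 1 • u ∈ U' := by
  obtain ⟨M, -, hM⟩ := exists_CB hU h 0
  obtain ⟨N, -, hN⟩ := exists_CB hU' h' 0
  obtain ⟨u, y, -, h1, h2⟩ := fresh x x' M N (hb ▸ self_mem_Bx _ _)
  exact ⟨u, y, hM h1, hN h2⟩

theorem isOpen_slice3 (γ : GG) {O : Set (GG × CX n₀)} (h : IsOpen O) :
    IsOpen {z : CX n₀ | (γ, z) ∈ O} :=
  h.preimage (f := fun z : CX n₀ => (γ, z)) (by fun_prop)

theorem isOpen_smul_mem3 (γ : GG) {U : Set (CX n₀)} (h : IsOpen U) :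
    IsOpen {z : CX n₀ | γ • z ∈ U} :=
  h.preimage (f := fun z : CX n₀ => γ • z) (by fun_prop)

end Pool.Agent.P.MP_8b3519_lc
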