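import Pool.Agent.P.MP_8b3519_lc.Complete
import Pool.Agent.P.MP_8b3519_lc.CySpace

/-!
The classes given by sets of primes, and their Borel completeness.
-/

namespace Pool.Agent.P.MP_8b3519_lc

open Function

theorem exists_colour : ∃ (val : ℕ → ℝ) (π : ℕ → ℕ), Injective val ∧
    ∀ (c : ℕ) (α β : ℝ), α < β → ∃ k, π k = c ∧ α < val k ∧ val k < β := by
  obtain ⟨e⟩ := nonempty_equiv_of_countable (α := ℕ) (β := ℚ × ℕ)
  refine ⟨fun k => ((e k).1 : ℝ) + (e k).2 * Real.sqrt 2, fun k => (e k).2, fun k k' h => ?_,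
    fun c α β h => ?_⟩
  · apply e.injective
    have h' : ((e k).1 : ℝ) + (e k).2 * Real.sqrt 2 = (e k').1 + (e k').2 * Real.sqrt 2 := h
    by_cases h2 : (e k).2 = (e k').2
    · rw [h2] at h'
      exact Prod.ext (by exact_mod_cast add_right_cancel h') h2
    · exfalso
      have h3 : ((e k).2 : ℝ) - (e k').2 ≠ 0 := sub_ne_zero.2 (by exact_mod_cast h2)
      refine irrational_sqrt_two ⟨((e k').1 - (e k).1) / ((e k).2 - (e k').2), ?_⟩
      push_cast
      rw [div_eq_iff h3]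
      linarith
  · obtain ⟨q, h1, h2⟩ := exists_rat_btwn (sub_lt_sub_right h (c * Real.sqrt 2))
    refine ⟨e.symm (q, c), by simp, ?_, ?_⟩ <;> simp only [Equiv.apply_symm_apply] <;> linarith

section Lift

variable {val : ℕ → ℝ} {π : ℕ → ℕ} (hv : Injective val)
  (hd : ∀ (c : ℕ) (α β : ℝ), α < β → ∃ k, π k = c ∧ α < val k ∧ val k < β)

/-- Finite partial order isomorphisms. -/
def Pio (val : ℕ → ℝ) (f : Finset (ℕ × ℕ)) : Prop :=
  ∀ p ∈ f, ∀ q ∈ f, (val p.1 < val q.1 ↔ val p.2 < val q.2)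

include hv hd

theorem pio_step {f : Finset (ℕ × ℕ)} (hf : Pio val f) (a c : ℕ) (ha : ∀ p ∈ f, p.1 ≠ a) :
    ∃ b, π b = c ∧ Pio val (insert (a, b) f) := by
  classical
  obtain ⟨α, h1, h2⟩ := Order.exists_between_finsets
    ((f.filter fun p => val p.1 < val a).image fun p => val p.2)
    ((f.filter fun p => val a < val p.1).image fun p => val p.2) (by
      intro x hx y hy
      obtain ⟨p, hp, rfl⟩ := Finset.mem_image.1 hx
      obtain ⟨q, hq, rfl⟩ := Finset.mem_image.1 hy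
      rw [Finset.mem_filter] at hp hq
      exact (hf p hp.1 q hq.1).1 (hp.2.trans hq.2))
  obtain ⟨β, h3, h4⟩ := Order.exists_between_finsets {α}
    ((f.filter fun p => val a < val p.1).image fun p => val p.2) (by
      intro x hx y hy
      rw [Finset.mem_singleton.1 hx]
      exact h2 y hy)
  obtain ⟨b, hb, b1, b2⟩ := hd c α β (h3 α (Finset.mem_singleton_self _))
  have key : ∀ p ∈ f, (val p.1 < val a ∧ val p.2 < val b) ∨ (val a < val p.1 ∧ val b < val p.2) := by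
    intro p hp
    rcases lt_or_gt_of_ne (hv.ne (ha p hp)) with h | h
    · exact Or.inl ⟨h, (h1 _ (Finset.mem_image.2 ⟨p, Finset.mem_filter.2 ⟨hp, h⟩, rfl⟩)).trans b1⟩
    · exact Or.inr ⟨h, b2.trans (h4 _ (Finset.mem_image.2 ⟨p, Finset.mem_filter.2 ⟨hp, h⟩, rfl⟩))⟩
  refine ⟨b, hb, fun p hp q hq => ?_⟩
  rcases Finset.mem_insert.1 hp with rfl | hp <;> rcases Finset.mem_insert.1 hq with rfl | hq
  · simp
  · rcases key q hq with h | h
    · exact iff_of_false (not_lt.2 h.1.le) (not_lt.2 h.2.le)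
    · exact iff_of_true h.1 h.2
  · rcases key p hp with h | h
    · exact iff_of_true h.1 h.2
    · exact iff_of_false (not_lt.2 h.1.le) (not_lt.2 h.2.le)
  · exact hf p hp q hq

theorem pio_forth (σ : Equiv.Perm ℕ) {f : Finset (ℕ × ℕ)} (hf : Pio val f)
    (hπ : ∀ p ∈ f, π p.2 = σ (π p.1)) (a : ℕ) :
    ∃ g, f ⊆ g ∧ Pio val g ∧ (∀ p ∈ g, π p.2 = σ (π p.1)) ∧ ∃ b, (a, b) ∈ g := by
  by_cases ha : ∃ p ∈ f, p.1 = a
  · obtain ⟨p, hp, rfl⟩ := ha
    exact ⟨f, subset_rfl, hf, hπ, p.2, hp⟩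
  · push Not at ha
    obtain ⟨b, h1, h2⟩ := pio_step hv hd hf a (σ (π a)) ha
    refine ⟨_, Finset.subset_insert _ _, h2, fun p hp => ?_, b, Finset.mem_insert_self _ _⟩
    rcases Finset.mem_insert.1 hp with rfl | hp
    · exact h1
    · exact hπ p hp

theorem pio_back (σ : Equiv.Perm ℕ) {f : Finset (ℕ × ℕ)} (hf : Pio val f)
    (hπ : ∀ p ∈ f, π p.2 = σ (π p.1)) (b : ℕ) :
    ∃ g, f ⊆ g ∧ Pio val g ∧ (∀ p ∈ g, π p.2 = σ (π p.1)) ∧ ∃ a, (a, b) ∈ g := by
  obtain ⟨g, h1, h2, h3, a, h4⟩ := pio_forth hv hd σ.symm (f := f.image Prod.swap)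
    (fun p hp q hq => by
      obtain ⟨p, hp', rfl⟩ := Finset.mem_image.1 hp
      obtain ⟨q, hq', rfl⟩ := Finset.mem_image.1 hq
      exact (hf p hp' q hq').symm)
    (fun p hp => by
      obtain ⟨p, hp', rfl⟩ := Finset.mem_image.1 hp
      simp [hπ p hp']) b
  refine ⟨g.image Prod.swap, fun p hp => Finset.mem_image.2
    ⟨p.swap, h1 (Finset.mem_image.2 ⟨p, hp, rfl⟩), rfl⟩, fun p hp q hq => ?_, fun p hp => ?_, a,
    Finset.mem_image.2 ⟨(b, a), h4, rfl⟩⟩
  · obtain ⟨p, hp', rfl⟩ := Finset.mem_image.1 hp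
    obtain ⟨q, hq', rfl⟩ := Finset.mem_image.1 hq
    exact (h2 p hp' q hq').symm
  · obtain ⟨p, hp', rfl⟩ := Finset.mem_image.1 hp
    simp [h3 p hp']

theorem colour_lift (σ : Equiv.Perm ℕ) : ∃ τ : Equiv.Perm ℕ, (∀ a, π (τ a) = σ (π a)) ∧
    ∀ a b, val (τ a) ≤ val (τ b) ↔ val a ≤ val b := by
  have step : ∀ (f : {f : Finset (ℕ × ℕ) // Pio val f ∧ ∀ p ∈ f, π p.2 = σ (π p.1)}) (n : ℕ),
      ∃ g : {f : Finset (ℕ × ℕ) // Pio val f ∧ ∀ p ∈ f, π p.2 = σ (π p.1)},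
        f.1 ⊆ g.1 ∧ (∃ b, (n, b) ∈ g.1) ∧ ∃ a, (a, n) ∈ g.1 := fun f n => by
    obtain ⟨g, h1, h2, h3, b, h4⟩ := pio_forth hv hd σ f.2.1 f.2.2 n
    obtain ⟨g', k1, k2, k3, k4⟩ := pio_back hv hd σ h2 h3 n
    exact ⟨⟨g', k2, k3⟩, h1.trans k1, ⟨b, k1 h4⟩, k4⟩
  choose st h1 h2 h3 using step
  obtain ⟨F, hF⟩ : ∃ F : ℕ → {f : Finset (ℕ × ℕ) // Pio val f ∧ ∀ p ∈ f, π p.2 = σ (π p.1)},
      ∀ n, F (n + 1) = st (F n) n := ⟨fun n =>
    Nat.rec ⟨∅, fun p hp => absurd hp (Finset.notMem_empty p),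
      fun p hp => absurd hp (Finset.notMem_empty p)⟩ (fun n f => st f n) n, fun _ => rfl⟩
  have mono : Monotone fun n => (F n).1 := monotone_nat_of_le_succ fun n => by
    rw [hF]
    exact h1 (F n) n
  have ord : ∀ {n m p q}, p ∈ (F n).1 → q ∈ (F m).1 →
      (val p.1 < val q.1 ↔ val p.2 < val q.2) := fun {n m p q} hp hq =>
    (F (max n m)).2.1 p (mono (le_max_left n m) hp) q (mono (le_max_right n m) hq)
  choose s hs using fun n => h2 (F n) n
  choose s' hs' using fun n => h3 (F n) n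
  have hs1 : ∀ n, (n, s n) ∈ (F (n + 1)).1 := fun n => by rw [hF]; exact hs n
  have hs2 : ∀ n, (s' n, n) ∈ (F (n + 1)).1 := fun n => by rw [hF]; exact hs' n
  refine ⟨⟨s, s', fun a => hv ?_, fun b => hv ?_⟩, fun a => (F (a + 1)).2.2 _ (hs1 a),
    fun a b => ?_⟩
  · have o1 := ord (hs1 a) (hs2 (s a))
    have o2 := ord (hs2 (s a)) (hs1 a)
    simp only [lt_self_iff_false, iff_false, not_lt] at o1 o2
    exact le_antisymm o1 o2
  · have o1 := ord (hs2 b) (hs1 (s' b))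
    have o2 := ord (hs1 (s' b)) (hs2 b)
    simp only [lt_self_iff_false, false_iff, not_lt] at o1 o2
    exact le_antisymm o1 o2
  · rw [← not_lt, ← not_lt]
    exact not_congr (ord (hs1 b) (hs1 a)).symm

end Lift

/-- The structures in which, for `n` outside `P`, the relation of the `n`-th prime arity is not
constant on the cyclic shifts of an injective tuple. -/
def clsCy (P : Set ℕ) : Cls LL where
  carrier := {M | ∀ n, n ∉ P → ∀ a : Fin (pm n + 1) → ℕ, Injective a →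
    ∃ s, ¬ (rel M (Rel.F (pm n) 0) (fun i => a (i + s)) ↔ rel M (Rel.F (pm n) 0) a)}
  borel := by
    refine measurableSet_setOfPred.2 (.forall fun n => measurable_const.imp (.forall fun a =>
      measurable_const.imp (.exists fun s => Measurable.not ?_)))
    exact (measurable_rel (L := LL) _ _).iff (measurable_rel (L := LL) _ _)
  invariant := by
    intro M N h hM n hn a ha
    obtain ⟨σ, hσ⟩ := iso_LL.1 h
    obtain ⟨s, hs⟩ := hM n hn (σ.symm ∘ a) (σ.symm.injective.comp ha)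
    refine ⟨s, fun h' => hs ?_⟩
    rw [← hσ, ← hσ]
    simpa [comp_def] using h'

theorem reduces_of_subset {P Q : Set ℕ} (h : P ⊆ Q) : GroupoidReduces (clsCy P) (clsCy Q) := by
  let _ := permBorel
  refine ⟨fun a => (a.1, ⟨a.2.1, fun n hn => a.2.2 n fun hp => hn (h hp)⟩), ?_,
    ⟨fun _ => rfl, fun _ _ _ => ⟨rfl, rfl⟩⟩, fun x y ⟨g, hg⟩ =>
      ⟨g, Subtype.ext (congrArg (fun z : (clsCy Q).carrier => z.1) hg)⟩⟩
  exact Measurable.prodMk measurable_fst
    ((measurable_subtype_coe.comp measurable_snd).subtype_mk)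

section Star

variable {L : FirstOrder.Language.{0, 0}} (val : ℕ → ℝ) (π : ℕ → ℕ)
  (eR : (Σ n, L.Relations n) → ℕ) (eF : (Σ n, L.Functions n) → ℕ)

/-- The pull-back of a structure along the colouring of a dense order. -/
def cyRel (M : ModL L) : ∀ n, Rel n → (Fin n → ℕ) → Prop
  | _, .T k, x => starRel (fun _ _ => []) π eR (fun f => eF f + 1) M _ (.T k) x
  | _, .E, x => starRel (fun _ _ => []) π eR (fun f => eF f + 1) M _ .E x
  | _, .R n k, x => starRel (fun _ _ => []) π eR (fun f => eF f + 1) M _ (.R n k) x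
  | _, .F _ 0, x => ∀ i, val (x i) ≤ val (x 0)
  | _, .F n (k + 1), x => starRel (fun _ _ => []) π eR (fun f => eF f + 1) M _ (.F n (k + 1)) x

theorem measurable_cy [Countable L.Symbols] :
    Measurable fun M : ModL L => mkLL (cyRel val π eR eF M) := by
  have h := fun n (r : Rel n) x => (measurable_rel (L := LL) r x).comp
    (measurable_star (fun _ _ => []) π eR (fun f => eF f + 1))
  refine measurable_mkLL fun n r x => ?_
  rcases r with k | _ | ⟨n, k⟩ | ⟨n, _ | k⟩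
  · exact h _ (.T k) x
  · exact h _ .E x
  · exact h _ (.R n k) x
  · exact measurable_const
  · exact h _ (.F n (k + 1)) x

theorem cy_mem (hv : Injective val) (P : Set ℕ) (M : ModL L) :
    mkLL (cyRel val π eR eF M) ∈ (clsCy P).carrier := fun n _ a ha =>
  nonconst_max (fun i => val (a i)) ⟨⟨1, by have := lt_pm n; omega⟩, fun e => by
    simpa using congrArg Fin.val (ha (hv e))⟩

theorem cy_iso (hlift : ∀ σ : Equiv.Perm ℕ, ∃ τ : Equiv.Perm ℕ, (∀ a, π (τ a) = σ (π a)) ∧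
      ∀ a b, val (τ a) ≤ val (τ b) ↔ val a ≤ val b) {M N : ModL L} (h : Iso M N) :
    Iso (mkLL (cyRel val π eR eF M)) (mkLL (cyRel val π eR eF N)) := by
  obtain ⟨σ, h1, h2⟩ := iso_iff.1 h
  obtain ⟨τ, g1, g2⟩ := hlift σ
  refine iso_LL.2 ⟨τ, fun n r x => ?_⟩
  rcases r with k | _ | ⟨n, k⟩ | ⟨n, _ | k⟩
  · exact Iff.rfl.trans (iff_of_false (fun h => by cases h) fun h => by cases h)
  · change π (τ (x 0)) = π (τ (x 1)) ↔ π (x 0) = π (x 1)
    rw [g1, g1, σ.injective.eq_iff]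
  · change (∃ r : L.Relations n, eR ⟨n, r⟩ = k ∧ rel N r (π ∘ τ ∘ x)) ↔
      ∃ r : L.Relations n, eR ⟨n, r⟩ = k ∧ rel M r (π ∘ x)
    have : π ∘ τ ∘ x = σ ∘ π ∘ x := funext fun i => g1 _
    simp only [this, h2]
  · exact forall_congr' fun i => g2 _ _
  · change (∃ f : L.Functions n, eF ⟨n, f⟩ + 1 = k + 1 ∧
        fn N f (fun i => π (τ (x i.succ))) = π (τ (x 0))) ↔
      ∃ f : L.Functions n, eF ⟨n, f⟩ + 1 = k + 1 ∧ fn M f (fun i => π (x i.succ)) = π (x 0)
    have : (fun i : Fin n => π (τ (x i.succ))) = σ ∘ fun i : Fin n => π (x i.succ) :=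
      funext fun i => g1 _
    rw [this, g1]
    simp only [h1, σ.injective.eq_iff]

theorem iso_of_cy (hπ : Surjective π) (hR : Injective eR) (hF : Injective eF) {M N : ModL L}
    (h : Iso (mkLL (cyRel val π eR eF M)) (mkLL (cyRel val π eR eF N))) : Iso M N := by
  obtain ⟨τ, hτ⟩ := iso_LL.1 h
  refine iso_of_star (fun _ _ => []) π eR (fun f => eF f + 1) hπ hR
    (fun _ _ e => hF (Nat.succ_injective e)) (iso_LL.2 ⟨τ, fun n r x => ?_⟩)
  rcases r with k | _ | ⟨n, k⟩ | ⟨n, _ | k⟩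
  · exact hτ _ (.T k) x
  · exact hτ _ .E x
  · exact hτ _ (.R n k) x
  · exact iff_of_false (fun ⟨_, h, _⟩ => by cases h) fun ⟨_, h, _⟩ => by cases h
  · exact hτ _ (.F n (k + 1)) x

end Star

theorem complete_cy (P : Set ℕ) : BorelComplete (clsCy P) := by
  intro L hL C
  obtain ⟨val, π, h1, h2⟩ := exists_colour
  have : Countable (Σ n, L.Relations n) :=
    (Sum.inr_injective (α := Σ n, L.Functions n)).countable
  obtain ⟨eR, hR⟩ := exists_injective_nat (Σ n, L.Relations n)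
  obtain ⟨eF, hF⟩ := exists_injective_nat (Σ n, L.Functions n)
  have hπ : Surjective π := fun c => (h2 c 0 1 one_pos).imp fun _ h => h.1
  exact ⟨fun x => ⟨mkLL (cyRel val π eR eF x.1), cy_mem val π eR eF h1 P _⟩,
    ((measurable_cy val π eR eF).comp measurable_subtype_coe).subtype_mk,
    fun x y => ⟨cy_iso val π eR eF (colour_lift h1 h2), iso_of_cy val π eR eF hπ hR hF⟩⟩

end Pool.Agent.P.MP_8b3519_lc
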