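import Pool.Agent.P.MP_8b3519_lc.CyRule

/-!
A cocycle which acts on structures without cyclically symmetric tuples of the excluded prime length
is generically trivial along the permutations of the rows.
-/

namespace Pool.Agent.P.MP_8b3519_lc

open Filter Topology Set Function

variable {n₀ : ℕ} {c : GG × CX n₀ → Equiv.Perm ℕ}

theorem step_one3 (hc : IsCoc c) (k : ℕ) {U : Set (CX n₀)} (hU : IsOpen U) (hne : U.Nonempty) :
    ∃ z₀ N, CB z₀ N ⊆ U ∧ ∀ (γ : GG) (z : CX n₀), (∀ i < N, γ.r i = i) → (∀ i < N, γ.s i = i) →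
      z ∈ CB z₀ N → Ar c k k (γ, z) := by
  obtain ⟨z₀, hz, h1⟩ := hc.exists_one k hU hne
  obtain ⟨N, hN⟩ := exists_box_one3 (isOpen_Ar c k k) h1
  obtain ⟨M, hM, hMU⟩ := exists_CB hU hz N
  exact ⟨z₀, M, hMU, fun g z hg hg' hz => hN g z (fun i hi => hg i (hi.trans_le hM))
    (fun i hi => hg' i (hi.trans_le hM)) (CB_mono hM hz)⟩

theorem slice_residual (hc : IsCoc c) (γ : GG) (k : ℕ) :
    ∀ᶠ y in residual (CX n₀), ∃ a, Ar c a k (γ, y) := by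
  refine residual_of_dense' fun U hU ⟨x, hx⟩ => ?_
  obtain ⟨w, hw, a, ha⟩ := hc.slice γ⁻¹ k (isOpen_smul_mem3 γ⁻¹ hU) ⟨γ • x, by simpa using hx⟩
  have := hc.inv ha
  rw [inv_inv] at this
  exact ⟨U ∩ {z | (γ, z) ∈ {b | Ar c a k b}}, hU.inter (isOpen_slice3 γ (isOpen_Ar c a k)),
    ⟨_, hw, this⟩, inter_subset_left, fun y hy => ⟨a, hy.2⟩⟩

/-- The element `a` over `y` is a copy, along `d`, of the element `k` over the box. -/
def Copy3 (c : GG × CX n₀ → Equiv.Perm ℕ) (k N : ℕ) (z₀ : CX n₀) (d : GG) (a : ℕ) (y : CX n₀) :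
    Prop :=
  (∀ i < N, d.s i = i) ∧ d • y ∈ CB z₀ N ∧ Ar c a k (d, y)

theorem isOpen_copy3 (c : GG × CX n₀ → Equiv.Perm ℕ) (k N : ℕ) (z₀ : CX n₀) (d : GG) (a : ℕ) :
    IsOpen {y | Copy3 c k N z₀ d a y} :=
  isOpen_const.and
    ((isOpen_smul_mem3 d (isOpen_CB z₀ N)).inter (isOpen_slice3 d (isOpen_Ar c a k)))

theorem Copy3.row {k N : ℕ} {z₀ y : CX n₀} {d : GG} {a : ℕ} (h : Copy3 c k N z₀ d a y) {i n : ℕ}
    (hi : i < N) (hn : n < N) : y.A (d.r⁻¹ i) n = z₀.A i n := by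
  have := h.2.1.1 i hi n hn
  rwa [csmul_A, Equiv.Perm.inv_eq_iff_eq.2 (h.1 n hn).symm] at this

theorem transport3 (hc : IsCoc c) {k N : ℕ} {z₀ : CX n₀}
    (H1 : ∀ (γ : GG) (z : CX n₀), (∀ i < N, γ.r i = i) → (∀ i < N, γ.s i = i) →
      z ∈ CB z₀ N → Ar c k k (γ, z)) {y₁ : CX n₀} {O : Set (CX n₀)} (hO : IsOpen O) (hy : y₁ ∈ O)
    {ι : Type} [Fintype ι] {d d' : ι → GG} {a a' : ι → ℕ}
    (h : ∀ j, Copy3 c k N z₀ (d j) (a j) y₁) (h' : ∀ j, Copy3 c k N z₀ (d' j) (a' j) y₁)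
    (hd : ∀ j j', ∀ i < N, ∀ i' < N, (d j).r⁻¹ i = (d j').r⁻¹ i' → j = j')
    (hd' : ∀ j j', ∀ i < N, ∀ i' < N, (d' j).r⁻¹ i = (d' j').r⁻¹ i' → j = j')
    (hr : ∀ (n : ℕ) (w : Fin (pm n + 1) → ι × ℕ), (∀ i, (w i).2 < N) →
      (y₁.r n fun i => (d (w i).1).r⁻¹ (w i).2) = y₁.r n fun i => (d' (w i).1).r⁻¹ (w i).2) :
    ∃ (τ : GG) (y₂ : CX n₀), y₂ ∈ O ∧ τ • y₂ ∈ O ∧ ∀ j, Ar c (a j) (a' j) (τ, y₂) := by
  classical
  have hO' : IsOpen ((O ∩ ⋂ j, {y | Copy3 c k N z₀ (d j) (a j) y}) ∩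
      ⋂ j, {y | Copy3 c k N z₀ (d' j) (a' j) y}) :=
    (hO.inter (isOpen_iInter_of_finite fun j => isOpen_copy3 _ _ _ _ _ _)).inter
      (isOpen_iInter_of_finite fun j => isOpen_copy3 _ _ _ _ _ _)
  choose B hB using fun j => exists_bound (fun i => (d j).r⁻¹ i) N
  choose B' hB' using fun j => exists_bound (fun i => (d' j).r⁻¹ i) N
  obtain ⟨M, hM, hMO⟩ := exists_CB hO' ⟨⟨hy, mem_iInter.2 h⟩, mem_iInter.2 h'⟩
    (Finset.univ.sup B + Finset.univ.sup B' + N)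
  have b1 : ∀ j, ∀ i < N, (d j).r⁻¹ i < M := fun j i hi => by
    have h1 := hB j i hi
    have h2 : B j ≤ Finset.univ.sup B := Finset.le_sup (Finset.mem_univ j)
    omega
  have b2 : ∀ j, ∀ i < N, (d' j).r⁻¹ i < M := fun j i hi => by
    have h1 := hB' j i hi
    have h2 : B' j ≤ Finset.univ.sup B' := Finset.le_sup (Finset.mem_univ j)
    omega
  have hφ : ∀ p, ∃ q, (∃ j, ∃ i < N, p = (d' j).r⁻¹ i ∧ q = (d j).r⁻¹ i) ∨
      ((¬ ∃ j, ∃ i < N, p = (d' j).r⁻¹ i) ∧ q = M + p) := fun p => by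
    by_cases e : ∃ j, ∃ i < N, p = (d' j).r⁻¹ i
    · obtain ⟨j, i, hi, e⟩ := e
      exact ⟨_, Or.inl ⟨j, i, hi, e, rfl⟩⟩
    · exact ⟨_, Or.inr ⟨e, rfl⟩⟩
  choose φ hφ using hφ
  obtain ⟨s, hs⟩ := exists_inv_eq M φ (by
    intro p _ p' _ e
    obtain ⟨j, i, hi, e1, e2⟩ | ⟨-, e2⟩ := hφ p
    · obtain ⟨j', i', hi', e1', e2'⟩ | ⟨-, e2'⟩ := hφ p'
      · have e3 : (d j).r⁻¹ i = (d j').r⁻¹ i' := by rw [← e2, ← e2', e]
        obtain rfl := hd j j' i hi i' hi' e3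
        rw [e1, e1', (d j).r⁻¹.injective e3]
      · have := b1 j i hi
        omega
    · obtain ⟨j', i', hi', e1', e2'⟩ | ⟨-, e2'⟩ := hφ p'
      · have := b1 j' i' hi'
        omega
      · omega)
  have hs1 : ∀ j, ∀ i < N, s.p ((d j).r⁻¹ i) = (d' j).r⁻¹ i := fun j i hi => by
    have e := hs _ (b2 j i hi)
    obtain ⟨j', i', hi', e1, e2⟩ | ⟨e1, -⟩ := hφ ((d' j).r⁻¹ i)
    · obtain rfl := hd' j j' i hi i' hi' e1
      obtain rfl := (d' j).r⁻¹.injective e1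
      rw [e2] at e
      exact (Equiv.Perm.inv_eq_iff_eq.1 e).symm
    · exact absurd ⟨j, i, hi, rfl⟩ e1
  have hs2 : ∀ p < M, s.p⁻¹ p < M → ∃ w : ι × ℕ, w.2 < N ∧ p = (d' w.1).r⁻¹ w.2 ∧
      s.p⁻¹ p = (d w.1).r⁻¹ w.2 := fun p hp hlt => by
    rw [hs p hp] at hlt ⊢
    obtain ⟨j, i', hi', e1, e2⟩ | ⟨-, e2⟩ := hφ p
    · exact ⟨(j, i'), hi', e1, e2⟩
    · omega
  obtain ⟨t, ht⟩ := exists_inv_eq M (fun n => if n < N then n else M + n) (by
    intro i hi j hj e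
    split_ifs at e <;> omega)
  have ht1 : ∀ n < N, t.p⁻¹ n = n := fun n hn => by
    have := ht n (by omega)
    simpa only [hn, if_true] using this
  have ht2 : ∀ n < N, t.p n = n := fun n hn => (Equiv.Perm.inv_eq_iff_eq.1 (ht1 n hn)).symm
  have ht3 : ∀ n < M, t.p⁻¹ n < M → n < N := fun n hn hlt => by
    rw [ht n hn] at hlt
    split_ifs at hlt with h
    · exact h
    · omega
  let τ : GG := GG.mk s t
  let y₂ : CX n₀ := patch M y₁ (τ⁻¹ • y₁)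
  have m1 : y₂ ∈ CB y₁ M := patch_mem _ _ _
  have m2 : τ • y₂ ∈ CB y₁ M := by
    refine ⟨fun i hi n hn => ?_, fun n _ v hv => ?_, fun n hn j _ => ?_⟩
    · rw [csmul_A]
      simp only [y₂, τ, patch, CX.A_mk, GG.r_mk, GG.s_mk]
      split_ifs with hlt
      · obtain ⟨w, hw, e1, e2⟩ := hs2 i hi hlt.1
        have hN := ht3 n hn hlt.2
        rw [e2, ht1 n hN, (h w.1).row hw hN, e1, (h' w.1).row hw hN]
      · rw [csmul_A]
        simp
    · rw [csmul_r]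
      simp only [y₂, τ, patch, CX.r_mk, GG.r_mk]
      split_ifs with hlt
      · choose w hw e1 e2 using fun i => hs2 (v i) (hv i) (hlt i)
        simp only [e2]
        rw [hr n w hw]
        exact congrArg _ (funext fun i => (e1 i).symm)
      · rw [csmul_r]
        simp
    · rw [csmul_b]
      simp only [y₂, τ, patch, CX.b_mk, GG.s_mk]
      split_ifs with hlt
      · rw [ht1 n (ht3 n hn hlt)]
      · rw [csmul_b]
        simp
  obtain ⟨⟨p1, p2⟩, -⟩ := hMO m1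
  obtain ⟨⟨q1, -⟩, q3⟩ := hMO m2
  refine ⟨τ, y₂, p1, q1, fun j => ?_⟩
  obtain ⟨c1, c2, c3⟩ : Copy3 c k N z₀ (d j) (a j) y₂ := mem_iInter.1 p2 j
  obtain ⟨e1, e2, e3⟩ : Copy3 c k N z₀ (d' j) (a' j) (τ • y₂) := mem_iInter.1 q3 j
  have a1 : Ar c k k (d' j * τ * (d j)⁻¹, d j • y₂) := by
    refine H1 _ _ (fun i hi => ?_) (fun i hi => ?_) c2
    · simp only [τ, GG.r_mul, GG.r_inv, GG.r_mk, Equiv.Perm.mul_apply, hs1 j i hi]
      simp
    · simp only [τ, GG.s_mul, GG.s_inv, GG.s_mk, Equiv.Perm.mul_apply,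
        Equiv.Perm.inv_eq_iff_eq.2 (c1 i hi).symm, ht2 i hi, e1 i hi]
  have a2 := hc.comp c3 a1
  have a3 : Ar c k (a' j) ((d' j)⁻¹, (d' j * τ * (d j)⁻¹ * d j) • y₂) := by
    rw [inv_mul_cancel_right, mul_smul]
    exact hc.inv e3
  have a4 := hc.comp a2 a3
  rwa [inv_mul_cancel_right, inv_mul_cancel_left] at a4

section Cases

variable (hc : IsCoc c) {T : (Fin (pm n₀ + 1) → ℕ) → CX n₀ → Prop} (hT : IsFact c T)
  (hno : ∀ (x : CX n₀) (a : Fin (pm n₀ + 1) → ℕ), Injective a →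
    ∃ s, ¬ (T (fun i => a (i + s)) x ↔ T a x))
  {k N : ℕ} {z₀ : CX n₀}
  (H1 : ∀ (γ : GG) (z : CX n₀), (∀ i < N, γ.r i = i) → (∀ i < N, γ.s i = i) →
      z ∈ CB z₀ N → Ar c k k (γ, z))

include hc hT hno H1

theorem sym_case {y₁ : CX n₀} {d : Fin (pm n₀ + 1) → GG} {a : Fin (pm n₀ + 1) → ℕ}
    (h : ∀ j, Copy3 c k N z₀ (d j) (a j) y₁)
    (hd : ∀ j j', ∀ i < N, ∀ i' < N, (d j).r⁻¹ i = (d j').r⁻¹ i' → j = j')
    (hr : ∀ (n : ℕ) (w : Fin (pm n + 1) → Fin (pm n₀ + 1) × ℕ), (∀ i, (w i).2 < N) →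
      (y₁.r n fun i => (d (w i).1).r⁻¹ (w i).2) = rule z₀ n w)
    (g3 : ∀ v, (T v y₁ → Forces y₁ (T v)) ∧ (¬ T v y₁ → Forces y₁ (fun y => ¬ T v y)))
    (j : Fin (pm n₀ + 1)) : a j = a 0 := by
  have tr : ∀ (s : Fin (pm n₀ + 1)) {O : Set (CX n₀)}, IsOpen O → y₁ ∈ O →
      ∃ (τ : GG) (y₂ : CX n₀), y₂ ∈ O ∧ τ • y₂ ∈ O ∧ ∀ j, Ar c (a j) (a (j + s)) (τ, y₂) :=
    fun s O hO hy => transport3 hc H1 hO hy (d' := fun j => d (j + s)) (a' := fun j => a (j + s))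
      h (fun j => h _) hd (fun j j' i hi i' hi' e => add_right_cancel (hd _ _ i hi i' hi' e))
      fun n w hw => by
        rw [hr n w hw, ← rule_shift z₀ n s w]
        exact (hr n (fun i => ((w i).1 + s, (w i).2)) hw).symm
  have ni : ¬ Injective a := fun hi => by
    obtain ⟨s, hs⟩ := hno y₁ a hi
    refine hs ⟨fun h1 => by_contra fun h2 => ?_, fun h1 => by_contra fun h2 => ?_⟩
    · obtain ⟨τ, y₂, o1, o2, hτ⟩ := tr s ((isOpen_forces (fun y => ¬ T a y)).inter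
        (isOpen_forces (T fun i => a (i + s)))) ⟨(g3 _).2 h2, (g3 _).1 h1⟩
      exact Forces.not_forces_not o2.2 (hT.not.transfer hτ o1.1)
    · obtain ⟨τ, y₂, o1, o2, hτ⟩ := tr s ((isOpen_forces (T a)).inter
        (isOpen_forces (fun y => ¬ T (fun i => a (i + s)) y))) ⟨(g3 _).1 h1, (g3 _).2 h2⟩
      exact (hT.transfer hτ o1.1).not_forces_not o2.2
  obtain ⟨j₁, j₂, e, hne⟩ := not_injective_iff.1 ni
  refine const_of_period (pm_prime n₀) a (δ := j₂ - j₁) (sub_ne_zero.2 hne.symm) (fun i => ?_) j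
  obtain ⟨τ, y₂, -, -, hτ⟩ := tr (i - j₁) isOpen_univ (mem_univ _)
  have t1 := hτ j₁
  have t2 := hτ j₂
  rw [← e] at t2
  have e1 : j₁ + (i - j₁) = i := by abel
  have e2 : j₂ + (i - j₁) = i + (j₂ - j₁) := by abel
  rw [e1] at t1
  rw [e2] at t2
  exact t2.unique t1

theorem disjoint_case3 {γ : GG} {x : CX n₀} {l : ℕ} (hx : x ∈ CB z₀ N) (hy : γ • x ∈ CB z₀ N)
    (hs : ∀ i < N, γ.s i = i) (hr : ∀ i < N, N ≤ γ.r i) (ha : Ar c k l (γ, x)) : l = k := by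
  classical
  have hW : IsOpen ({y | Copy3 c k N z₀ 1 k y} ∩ {y | Copy3 c k N z₀ γ⁻¹ l y}) :=
    (isOpen_copy3 _ _ _ _ _ _).inter (isOpen_copy3 _ _ _ _ _ _)
  have hyW : γ • x ∈ {y | Copy3 c k N z₀ 1 k y} ∩ {y | Copy3 c k N z₀ γ⁻¹ l y} :=
    ⟨⟨fun _ _ => rfl, by rwa [one_smul], H1 _ _ (fun _ _ => rfl) (fun _ _ => rfl) hy⟩,
      fun i hi => Equiv.Perm.inv_eq_iff_eq.2 (hs i hi).symm, by rwa [inv_smul_smul], hc.inv ha⟩
  obtain ⟨P₀, hP₀⟩ := exists_bound (fun i => γ.r i) N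
  obtain ⟨P, hP, hPW⟩ := exists_CB hW hyW (P₀ + N)
  generalize hyy : γ • x = y at hy hyW hPW
  have hx' : γ⁻¹ • y ∈ CB z₀ N := hyW.2.2.1
  choose u hu using fun j : Fin (pm n₀ + 1) => exists_inv_eq N (fun i => P + Nat.pair j i)
    (fun i _ i' _ e => (Nat.pair_eq_pair.1 (Nat.add_left_cancel e)).2)
  let D : GG → Fin (pm n₀ + 1) → GG := fun g j => if j = 0 then g else GG.mk (u j) 1
  let e : GG → Fin (pm n₀ + 1) × ℕ → ℕ := fun g w => (D g w.1).r⁻¹ w.2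
  have e0 : ∀ g i, e g (0, i) = g.r⁻¹ i := fun g i => by simp [e, D]
  have e1 : ∀ g (w : Fin (pm n₀ + 1) × ℕ), w.1 ≠ 0 → w.2 < N → e g w = P + Nat.pair w.1 w.2 :=
    fun g w h1 h2 => by simp only [e, D, h1, if_false, GG.r_mk, hu _ _ h2]
  have einj : ∀ g : GG, (∀ i < N, g.r⁻¹ i < P) →
      ∀ w w' : Fin (pm n₀ + 1) × ℕ, w.2 < N → w'.2 < N → e g w = e g w' → w = w' := by
    rintro g hg ⟨j, i⟩ ⟨j', i'⟩ hi hi' h
    by_cases h1 : j = 0 <;> by_cases h2 : j' = 0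
    · subst h1 h2
      rw [e0, e0] at h
      rw [g.r⁻¹.injective h]
    · subst h1
      rw [e0, e1 g _ h2 hi'] at h
      have := hg i hi
      omega
    · subst h2
      rw [e0, e1 g _ h1 hi] at h
      have := hg i' hi'
      omega
    · rw [e1 g _ h1 hi, e1 g _ h2 hi'] at h
      obtain ⟨h3, h4⟩ := Nat.pair_eq_pair.1 (Nat.add_left_cancel h)
      exact Prod.ext (Fin.ext h3) h4
  have l1 : ∀ i < N, (1 : GG).r⁻¹ i < P := fun i hi => by
    simp only [GG.r_one, inv_one, Equiv.Perm.one_apply]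
    omega
  have l2 : ∀ i < N, (γ⁻¹).r⁻¹ i < P := fun i hi => by
    have := hP₀ i hi
    simp only [GG.r_inv, inv_inv]
    omega
  obtain ⟨κ₁, k1, k1'⟩ := exists_kappa 0 N (e 1) (einj 1 l1)
  obtain ⟨κ₂, k2, k2'⟩ := exists_kappa 0 N (e γ⁻¹) (einj γ⁻¹ l2)
  let S : GG → ℕ → Prop := fun g t => ∃ w : Fin (pm n₀ + 1) × ℕ, w.2 < N ∧ t = e g w
  let ys : CX n₀ := CX.mk (fun t n => if t < P then y.A t n else z₀.A (κ₁ t).2 n) _
    ((rule_ok z₀ k1).patch ((rule_ok z₀ k2).patch y.ok (S γ⁻¹)) (S 1)) y.b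
  have r1 : ∀ (n : ℕ) (w : Fin (pm n + 1) → Fin (pm n₀ + 1) × ℕ), (∀ i, (w i).2 < N) →
      (ys.r n fun i => e 1 (w i)) = rule z₀ n w := fun n w hw => by
    have : ∀ i, S 1 (e 1 (w i)) := fun i => ⟨w i, hw i, rfl⟩
    simp only [ys, CX.r_mk, this, implies_true, if_true, k1' _ (hw _)]
  have r2 : ∀ (n : ℕ) (w : Fin (pm n + 1) → Fin (pm n₀ + 1) × ℕ), (∀ i, (w i).2 < N) →
      (ys.r n fun i => e γ⁻¹ (w i)) = rule z₀ n w := fun n w hw => by
    have : ∀ i, S γ⁻¹ (e γ⁻¹ (w i)) := fun i => ⟨w i, hw i, rfl⟩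
    simp only [ys, CX.r_mk, this, implies_true, if_true, k2' _ (hw _)]
    split_ifs with h
    · refine congrArg _ (funext fun i => ?_)
      by_cases h0 : (w i).1 = 0
      · exfalso
        obtain ⟨w', hw', h1⟩ := h i
        have h2 : e γ⁻¹ (w i) = γ.r (w i).2 := by
          simp only [e, D, h0, if_true]
          rfl
        have h3 := hr _ (hw i)
        have h4 := hP₀ _ (hw i)
        by_cases h5 : w'.1 = 0
        · have h6 : e 1 w' = w'.2 := by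
            simp only [e, D, h5, if_true]
            rfl
          omega
        · rw [e1 1 w' h5 hw'] at h1
          omega
      · rw [e1 _ _ h0 (hw i), ← e1 1 _ h0 (hw i), k1' _ (hw i)]
    · rfl
  have low : ∀ (g : GG) (n : ℕ) (v : Fin (pm n + 1) → ℕ), (∀ i, v i < P) → (∀ i, S g (v i)) →
      g • y ∈ CB z₀ N → ∃ w : Fin (pm n + 1) → Fin (pm n₀ + 1) × ℕ, (∀ i, (w i).2 < N) ∧
        (v = fun i => e g (w i)) ∧ rule z₀ n w = y.r n v := by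
    intro g n v hv hS hg
    choose w hw h1 using hS
    have h0 : ∀ i, (w i).1 = 0 := fun i => by
      by_contra h0
      have := hv i
      rw [h1 i, e1 g _ h0 (hw i)] at this
      omega
    have h2 : w = fun i => (0, (w i).2) := funext fun i => Prod.ext (h0 i) rfl
    refine ⟨w, hw, funext h1, ?_⟩
    rw [h2, rule_block, ← CB.r_eq hg n _ hw, csmul_r]
    refine congrArg _ (funext fun i => ?_)
    rw [h1 i, ← e0, ← h0 i]
  have m1 : ys ∈ CB y P := by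
    refine ⟨fun i hi n _ => by simp [ys, hi], fun n _ v hv => ?_, self_mem_Bx _ _⟩
    by_cases h1 : ∀ i, S 1 (v i)
    · obtain ⟨w, hw, h2, h3⟩ := low 1 n v hv h1 (by rwa [one_smul])
      rw [← h3, h2, r1 n w hw]
    · by_cases h1' : ∀ i, S γ⁻¹ (v i)
      · obtain ⟨w, hw, h2, h3⟩ := low γ⁻¹ n v hv h1' hx'
        rw [← h3, h2, r2 n w hw]
      · simp only [ys, CX.r_mk, h1, h1', if_false]
  have m2 : ∀ j, j ≠ 0 → GG.mk (u j) 1 • ys ∈ CB z₀ N := fun j hj => by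
    refine ⟨fun i hi n _ => ?_, fun n _ v hv => ?_, hy.2.2⟩
    · rw [csmul_A]
      have h1 := k1' (j, i) hi
      rw [e1 1 _ hj hi] at h1
      simp only [ys, CX.A_mk, GG.r_mk, hu j i hi, show ¬ (P + Nat.pair j i < P) by omega, if_false]
      rw [h1]
      rfl
    · rw [csmul_r, ← rule_block z₀ n j v, ← r1 n _ hv]
      simp only [e, D, hj, if_false]
  choose B hB using fun j : Fin (pm n₀ + 1) => exists_bound (fun i => P + Nat.pair j i) N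
  have hU : IsOpen ((({y | Copy3 c k N z₀ 1 k y} ∩ {y | Copy3 c k N z₀ γ⁻¹ l y}) ∩
      CB ys (Finset.univ.sup B + P)) ∩ ⋂ j, ⋂ _ : j ≠ 0, {y | GG.mk (u j) 1 • y ∈ CB z₀ N}) :=
    (hW.inter (isOpen_CB _ _)).inter (isOpen_iInter_of_finite fun j =>
      isOpen_iInter_of_finite fun _ => isOpen_smul_mem3 _ (isOpen_CB _ _))
  have G3 : ∀ᶠ x in residual (CX n₀), ∀ v, (T v x → Forces x (T v)) ∧
      (¬ T v x → Forces x (fun y => ¬ T v y)) :=
    eventually_countable_forall.2 fun v => (generic (hT.bm v)).and (generic (hT.not.bm v))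
  obtain ⟨y₁, ⟨⟨⟨w1, w2⟩, w3⟩, w4⟩, g1, g3⟩ := exists_of_residual hU
    ⟨ys, ⟨hPW m1, self_mem_CB _ _⟩, mem_iInter.2 fun j => mem_iInter.2 fun hj => m2 j hj⟩
    ((eventually_countable_forall.2 fun j => slice_residual hc (GG.mk (u j) 1) k).and G3)
  choose a ha' using g1
  have fam : ∀ (g : GG) (b : ℕ), Copy3 c k N z₀ g b y₁ → (∀ i < N, g.r⁻¹ i < P) →
      (∀ (n : ℕ) (w : Fin (pm n + 1) → Fin (pm n₀ + 1) × ℕ), (∀ i, (w i).2 < N) →
        (ys.r n fun i => e g (w i)) = rule z₀ n w) → ∀ j, j ≠ 0 → a j = b := by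
    intro g b hb hg hrule j hj
    have := sym_case hc hT hno H1 (y₁ := y₁) (d := D g) (a := fun j => if j = 0 then b else a j)
      (fun j => by
        by_cases h : j = 0
        · simpa only [D, h, if_true] using hb
        · simp only [D, h, if_false]
          exact ⟨fun _ _ => rfl, mem_iInter.1 (mem_iInter.1 w4 j) h, ha' j⟩)
      (fun j j' i hi i' hi' h => congrArg Prod.fst (einj g hg (j, i) (j', i') hi hi' h))
      (fun n w hw => by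
        rw [← hrule n w hw]
        refine CB.r_eq w3 n _ fun i => ?_
        by_cases h0 : (w i).1 = 0
        · have := hg _ (hw i)
          simp only [D, h0, if_true]
          omega
        · have h1 := hB (w i).1 _ (hw i)
          have h2 : B (w i).1 ≤ Finset.univ.sup B := Finset.le_sup (Finset.mem_univ _)
          have h3 := e1 g _ h0 (hw i)
          simp only [e] at h3
          omega) g3 j
    simpa only [hj, if_false, if_true] using this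
  have j1 : (⟨1, by have := lt_pm n₀; omega⟩ : Fin (pm n₀ + 1)) ≠ 0 := fun h => by
    simpa using congrArg Fin.val h
  exact (fam γ⁻¹ l w2 l2 r2 _ j1).symm.trans (fam 1 k w1 l1 r1 _ j1)

theorem general_case3 {γ : GG} {x : CX n₀} {l : ℕ} (hx : x ∈ CB z₀ N) (hy : γ • x ∈ CB z₀ N)
    (hs : ∀ i < N, γ.s i = i) (ha : Ar c k l (γ, x)) : l = k := by
  have hW : IsOpen ((CB z₀ N ∩ {y : CX n₀ | γ • y ∈ CB z₀ N}) ∩
      {z | (γ, z) ∈ {b | Ar c k l b}}) :=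
    ((isOpen_CB z₀ N).inter (isOpen_smul_mem3 γ (isOpen_CB z₀ N))).inter
      (isOpen_slice3 γ (isOpen_Ar c k l))
  obtain ⟨P₀, hP₀⟩ := exists_bound (fun i => γ.r⁻¹ i) N
  obtain ⟨P, hP, hPW⟩ := exists_CB hW (z := x) ⟨⟨hx, hy⟩, ha⟩ (P₀ + N)
  obtain ⟨u, y, hu, y1, y2⟩ := fresh x z₀ P N hx.2.2
  obtain ⟨w, ⟨⟨⟨w1, w2⟩, w3⟩, w4⟩, m, hm⟩ := hc.slice (GG.mk u 1) k
    (hW.inter (isOpen_smul_mem3 (GG.mk u 1) (isOpen_CB z₀ N))) ⟨y, hPW y1, y2⟩
  have e1 : m = k := by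
    refine disjoint_case3 hc hT hno H1 w1 w4 (fun i _ => rfl) (fun i hi => ?_) hm
    by_contra hlt
    have := hu _ (not_le.1 hlt)
    simp only [GG.r_mk] at this
    simp at this
    omega
  subst e1
  have b1 := hc.inv hm
  have b2 : Ar c m l (γ, (GG.mk u 1)⁻¹ • GG.mk u 1 • w) := by rw [inv_smul_smul]; exact w3
  refine disjoint_case3 hc hT hno H1 w4 ?_ (fun i hi => ?_) (fun i hi => ?_) (hc.comp b1 b2)
  · rw [mul_smul, inv_smul_smul]
    exact w2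
  · simpa using hs i hi
  · simp only [GG.r_mul, GG.r_inv, GG.r_mk, Equiv.Perm.mul_apply, hu i hi]
    by_contra hlt
    have := hP₀ _ (not_le.1 hlt)
    simp at this
    omega

theorem all_case3 {γ : GG} {x : CX n₀} (hx : x ∈ CB z₀ N) (hy : γ • x ∈ CB z₀ N)
    (hs : ∀ i < N, γ.s i = i) : Ar c k k (γ, x) := by
  have hO : IsOpen (({a : GG × CX n₀ | a.2 ∈ CB z₀ N} ∩ {a : GG × CX n₀ | a.1 • a.2 ∈ CB z₀ N}) ∩
      {a : GG × CX n₀ | ∀ i < N, a.1.s i = i}) :=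
    (((isOpen_CB z₀ N).preimage continuous_snd).inter
      ((isOpen_CB z₀ N).preimage (f := fun a : GG × CX n₀ => a.1 • a.2) (by fun_prop))).inter
      (isOpen_forall_lt N fun i =>
        isOpen_eq_const (SG.cev (GG.c2.comp continuous_fst) i) (fun b => b = i))
  refine forces_of_not_forces_not (hc.bm k k) hO (fun w hw hn => ?_) (z := (γ, x)) ⟨⟨hx, hy⟩, hs⟩
  obtain ⟨⟨δ, u⟩, ⟨⟨⟨h1, h2⟩, h3⟩, h4⟩, l, hl⟩ :=
    hc.dense (hO.inter (isOpen_forces (fun v => ¬ c v k = k))) ⟨w, hw, hn⟩ k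
  obtain rfl := general_case3 hc hT hno H1 h1 h2 h3 hl
  exact Forces.not_forces_not hl h4

end Cases

/-- All arrows from `U` to `U'` which only permute rows generically send `j` to `k`. -/
def AllR3 (c : GG × CX n₀ → Equiv.Perm ℕ) (j k : ℕ) (U U' : Set (CX n₀)) : Prop :=
  ∀ (g : SG) (x : CX n₀), x ∈ U → GG.mk g 1 • x ∈ U' → Ar c j k (GG.mk g 1, x)

/-- The cocycle is locally trivial along the permutations of the rows. -/
def GoodR3 (c : GG × CX n₀ → Equiv.Perm ℕ) : Prop :=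
  ∀ (k : ℕ) (U : Set (CX n₀)), IsOpen U → U.Nonempty →
    ∃ V, IsOpen V ∧ V.Nonempty ∧ V ⊆ U ∧ AllR3 c k k V V

theorem good_dense3 (hc : IsCoc c) {T : (Fin (pm n₀ + 1) → ℕ) → CX n₀ → Prop} (hT : IsFact c T)
    (hno : ∀ (x : CX n₀) (a : Fin (pm n₀ + 1) → ℕ), Injective a →
      ∃ s, ¬ (T (fun i => a (i + s)) x ↔ T a x)) : GoodR3 c := by
  intro k U hU hne
  obtain ⟨z₀, N, h1, H1⟩ := step_one3 hc k hU hne
  exact ⟨CB z₀ N, isOpen_CB _ _, ⟨_, self_mem_CB _ _⟩, h1, fun g x hx hy =>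
    all_case3 hc hT hno H1 hx hy fun _ _ => rfl⟩

end Pool.Agent.P.MP_8b3519_lc
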