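import Pool.Agent.P.MP_8b3519_lc.LoForce

/-!
Two generic matrices over the same reals have isomorphic images.
-/

namespace Pool.Agent.P.MP_8b3519_lc

open Filter Topology Set

variable {c : GG × XX → Equiv.Perm ℕ}

theorem GG.mk_mul (g h : SG) : GG.mk g 1 * GG.mk h 1 = GG.mk (g * h) 1 :=
  Prod.ext rfl (mul_one (1 : SG))

theorem GG.mk_inv (g : SG) : (GG.mk g 1)⁻¹ = GG.mk g⁻¹ 1 :=
  Prod.ext rfl (inv_one (G := SG))

theorem AllR.symm (hc : IsCoc c) {j k : ℕ} {U U' : Set XX} (h : AllR c j k U U') :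
    AllR c k j U' U := fun g x hx hg => by
  have := hc.inv (h g⁻¹ (GG.mk g 1 • x) hg (by rw [← GG.mk_inv, inv_smul_smul]; exact hx))
  rwa [← GG.mk_inv, inv_inv, inv_smul_smul] at this

/-- The elements `k` over `x` and `k'` over `x'` correspond to each other. -/
def CorrR (c : GG × XX → Equiv.Perm ℕ) (x x' : XX) (k k' : ℕ) : Prop :=
  ∃ U U', IsOpen U ∧ IsOpen U' ∧ x ∈ U ∧ x' ∈ U' ∧ AllR c k k' U U'

theorem CorrR.symm (hc : IsCoc c) {x x' : XX} {k k' : ℕ} (h : CorrR c x x' k k') :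
    CorrR c x' x k' k := by
  obtain ⟨U, U', h1, h2, h3, h4, h5⟩ := h
  exact ⟨U', U, h2, h1, h4, h3, h5.symm hc⟩

theorem CorrR.unique {A A' b : SX} {k k' k'' : ℕ} (h : CorrR c (XX.mk A b) (XX.mk A' b) k k')
    (h' : CorrR c (XX.mk A b) (XX.mk A' b) k k'') : k' = k'' := by
  obtain ⟨U, U', h1, h2, h3, h4, h5⟩ := h
  obtain ⟨V, V', g1, g2, g3, g4, g5⟩ := h'
  obtain ⟨g, y, hy, hgy⟩ := fiber_trans (h1.inter g1) (h2.inter g2) ⟨h3, g3⟩ ⟨h4, g4⟩
  exact (h5 g y hy.1 hgy.1).unique (g5 g y hy.2 hgy.2)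

theorem CorrR.fact {A A' b : SX} {n : ℕ} {R : (Fin n → ℕ) → XX → Prop} (hR : IsFact c R)
    {v w : Fin n → ℕ} (h : ∀ j, CorrR c (XX.mk A b) (XX.mk A' b) (v j) (w j))
    (hx : Forces (XX.mk A b) (R v)) : ¬ Forces (XX.mk A' b) (fun y => ¬ R w y) := by
  intro hn
  choose U U' h1 h2 h3 h4 h5 using h
  obtain ⟨g, y, hy, hgy⟩ := fiber_trans ((isOpen_iInter_of_finite h1).inter (isOpen_forces (R v)))
    ((isOpen_iInter_of_finite h2).inter (isOpen_forces (fun y => ¬ R w y)))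
    ⟨mem_iInter.2 h3, hx⟩ ⟨mem_iInter.2 h4, hn⟩
  exact (hR.transfer (fun j => h5 j g y (mem_iInter.1 hy.1 j) (mem_iInter.1 hgy.1 j))
    hy.2).not_forces_not hgy.2

/-- Exchange of the two matrices. -/
def sw : SX × XX ≃ₜ SX × XX where
  toFun y := (y.2.A, XX.mk y.1 y.2.b)
  invFun y := (y.2.A, XX.mk y.1 y.2.b)
  left_inv _ := rfl
  right_inv _ := rfl
  continuous_toFun :=
    (XX.cA.comp continuous_snd).prodMk (XX.cmk continuous_fst (XX.cb.comp continuous_snd))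
  continuous_invFun :=
    (XX.cA.comp continuous_snd).prodMk (XX.cmk continuous_fst (XX.cb.comp continuous_snd))

theorem total2 (hc : IsCoc c) (hg : GoodR c) (k : ℕ) :
    ∀ᶠ y in residual (SX × XX), ∃ k', CorrR c y.2 (sw y).2 k k' := by
  refine residual_of_dense' fun W hW ⟨y, hy⟩ => ?_
  obtain ⟨O', O, hO', hO, m1, m2, hsub⟩ := isOpen_prod_iff.1 hW y.1 y.2 hy
  obtain ⟨V, hV, ⟨z, hz⟩, hVO, hall⟩ := hg k O hO ⟨_, m2⟩
  have hU' : IsOpen {w : XX | w.A ∈ O'} := hO'.preimage XX.cA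
  obtain ⟨g, u₀, h1, h2⟩ := fiber_trans hV hU' (A := z.A) (A' := y.1) (b := z.b) hz m1
  obtain ⟨u, ⟨hu, hgu⟩, k', hk'⟩ := hc.slice (GG.mk g 1) k
    (hV.inter (isOpen_smul_mem2 (GG.mk g 1) hU')) ⟨u₀, h1, h2⟩
  have hU : IsOpen {w : XX | (GG.mk g 1)⁻¹ • w ∈ V ∩ {z | (GG.mk g 1, z) ∈ {b | Ar c k k' b}}} :=
    isOpen_smul_mem2 _ (hV.inter (isOpen_slice2 _ (isOpen_Ar c k k')))
  refine ⟨W ∩ ({y | y.2 ∈ V} ∩ {y | (sw y).2 ∈
      {w : XX | (GG.mk g 1)⁻¹ • w ∈ V ∩ {z | (GG.mk g 1, z) ∈ {b | Ar c k k' b}}}}),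
    hW.inter ((hV.preimage continuous_snd).inter
      (hU.preimage (continuous_snd.comp sw.continuous))),
    ⟨((GG.mk g 1 • u).A, u), hsub ⟨hgu, hVO hu⟩, hu, ?_⟩, inter_subset_left,
    fun x hx => ⟨k', V, _, hV, hU, hx.2.1, hx.2.2, fun d w hw hdw => ?_⟩⟩
  · change (GG.mk g 1)⁻¹ • GG.mk g 1 • u ∈ V ∩ {z | (GG.mk g 1, z) ∈ {b | Ar c k k' b}}
    rw [inv_smul_smul]
    exact ⟨hu, hk'⟩
  · have e : (GG.mk g 1)⁻¹ • GG.mk d 1 • w = GG.mk (g⁻¹ * d) 1 • w := by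
      rw [← mul_smul, GG.mk_inv, GG.mk_mul]
    have hdw' : GG.mk (g⁻¹ * d) 1 • w ∈ V ∩ {z | (GG.mk g 1, z) ∈ {b | Ar c k k' b}} := by
      rw [← e]; exact hdw
    have a3 := hc.comp (hall _ _ hw hdw'.1) hdw'.2
    rwa [GG.mk_mul, mul_inv_cancel_left] at a3

theorem generic_iso2 (hc : IsCoc c) (hg : GoodR c)
    {ι : Type} [Countable ι] {ar : ι → ℕ} {R : ∀ i, (Fin (ar i) → ℕ) → XX → Prop}
    (hR : ∀ i, IsFact c (R i)) :
    ∃ A A' b : SX, Function.Injective b ∧ (∀ n, A' 0 ≠ A n) ∧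
      ∃ σ : Equiv.Perm ℕ, ∀ i v, R i (σ ∘ v) (XX.mk A' b) ↔ R i v (XX.mk A b) := by
  have G1 : ∀ᶠ y in residual (SX × XX), ∀ k, ∃ k', CorrR c y.2 (sw y).2 k k' :=
    eventually_countable_forall.2 fun k => total2 hc hg k
  have G3 : ∀ᶠ x in residual XX, ∀ i v, (R i v x → Forces x (R i v)) ∧
      (¬ R i v x → Forces x (fun y => ¬ R i v y)) :=
    eventually_countable_forall.2 fun i => eventually_countable_forall.2 fun v =>
      (generic ((hR i).bm v)).and (generic ((hR i).not.bm v))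
  have G13 := G1.and ((tendsto_residual_of_isOpenMap (f := (Prod.snd : SX × XX → XX))
    continuous_snd isOpenMap_snd).eventually G3)
  have G13' := (tendsto_residual_of_isOpenMap sw.continuous sw.isOpenMap).eventually G13
  have G4 : ∀ᶠ y in residual (SX × XX), ∀ n, y.1 0 ≠ y.2.A n := by
    refine eventually_countable_forall.2 fun n => residual_of_dense' fun W hW ⟨z, hz⟩ => ?_
    obtain ⟨N, hN⟩ := exists_BY hW hz
    refine ⟨W ∩ {y | y.1 0 N ≠ y.2.A n N}, hW.inter (isOpen_ne_fun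
      ((continuous_coord 0 N).comp continuous_fst)
      ((continuous_coord n N).comp (XX.cA.comp continuous_snd))),
      ⟨(fun i j => if j = N then !(z.2.A n N) else z.1 i j, z.2),
        hN _ (fun i _ j hj => by simp [hj.ne]) (self_mem_BB _ _), by simp⟩,
      inter_subset_left, fun y hy e => hy.2 (congrFun e N)⟩
  have G5 : ∀ᶠ y in residual (SX × XX), ∀ n m, n ≠ m → y.2.b n ≠ y.2.b m := by
    refine eventually_countable_forall.2 fun n => eventually_countable_forall.2 fun m => ?_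
    by_cases hnm : n = m
    · exact Eventually.of_forall fun _ h => absurd hnm h
    refine residual_of_dense' fun W hW ⟨z, hz⟩ => ?_
    obtain ⟨N, hN⟩ := exists_BY hW hz
    refine ⟨W ∩ {y | y.2.b n N ≠ y.2.b m N}, hW.inter (isOpen_ne_fun
      ((continuous_coord n N).comp (XX.cb.comp continuous_snd))
      ((continuous_coord m N).comp (XX.cb.comp continuous_snd))),
      ⟨(z.1, XX.mk z.2.A fun i j => if j = N then decide (i = n) else z.2.b i j),
        hN _ (self_mem_Bx _ _) ⟨self_mem_Bx _ _, fun i _ j hj => by simp [hj.ne]⟩,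
        by simp [Ne.symm hnm]⟩,
      inter_subset_left, fun y hy _ e => hy.2 (congrFun e N)⟩
  have hne : (univ : Set (SX × XX)).Nonempty :=
    ⟨(fun _ _ => true, XX.mk (fun _ _ => true) fun _ _ => true), trivial⟩
  obtain ⟨⟨A', x⟩, -, ⟨⟨⟨tot1, x3⟩, tot2, y3⟩, y4⟩, y5⟩ :=
    exists_of_residual isOpen_univ hne (((G13.and G13').and G4).and G5)
  have tot1' : ∀ k, ∃ k', CorrR c (XX.mk x.A x.b) (XX.mk A' x.b) k k' := tot1
  have tot2' : ∀ k, ∃ k', CorrR c (XX.mk A' x.b) (XX.mk x.A x.b) k k' := tot2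
  choose s hs using tot1'
  choose s' hs' using tot2'
  refine ⟨x.A, A', x.b, fun n m e => by_contra fun h => y5 n m h e, y4,
    ⟨s, s', fun k => (hs' (s k)).unique ((hs k).symm hc),
      fun k => (hs (s' k)).unique ((hs' k).symm hc)⟩, fun i v => ⟨fun h => ?_, fun h => ?_⟩⟩
  · by_contra hn
    exact CorrR.fact (hR i) (v := s ∘ v) (w := v) (fun j => (hs (v j)).symm hc) ((y3 i _).1 h)
      ((x3 i v).2 hn)
  · by_contra hn
    exact CorrR.fact (hR i) (v := v) (w := s ∘ v) (fun j => hs (v j)) ((x3 i v).1 h)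
      ((y3 i _).2 hn)

end Pool.Agent.P.MP_8b3519_lc
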