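import Pool.Agent.P.MP_8b3519_lc.CyForce
import Pool.Agent.P.MP_8b3519_lc.LoGen

/-!
Two generic row data over the same reals have isomorphic images.
-/

namespace Pool.Agent.P.MP_8b3519_lc

open Filter Topology Set Function

variable {n₀ : ℕ} {c : GG × CX n₀ → Equiv.Perm ℕ}

theorem exists_ROk (n₀ : ℕ) : ∃ r, ROk n₀ r := by
  classical
  refine ⟨fun n a => decide (n ≠ n₀ ∧ Injective a ∧ ∀ i, a i ≤ a 0), fun n a ha => ?_,
    fun n hn a ha => ?_⟩
  · refine decide_eq_false fun h => ?_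
    rcases ha with ha | ha
    · exact h.1 ha
    · exact ha h.2.1
  · obtain ⟨s, hs⟩ := nonconst_max a ⟨⟨1, by have := lt_pm n; omega⟩, fun e => by
      simpa using congrArg Fin.val (ha e)⟩
    refine ⟨s, fun h => hs ?_⟩
    have e3 : Injective fun i => a (i + s) := ha.comp (add_left_injective s)
    simpa only [e3, ha, hn, ne_eq, not_false_eq_true, true_and, decide_eq_decide] using h

theorem AllR3.symm (hc : IsCoc c) {j k : ℕ} {U U' : Set (CX n₀)} (h : AllR3 c j k U U') :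
    AllR3 c k j U' U := fun g x hx hg => by
  have := hc.inv (h g⁻¹ (GG.mk g 1 • x) hg (by rw [← GG.mk_inv, inv_smul_smul]; exact hx))
  rwa [← GG.mk_inv, inv_inv, inv_smul_smul] at this

/-- The elements `k` over `x` and `k'` over `x'` correspond to each other. -/
def CorrR3 (c : GG × CX n₀ → Equiv.Perm ℕ) (x x' : CX n₀) (k k' : ℕ) : Prop :=
  ∃ U U', IsOpen U ∧ IsOpen U' ∧ x ∈ U ∧ x' ∈ U' ∧ AllR3 c k k' U U'

theorem CorrR3.symm (hc : IsCoc c) {x x' : CX n₀} {k k' : ℕ} (h : CorrR3 c x x' k k') :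
    CorrR3 c x' x k' k := by
  obtain ⟨U, U', h1, h2, h3, h4, h5⟩ := h
  exact ⟨U', U, h2, h1, h4, h3, h5.symm hc⟩

theorem CorrR3.unique {x x' : CX n₀} (hb : x.b = x'.b) {k k' k'' : ℕ} (h : CorrR3 c x x' k k')
    (h' : CorrR3 c x x' k k'') : k' = k'' := by
  obtain ⟨U, U', h1, h2, h3, h4, h5⟩ := h
  obtain ⟨V, V', g1, g2, g3, g4, g5⟩ := h'
  obtain ⟨g, y, hy, hgy⟩ := fiber_trans3 (h1.inter g1) (h2.inter g2) hb ⟨h3, g3⟩ ⟨h4, g4⟩
  exact (h5 g y hy.1 hgy.1).unique (g5 g y hy.2 hgy.2)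

theorem CorrR3.fact {x x' : CX n₀} (hb : x.b = x'.b) {n : ℕ} {R : (Fin n → ℕ) → CX n₀ → Prop}
    (hR : IsFact c R) {v w : Fin n → ℕ} (h : ∀ j, CorrR3 c x x' (v j) (w j))
    (hx : Forces x (R v)) : ¬ Forces x' (fun y => ¬ R w y) := by
  intro hn
  choose U U' h1 h2 h3 h4 h5 using h
  obtain ⟨g, y, hy, hgy⟩ := fiber_trans3 ((isOpen_iInter_of_finite h1).inter (isOpen_forces (R v)))
    ((isOpen_iInter_of_finite h2).inter (isOpen_forces (fun y => ¬ R w y))) hb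
    ⟨mem_iInter.2 h3, hx⟩ ⟨mem_iInter.2 h4, hn⟩
  exact (hR.transfer (fun j => h5 j g y (mem_iInter.1 hy.1 j) (mem_iInter.1 hgy.1 j))
    hy.2).not_forces_not hgy.2

/-- Exchange of the two row data. -/
def sw3 : RX n₀ × CX n₀ ≃ₜ RX n₀ × CX n₀ where
  toFun y := (y.2.row, CX.mk' y.1 y.2.b)
  invFun y := (y.2.row, CX.mk' y.1 y.2.b)
  left_inv _ := rfl
  right_inv _ := rfl
  continuous_toFun :=
    (CX.crow.comp continuous_snd).prodMk (CX.cmk' continuous_fst (CX.cb.comp continuous_snd))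
  continuous_invFun :=
    (CX.crow.comp continuous_snd).prodMk (CX.cmk' continuous_fst (CX.cb.comp continuous_snd))

theorem total3 (hc : IsCoc c) (hg : GoodR3 c) (k : ℕ) :
    ∀ᶠ y in residual (RX n₀ × CX n₀), ∃ k', CorrR3 c y.2 (sw3 y).2 k k' := by
  refine residual_of_dense' fun W hW ⟨y, hy⟩ => ?_
  obtain ⟨O', O, hO', hO, m1, m2, hsub⟩ := isOpen_prod_iff.1 hW y.1 y.2 hy
  obtain ⟨V, hV, ⟨z, hz⟩, hVO, hall⟩ := hg k O hO ⟨_, m2⟩
  have hU' : IsOpen {w : CX n₀ | w.row ∈ O'} := hO'.preimage CX.crow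
  obtain ⟨g, u₀, h1, h2⟩ := fiber_trans3 hV hU' (x := z) (x' := CX.mk' y.1 z.b) rfl hz m1
  obtain ⟨u, ⟨hu, hgu⟩, k', hk'⟩ := hc.slice (GG.mk g 1) k
    (hV.inter (isOpen_smul_mem3 (GG.mk g 1) hU')) ⟨u₀, h1, h2⟩
  have hU : IsOpen {w : CX n₀ | (GG.mk g 1)⁻¹ • w ∈
      V ∩ {z | (GG.mk g 1, z) ∈ {b | Ar c k k' b}}} :=
    isOpen_smul_mem3 _ (hV.inter (isOpen_slice3 _ (isOpen_Ar c k k')))
  refine ⟨W ∩ ({y | y.2 ∈ V} ∩ {y | (sw3 y).2 ∈
      {w : CX n₀ | (GG.mk g 1)⁻¹ • w ∈ V ∩ {z | (GG.mk g 1, z) ∈ {b | Ar c k k' b}}}}),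
    hW.inter ((hV.preimage continuous_snd).inter
      (hU.preimage (continuous_snd.comp sw3.continuous))),
    ⟨((GG.mk g 1 • u).row, u), hsub ⟨hgu, hVO hu⟩, hu, ?_⟩, inter_subset_left,
    fun x hx => ⟨k', V, _, hV, hU, hx.2.1, hx.2.2, fun d w hw hdw => ?_⟩⟩
  · change (GG.mk g 1)⁻¹ • GG.mk g 1 • u ∈ V ∩ {z | (GG.mk g 1, z) ∈ {b | Ar c k k' b}}
    rw [inv_smul_smul]
    exact ⟨hu, hk'⟩
  · have e : (GG.mk g 1)⁻¹ • GG.mk d 1 • w = GG.mk (g⁻¹ * d) 1 • w := by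
      rw [← mul_smul, GG.mk_inv, GG.mk_mul]
    have hdw' : GG.mk (g⁻¹ * d) 1 • w ∈ V ∩ {z | (GG.mk g 1, z) ∈ {b | Ar c k k' b}} := by
      rw [← e]; exact hdw
    have a3 := hc.comp (hall _ _ hw hdw'.1) hdw'.2
    rwa [GG.mk_mul, mul_inv_cancel_left] at a3

theorem exists_BY3 {y : RX n₀ × CX n₀} {U : Set (RX n₀ × CX n₀)} (hU : IsOpen U) (hy : y ∈ U) :
    ∃ N, ∀ A b : SX, A ∈ Bx y.2.A N → b ∈ Bx y.2.b N → (y.1, CX.mk A y.2.r y.2.ok b) ∈ U := by
  have h : Continuous fun w : XX => (y.1, CX.mk w.A y.2.r y.2.ok w.b) :=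
    continuous_const.prodMk ((XX.cA.prodMk continuous_const).prodMk XX.cb)
  obtain ⟨N, -, hN⟩ := exists_BB (hU.preimage h) (z := XX.mk y.2.A y.2.b) hy 0
  exact ⟨N, fun A b h1 h2 => hN (a := XX.mk A b) ⟨h1, h2⟩⟩

theorem generic_iso3 (hc : IsCoc c) (hg : GoodR3 c)
    {ι : Type} [Countable ι] {ar : ι → ℕ} {R : ∀ i, (Fin (ar i) → ℕ) → CX n₀ → Prop}
    (hR : ∀ i, IsFact c (R i)) :
    ∃ x x' : CX n₀, x.b = x'.b ∧ Injective x.b ∧ (∀ n, x.A 0 ≠ x'.A n) ∧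
      ∃ σ : Equiv.Perm ℕ, ∀ i v, R i (σ ∘ v) x' ↔ R i v x := by
  have G1 : ∀ᶠ y in residual (RX n₀ × CX n₀), ∀ k, ∃ k', CorrR3 c y.2 (sw3 y).2 k k' :=
    eventually_countable_forall.2 fun k => total3 hc hg k
  have G3 : ∀ᶠ x in residual (CX n₀), ∀ i v, (R i v x → Forces x (R i v)) ∧
      (¬ R i v x → Forces x (fun y => ¬ R i v y)) :=
    eventually_countable_forall.2 fun i => eventually_countable_forall.2 fun v =>
      (generic ((hR i).bm v)).and (generic ((hR i).not.bm v))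
  have G13 := G1.and ((tendsto_residual_of_isOpenMap (f := (Prod.snd : RX n₀ × CX n₀ → CX n₀))
    continuous_snd isOpenMap_snd).eventually G3)
  have G13' := (tendsto_residual_of_isOpenMap sw3.continuous sw3.isOpenMap).eventually G13
  have G4 : ∀ᶠ y in residual (RX n₀ × CX n₀), ∀ n, y.2.A 0 ≠ (sw3 y).2.A n := by
    refine eventually_countable_forall.2 fun n => residual_of_dense' fun W hW ⟨z, hz⟩ => ?_
    obtain ⟨N, hN⟩ := exists_BY3 hW hz
    refine ⟨W ∩ {y | y.2.A 0 N ≠ (sw3 y).2.A n N}, hW.inter (isOpen_ne_fun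
      ((continuous_coord 0 N).comp (CX.cA.comp continuous_snd))
      ((continuous_coord n N).comp (CX.cA.comp (continuous_snd.comp sw3.continuous)))),
      ⟨_, hN (fun i j => if j = N then !((sw3 z).2.A n N) else z.2.A i j) z.2.b
        (fun i _ j hj => by simp [hj.ne]) (self_mem_Bx _ _), ?_⟩,
      inter_subset_left, fun y hy e => hy.2 (congrFun e N)⟩
    change (if N = N then !((sw3 z).2.A n N) else z.2.A 0 N) ≠ (sw3 z).2.A n N
    simp
  have G5 : ∀ᶠ y in residual (RX n₀ × CX n₀), ∀ n m, n ≠ m → y.2.b n ≠ y.2.b m := by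
    refine eventually_countable_forall.2 fun n => eventually_countable_forall.2 fun m => ?_
    by_cases hnm : n = m
    · exact Eventually.of_forall fun _ h => absurd hnm h
    refine residual_of_dense' fun W hW ⟨z, hz⟩ => ?_
    obtain ⟨N, hN⟩ := exists_BY3 hW hz
    refine ⟨W ∩ {y | y.2.b n N ≠ y.2.b m N}, hW.inter (isOpen_ne_fun
      ((continuous_coord n N).comp (CX.cb.comp continuous_snd))
      ((continuous_coord m N).comp (CX.cb.comp continuous_snd))),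
      ⟨_, hN z.2.A (fun i j => if j = N then decide (i = n) else z.2.b i j)
        (self_mem_Bx _ _) (fun i _ j hj => by simp [hj.ne]), by simp [Ne.symm hnm]⟩,
      inter_subset_left, fun y hy _ e => hy.2 (congrFun e N)⟩
  obtain ⟨r₀, hr₀⟩ := exists_ROk n₀
  have hne : (univ : Set (RX n₀ × CX n₀)).Nonempty :=
    ⟨((fun _ _ => true, ⟨r₀, hr₀⟩), CX.mk (fun _ _ => true) r₀ hr₀ fun _ _ => true), trivial⟩
  obtain ⟨y, -, ⟨⟨⟨tot1, x3⟩, tot2, y3⟩, y4⟩, y5⟩ :=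
    exists_of_residual isOpen_univ hne (((G13.and G13').and G4).and G5)
  have tot2' : ∀ k, ∃ k', CorrR3 c (sw3 y).2 y.2 k k' := tot2
  have hb : y.2.b = (sw3 y).2.b := rfl
  choose s hs using tot1
  choose s' hs' using tot2'
  refine ⟨y.2, (sw3 y).2, hb, fun n m e => by_contra fun h => y5 n m h e, y4,
    ⟨s, s', fun k => (hs' (s k)).unique hb.symm ((hs k).symm hc),
      fun k => (hs (s' k)).unique hb ((hs' k).symm hc)⟩, fun i v => ⟨fun h => ?_, fun h => ?_⟩⟩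
  · by_contra hn
    exact CorrR3.fact hb.symm (hR i) (v := s ∘ v) (w := v) (fun j => (hs (v j)).symm hc)
      ((y3 i _).1 h) ((x3 i v).2 hn)
  · by_contra hn
    exact CorrR3.fact hb (hR i) (v := v) (w := s ∘ v) (fun j => hs (v j)) ((x3 i v).1 h)
      ((y3 i _).2 hn)

end Pool.Agent.P.MP_8b3519_lc
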