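import Pool.Agent.P.MP_8b3519_lc.Main
import Pool.Agent.P.MP_8b3519_lc.CyGen
import Pool.Agent.P.MP_8b3519_lc.CyComplete

/-!
The classes given by sets of primes are ordered by inclusion.
-/

namespace Pool.Agent.P.MP_8b3519_lc

open Function

variable {n₀ : ℕ}

/-- The matrix as a relation between rows and columns. -/
def aU (x : CX n₀) : ℕ ⊕ ℕ → ℕ ⊕ ℕ → Prop
  | .inl i, .inr n => x.A i n = true
  | .inl _, .inl _ => False
  | .inr _, _ => False

/-- The reals as unary predicates on the columns. -/
def bU (x : CX n₀) (k : ℕ) : ℕ ⊕ ℕ → Prop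
  | .inl _ => False
  | .inr n => k = 0 ∨ x.b n (k - 1) = true

/-- The position in the lexicographic order. -/
def keyU (x : CX n₀) : ℕ ⊕ ℕ → WithBot (Lex (ℕ → Bool))
  | .inl _ => ⊥
  | .inr n => (toLex (x.b n) : Lex (ℕ → Bool))

/-- The structure on rows and columns. -/
def codeU (x : CX n₀) : ∀ n, Rel n → (Fin n → ℕ ⊕ ℕ) → Prop
  | _, .T _, _ => False
  | _, .E, w => aU x (w 0) (w 1)
  | _, .R _ k, w => ∀ j, bU x k (w j)
  | _, .F m 0, w => (∃ (n : ℕ) (h : pm n + 1 = m + 1) (a : Fin (pm n + 1) → ℕ),
      (∀ i, w (i.cast h) = .inl (a i)) ∧ x.r n a = true) ∨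
      ((∃ i n, w i = .inr n) ∧ ∀ i, keyU x (w i) ≤ keyU x (w 0))
  | _, .F _ (_ + 1), _ => False

theorem codeU_smul (γ : GG) (x : CX n₀) (n : ℕ) (r : Rel n) (w : Fin n → ℕ ⊕ ℕ) :
    codeU (γ • x) n r (fun i => Sum.map γ.r γ.s (w i)) ↔ codeU x n r w := by
  rcases r with k | _ | ⟨n, k⟩ | ⟨m, _ | k⟩
  · exact Iff.rfl
  · simp only [codeU]
    rcases w 0 with a | a <;> rcases w 1 with b | b <;> simp [aU, csmul_A]
  · refine forall_congr' fun j => ?_
    dsimp only
    rcases w j with a | a <;> simp [bU, csmul_b]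
  · have hk : ∀ u, keyU (γ • x) (Sum.map γ.r γ.s u) = keyU x u := fun u => by
      rcases u with a | a <;> simp [keyU, csmul_b]
    simp only [codeU, hk]
    refine or_congr ⟨?_, ?_⟩ (and_congr_left' (exists_congr fun i => ?_))
    · rintro ⟨n, h, a, h1, h2⟩
      refine ⟨n, h, _, fun i => ?_, h2⟩
      have := h1 i
      revert this
      rcases w (i.cast h) with b | b
      · intro this
        simp [← Sum.inl.inj this]
      · intro this
        cases this
    · rintro ⟨n, h, a, h1, h2⟩
      refine ⟨n, h, fun i => γ.r (a i), fun i => by rw [h1 i]; rfl, ?_⟩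
      rw [csmul_r]
      simpa using h2
    · rcases w i with b | b <;> simp
  · exact Iff.rfl

theorem codeU_nc {x : CX n₀} (hb : Injective x.b) {n : ℕ} (hn : n ≠ n₀)
    {w : Fin (pm n + 1) → ℕ ⊕ ℕ} (hw : Injective w) :
    ∃ s, ¬ (codeU x _ (.F (pm n) 0) (fun i => w (i + s)) ↔ codeU x _ (.F (pm n) 0) w) := by
  have row : ∀ a : Fin (pm n + 1) → ℕ,
      codeU x _ (.F (pm n) 0) (fun i => .inl (a i)) ↔ x.r n a = true := fun a => by
    constructor
    · rintro (⟨n', h, a', h1, h2⟩ | ⟨⟨i, m, h⟩, -⟩)
      · obtain rfl := pm_inj h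
        obtain rfl : a = a' := funext fun i => Sum.inl.inj (h1 i)
        exact h2
      · cases h
    · exact fun h => Or.inl ⟨n, rfl, a, fun _ => rfl, h⟩
  have col : ∀ w : Fin (pm n + 1) → ℕ ⊕ ℕ, (∃ i m, w i = .inr m) →
      (codeU x _ (.F (pm n) 0) w ↔ ∀ i, keyU x (w i) ≤ keyU x (w 0)) := fun w h => by
    constructor
    · rintro (⟨n', h', a', h1, -⟩ | h')
      · obtain rfl := pm_inj h'
        obtain ⟨i, m, h⟩ := h
        cases (h1 i).symm.trans h
      · exact h'.2
    · exact fun h' => Or.inr ⟨h, h'⟩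
  by_cases h : ∃ i m, w i = .inr m
  · obtain ⟨s, hs⟩ := nonconst_max (fun i => keyU x (w i)) (by
      by_contra hcon
      push Not at hcon
      obtain ⟨i, m, h⟩ := h
      have all : ∀ j, w j = .inr m := fun j => by
        have := (hcon j).trans (hcon i).symm
        rw [h] at this
        revert this
        rcases w j with b | b
        · intro this
          cases this
        · intro this
          rw [hb (toLex.injective (WithBot.coe_injective this))]
      have := hw ((all ⟨1, by have := lt_pm n; omega⟩).trans (all 0).symm)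
      simpa using congrArg Fin.val this)
    refine ⟨s, fun h' => hs ?_⟩
    obtain ⟨i, m, h1⟩ := h
    rwa [col _ ⟨i - s, m, by simpa using h1⟩, col _ ⟨i, m, h1⟩] at h'
  · have : ∀ i, ∃ a, w i = .inl a := fun i => by
      rcases e : w i with b | b
      · exact ⟨b, rfl⟩
      · exact absurd ⟨i, b, e⟩ h
    choose a ha using this
    obtain rfl : w = fun i => .inl (a i) := funext ha
    obtain ⟨s, hs⟩ := x.ok.2 n hn a (Injective.of_comp (f := Sum.inl) hw)
    refine ⟨s, fun h' => hs ?_⟩
    rw [row fun i => a (i + s), row a] at h'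
    exact Bool.eq_iff_iff.2 h'

theorem codeU_decode {x x' : CX n₀} (e : x.b = x'.b) (hb : Injective x.b) (φ : ℕ ⊕ ℕ → ℕ ⊕ ℕ)
    (h : ∀ n r w, codeU x' n r (fun i => φ (w i)) ↔ codeU x n r w) : ∃ n, x.A 0 = x'.A n := by
  have h1 : ∀ k u, bU x' k (φ u) ↔ bU x k u := fun k u => by
    simpa [codeU] using h 1 (.R 1 k) fun _ => u
  have h2 : ∀ u v, aU x' (φ u) (φ v) ↔ aU x u v := fun u v => h 2 .E ![u, v]
  have h3 : ∀ n, φ (.inr n) = .inr n := fun n => by
    rcases e1 : φ (.inr n) with m | m
    · have := (h1 0 (.inr n)).2 (Or.inl rfl)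
      rw [e1] at this
      exact this.elim
    · refine congrArg _ (hb (funext fun j => ?_))
      have := h1 (j + 1) (.inr n)
      rw [e1] at this
      simp only [bU, Nat.add_one_ne_zero, false_or, Nat.add_sub_cancel, ← e] at this
      exact Bool.eq_iff_iff.2 this
  rcases e1 : φ (.inl 0) with i | m
  · refine ⟨i, funext fun n => ?_⟩
    have := h2 (.inl 0) (.inr n)
    rw [e1, h3] at this
    exact Bool.eq_iff_iff.2 this.symm
  · have := (h1 0 (.inl 0)).1 (by rw [e1]; exact Or.inl rfl)
    exact this.elim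

/-- The permutation of `ℕ` induced by a pair of permutations. -/
def rho3 (γ : GG) : Equiv.Perm ℕ :=
  (Equiv.natSumNatEquivNat.symm.trans (Equiv.sumCongr γ.r γ.s)).trans Equiv.natSumNatEquivNat

theorem rho3_ap (γ : GG) (a : ℕ) : rho3 γ a =
    Equiv.natSumNatEquivNat (Sum.map γ.r γ.s (Equiv.natSumNatEquivNat.symm a)) := rfl

theorem rho3_mul (γ δ : GG) : rho3 (γ * δ) = rho3 γ * rho3 δ := by
  ext a
  simp only [rho3_ap, Equiv.Perm.mul_apply, Equiv.symm_apply_apply]
  rcases Equiv.natSumNatEquivNat.symm a with b | b <;> rfl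

/-- The structure on `ℕ`. -/
def codeM (x : CX n₀) : ModL LL :=
  mkLL fun n r v => codeU x n r fun i => Equiv.natSumNatEquivNat.symm (v i)

theorem codeM_smul (γ : GG) (x : CX n₀) : codeM (γ • x) = act (rho3 γ) (codeM x) := by
  refine ext_LL fun n r v => ?_
  change codeU (γ • x) n r (fun i => Equiv.natSumNatEquivNat.symm (v i)) ↔
    codeU x n r fun i => Equiv.natSumNatEquivNat.symm ((rho3 γ).symm (v i))
  rw [← codeU_smul γ x]
  refine iff_of_eq (congrArg _ (funext fun i => ?_))
  apply Equiv.natSumNatEquivNat.injective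
  rw [← rho3_ap]
  simp only [Equiv.apply_symm_apply]

instance : MeasurableSpace (CX n₀) := borel (CX n₀)
instance : BorelSpace (CX n₀) := ⟨rfl⟩

theorem meas_bool {f : CX n₀ → Bool} (hf : Continuous f) : Measurable fun x => f x = true :=
  (measurable_of_countable fun b : Bool => b = true).comp hf.measurable

theorem meas_b2 (n i m j : ℕ) (P : Bool → Bool → Prop) :
    Measurable fun x : CX n₀ => P (x.b n i) (x.b m j) :=
  (measurable_of_countable fun b : Bool × Bool => P b.1 b.2).comp
    (((continuous_coord n i).comp CX.cb).measurable.prodMk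
      ((continuous_coord m j).comp CX.cb).measurable)

theorem meas_key (u v : ℕ ⊕ ℕ) : Measurable fun x : CX n₀ => keyU x u ≤ keyU x v := by
  rcases u with a | a
  · simp only [keyU, bot_le]
    exact measurable_const
  · rcases v with b | b
    · simp only [keyU, WithBot.not_coe_le_bot]
      exact measurable_const
    · simp only [keyU, WithBot.coe_lt_coe, ← not_lt]
      change Measurable fun x : CX n₀ =>
        ¬ ∃ i, (∀ j, j < i → x.b b j = x.b a j) ∧ x.b b i < x.b a i
      exact Measurable.not (.exists fun i => Measurable.and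
        (.forall fun j => measurable_const.imp (meas_b2 b j a j (· = ·))) (meas_b2 b i a i (· < ·)))

theorem measurable_codeM : Measurable (codeM (n₀ := n₀)) := by
  refine measurable_mkLL fun n r v => ?_
  generalize (fun i => Equiv.natSumNatEquivNat.symm (v i)) = w
  rcases r with k | _ | ⟨n, k⟩ | ⟨m, _ | k⟩
  · exact measurable_const
  · simp only [codeU]
    rcases w 0 with a | a <;> rcases w 1 with b | b
    · exact measurable_const
    · exact meas_bool ((continuous_coord a b).comp CX.cA)
    · exact measurable_const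
    · exact measurable_const
  · refine .forall fun j => ?_
    rcases w j with a | a
    · exact measurable_const
    · exact measurable_const.or (meas_bool ((continuous_coord a _).comp CX.cb))
  · exact (Measurable.exists fun n => .exists fun h => .exists fun a =>
      measurable_const.and (meas_bool (CX.cr' n a))).or
      (measurable_const.and (.forall fun i => meas_key _ _))
  · exact measurable_const

theorem continuous_rho3 (a : ℕ) : Continuous fun γ : GG => rho3 γ a := by
  simp only [rho3_ap]
  rcases Equiv.natSumNatEquivNat.symm a with i | i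
  · exact (continuous_of_discreteTopology
      (f := fun t : ℕ => Equiv.natSumNatEquivNat (.inl t))).comp (SG.cev GG.c1 i)
  · exact (continuous_of_discreteTopology
      (f := fun t : ℕ => Equiv.natSumNatEquivNat (.inr t))).comp (SG.cev GG.c2 i)

theorem subset_of_reduces {P Q : Set ℕ} (h : GroupoidReduces (clsCy P) (clsCy Q)) : P ⊆ Q := by
  classical
  intro n₀ hP
  by_contra hQ
  let _ : MeasurableSpace GG := borel GG
  have : BorelSpace GG := ⟨rfl⟩
  obtain ⟨F, hF, ⟨h1, h2⟩, h3⟩ := h
  obtain ⟨f₀, -⟩ := complete_cy P LL countable_LL clsAll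
  let M₀ : (clsCy P).carrier := f₀ ⟨mkLL fun _ _ _ => True, trivial⟩
  have hΩ : MeasurableSet {x : CX n₀ | Injective x.b} := by
    refine measurableSet_setOfPred.2 (.forall fun n => .forall fun m => Measurable.imp ?_
      measurable_const)
    simp only [funext_iff]
    exact .forall fun j => meas_b2 n j m j (· = ·)
  have Ωs : ∀ (γ : GG) (x : CX n₀), Injective (γ • x).b ↔ Injective x.b := fun γ x =>
    Injective.of_comp_iff' x.b γ.s⁻¹.bijective
  let cd : CX n₀ → (clsCy P).carrier := fun x => ⟨if Injective x.b then codeM x else M₀.1, by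
    split_ifs with hx
    · exact fun n hn a ha => codeU_nc hx (fun e => hn (by rw [e]; exact hP))
        (Equiv.natSumNatEquivNat.symm.injective.comp ha)
    · exact M₀.2⟩
  have cd1 : ∀ x, Injective x.b → (cd x).1 = codeM x := fun x hx => if_pos hx
  have cd2 : ∀ x, ¬ Injective x.b → cd x = M₀ := fun x hx => Subtype.ext (if_neg hx)
  have cd_smul : ∀ (γ : GG) x, Injective x.b → cd (γ • x) = (clsCy P).act (rho3 γ) (cd x) :=
    fun γ x hx => Subtype.ext (by
      change (cd (γ • x)).1 = act (rho3 γ) (cd x).1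
      rw [cd1 _ ((Ωs γ x).2 hx), cd1 _ hx, codeM_smul])
  have hcd : Measurable cd := (Measurable.ite hΩ measurable_codeM measurable_const).subtype_mk
  have harr : @Measurable (GG × CX n₀) (Arr (clsCy P)) _ _ fun a => (rho3 a.1, cd a.2) := by
    let _ := permBorel
    refine Measurable.prodMk ?_ (hcd.comp measurable_snd)
    exact measurable_comap_iff.2 (measurable_pi_iff.2 fun j =>
      (continuous_rho3 j).measurable.comp measurable_fst)
  have harr1 : @Measurable (CX n₀) (Arr (clsCy P)) _ _ fun z => (1, cd z) := by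
    let _ := permBorel
    exact Measurable.prodMk measurable_const hcd
  let c : GG × CX n₀ → Equiv.Perm ℕ := fun a =>
    if Injective a.2.b then (F (rho3 a.1, cd a.2)).1 else 1
  let f : CX n₀ → (clsCy Q).carrier := fun z => (F (1, cd z)).2
  have hsrc : ∀ g x, (F (g, x)).2 = (F (1, x)).2 := fun g x => by
    have := congrArg Prod.snd (h2 1 g x).2
    simpa using this
  have hf : ∀ (γ : GG) z, f (γ • z) = (clsCy Q).act (c (γ, z)) (f z) := fun γ z => by
    by_cases hz : Injective z.b
    · have := (h2 (rho3 γ) 1 (cd z)).1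
      rw [hsrc (rho3 γ), ← cd_smul γ z hz] at this
      simp only [c, hz, if_true]
      exact this
    · simp only [c, f, hz, if_false, cd2 _ hz, cd2 _ (mt (Ωs γ z).1 hz)]
      rfl
  have hc : IsCoc c := by
    refine ⟨fun j k => ?_, fun h g x => ?_⟩
    · refine MeasurableSet.baireMeasurableSet (measurableSet_setOfPred.2 ?_)
      refine (measurable_of_countable fun m : ℕ => m = k).comp (f := fun a => c a j) ?_
      simp only [c, apply_ite (fun s : Equiv.Perm ℕ => s j)]
      exact Measurable.ite (measurable_snd hΩ)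
        ((measurable_arr_fst (clsCy Q) j).comp (hF.comp harr)) measurable_const
    · by_cases hx : Injective x.b
      · have := congrArg Prod.fst (h2 (rho3 g) (rho3 h) (cd x)).2
        rw [← cd_smul g x hx, ← rho3_mul] at this
        simp only [c, hx, (Ωs g x).2 hx, if_true]
        exact this
      · simp only [c, hx, mt (Ωs g x).1 hx, if_false, mul_one]
  have hfm : Measurable fun z => (f z).1 :=
    measurable_subtype_coe.comp ((measurable_arr_snd (clsCy Q)).comp (hF.comp harr1))
  have hR : ∀ i : Σ n, Rel n, IsFact c (fun v z => rel (f z).1 i.2 v) := by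
    rintro ⟨n, r⟩
    refine ⟨fun v => ?_, fun v g x => ?_⟩
    · refine MeasurableSet.baireMeasurableSet (measurableSet_setOfPred.2 ?_)
      exact (measurable_rel (L := LL) r v).comp hfm
    · rw [hf]
      change rel (f x).1 r ((c (g, x)).symm ∘ c (g, x) ∘ v) ↔ _
      have : (c (g, x)).symm ∘ c (g, x) ∘ v = v := funext fun i => by simp
      rw [this]
  have := countable_rel
  obtain ⟨x, y, hb, hx, hA, σ, hσ⟩ := generic_iso3 hc
    (good_dense3 hc (hR ⟨_, Rel.F (pm n₀) 0⟩) fun x a ha => (f x).2 n₀ hQ a ha)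
    (ar := fun i : Σ n, Rel n => i.1) hR
  obtain ⟨g, hg⟩ := h3 (cd x) (cd y) ⟨σ, Subtype.ext (ext_LL fun n r v => by
    have := hσ ⟨n, r⟩ (σ.symm ∘ v)
    have e : σ ∘ σ.symm ∘ v = v := funext fun i => by simp
    rw [e] at this
    exact this.symm)⟩
  have hg' : act g (codeM x) = codeM y := by
    rw [← cd1 x hx, ← cd1 y (hb ▸ hx)]
    exact congrArg Subtype.val hg
  obtain ⟨n, hn⟩ := codeU_decode hb hx
    (fun u => Equiv.natSumNatEquivNat.symm (g (Equiv.natSumNatEquivNat u))) fun n r w => by
      change rel (codeM y) r (fun i => g (Equiv.natSumNatEquivNat (w i))) ↔ _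
      rw [← hg']
      change codeU x n r (fun i => Equiv.natSumNatEquivNat.symm
        (g.symm (g (Equiv.natSumNatEquivNat (w i))))) ↔ _
      simp only [Equiv.symm_apply_apply]
  exact hA n hn

end Pool.Agent.P.MP_8b3519_lc
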