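import Pool.Agent.P.MP_8b3519_lc.CySpace

/-!
Relations of prime arity on a union of blocks which are invariant under the cyclic shift of the
blocks.
-/

namespace Pool.Agent.P.MP_8b3519_lc

open Function

theorem diff_zero {p q : ℕ} (h : Nat.Coprime (q + 1) (p + 1)) (j : Fin (q + 1) → Fin (p + 1))
    {δ : Fin (p + 1)} (hj : ∀ i, j (i + 1) - j i = δ) : δ = 0 := by
  have h1 : ∑ i, (j (i + 1) - j i) = 0 := by
    rw [Finset.sum_sub_distrib, sub_eq_zero]
    exact Equiv.sum_comp (Equiv.addRight 1) j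
  simp only [hj, Finset.sum_const, Finset.card_univ, Fintype.card_fin] at h1
  have h2 : (p + 1) • δ = 0 := by
    have := card_nsmul_eq_zero (x := δ)
    rwa [Fintype.card_fin] at this
  exact AddMonoid.addOrderOf_eq_one_iff.1 (Nat.eq_one_of_dvd_coprimes h
    (addOrderOf_dvd_of_nsmul_eq_zero h1) (addOrderOf_dvd_of_nsmul_eq_zero h2))

theorem const_of_period {p : ℕ} (hp : (p + 1).Prime) {α : Type*} (a : Fin (p + 1) → α)
    {δ : Fin (p + 1)} (hδ : δ ≠ 0) (h : ∀ i, a (i + δ) = a i) (i : Fin (p + 1)) : a i = a 0 := by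
  have := Fact.mk hp
  obtain ⟨m, rfl⟩ := mem_multiples_of_prime_card (p := p + 1) (by simp) hδ (g' := i)
  change a (m • δ) = a 0
  induction m with
  | zero => rw [zero_nsmul]
  | succ m ih => rw [succ_nsmul, h, ih]

theorem exists_kappa {J : Type} (j₀ : J) (N : ℕ) (e : J × ℕ → ℕ)
    (he : ∀ w w' : J × ℕ, w.2 < N → w'.2 < N → e w = e w' → w = w') :
    ∃ κ : ℕ → J × ℕ, Injective κ ∧ ∀ w : J × ℕ, w.2 < N → κ (e w) = w := by
  have : ∀ t, ∃ w : J × ℕ, (w.2 < N ∧ e w = t) ∨
      ((¬ ∃ w : J × ℕ, w.2 < N ∧ e w = t) ∧ w.2 = N + t) := fun t => by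
    by_cases h : ∃ w : J × ℕ, w.2 < N ∧ e w = t
    · obtain ⟨w, hw⟩ := h
      exact ⟨w, Or.inl hw⟩
    · exact ⟨(j₀, N + t), Or.inr ⟨h, rfl⟩⟩
  choose κ hκ using this
  refine ⟨κ, fun t t' h => ?_, fun w hw => ?_⟩
  · obtain ⟨h1, h2⟩ | ⟨-, h2⟩ := hκ t <;> obtain ⟨h3, h4⟩ | ⟨-, h4⟩ := hκ t'
    · rw [← h2, ← h4, h]
    · rw [h] at h1
      omega
    · rw [h] at h2
      omega
    · rw [h] at h2
      omega
  · obtain ⟨h1, h2⟩ | ⟨h1, -⟩ := hκ (e w)
    · exact he _ _ h1 hw h2
    · exact absurd ⟨w, hw, rfl⟩ h1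

variable {n₀ : ℕ}

/-- The word of offsets and block differences. -/
def wd {p q : ℕ} (a : Fin (q + 1) → Fin (p + 1) × ℕ) (i : Fin (q + 1)) : ℕ :=
  Nat.pair (a i).2 ((a (i + 1)).1 - (a i).1).val

open Classical in
/-- The invariant relations. -/
noncomputable def rule (z₀ : CX n₀) (n : ℕ) (a : Fin (pm n + 1) → Fin (pm n₀ + 1) × ℕ) : Bool :=
  if ∀ i, (a i).1 = (a 0).1 then z₀.r n (fun i => (a i).2)
  else decide (n ≠ n₀ ∧ Injective a ∧ ∀ i, wd a i ≤ wd a 0)

theorem rule_block (z₀ : CX n₀) (n : ℕ) (j : Fin (pm n₀ + 1)) (a : Fin (pm n + 1) → ℕ) :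
    rule z₀ n (fun i => (j, a i)) = z₀.r n a := by simp [rule]

theorem rule_shift (z₀ : CX n₀) (n : ℕ) (s : Fin (pm n₀ + 1))
    (a : Fin (pm n + 1) → Fin (pm n₀ + 1) × ℕ) :
    rule z₀ n (fun i => ((a i).1 + s, (a i).2)) = rule z₀ n a := by
  have h1 : wd (fun i => ((a i).1 + s, (a i).2)) = wd a := funext fun i => by simp [wd]
  have h2 : Injective (fun i => ((a i).1 + s, (a i).2)) ↔ Injective a := by
    constructor
    · intro h i i' e
      exact h (by simp [e])
    · intro h i i' e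
      obtain ⟨e1, e2⟩ := Prod.mk.inj e
      exact h (Prod.ext (add_right_cancel e1) e2)
  simp only [rule, h1, h2, add_left_inj]

theorem rule_ok (z₀ : CX n₀) {κ : ℕ → Fin (pm n₀ + 1) × ℕ} (hκ : Injective κ) :
    ROk n₀ fun n a => rule z₀ n fun i => κ (a i) := by
  refine ⟨fun n a ha => ?_, fun n hn a ha => ?_⟩
  · simp only [rule]
    split_ifs
    · refine z₀.ok.1 n _ (ha.imp id fun h1 h2 => h1 fun i i' e => h2 ?_)
      simp only [e]
    · refine decide_eq_false fun h => ?_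
      rcases ha with ha | ha
      · exact h.1 ha
      · exact ha (Injective.of_comp (f := κ) h.2.1)
  · have hw : Injective fun i => κ (a i) := hκ.comp ha
    change ∃ s, rule z₀ n (fun i => (fun i => κ (a i)) (i + s)) ≠ rule z₀ n fun i => κ (a i)
    generalize (fun i => κ (a i)) = w at hw
    have e1 : ∀ s, (∀ i, (w (i + s)).1 = (w (0 + s)).1) ↔ ∀ i, (w i).1 = (w 0).1 := fun s =>
      ⟨fun h i => by
        have h1 := h (i - s)
        have h2 := h (0 - s)
        simp only [sub_add_cancel] at h1 h2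
        rw [h1, h2], fun h i => by rw [h, h (0 + s)]⟩
    by_cases hb : ∀ i, (w i).1 = (w 0).1
    · obtain ⟨s, hs⟩ := z₀.ok.2 n hn (fun i => (w i).2) fun i i' e =>
        hw (Prod.ext ((hb i).trans (hb i').symm) e)
      refine ⟨s, ?_⟩
      simp only [rule, hb, implies_true, if_true]
      exact hs
    · have hnc : ∃ i, wd w i ≠ wd w 0 := by
        by_contra hcon
        push Not at hcon
        have h1 : ∀ i, (w i).2 = (w 0).2 := fun i => (Nat.pair_eq_pair.1 (hcon i)).1
        have h2 : ∀ i, (w (i + 1)).1 - (w i).1 = (w (0 + 1)).1 - (w 0).1 := fun i =>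
          Fin.ext (Nat.pair_eq_pair.1 (hcon i)).2
        have h3 := diff_zero ((Nat.coprime_primes (pm_prime n) (pm_prime n₀)).2
          fun e => hn (pm_inj e)) (fun i => (w i).1) h2
        have h4 : (0 + 1 : Fin (pm n + 1)) = 0 := hw (Prod.ext (sub_eq_zero.1 h3) (h1 _))
        have h5 := lt_pm n
        have h6 := congrArg Fin.val h4
        simp only [zero_add, Fin.val_one', Fin.val_zero] at h6
        rw [Nat.mod_eq_of_lt (by omega)] at h6
        omega
      obtain ⟨s, hs⟩ := nonconst_max (wd w) hnc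
      refine ⟨s, fun h => hs ?_⟩
      have e2 : wd (fun i => w (i + s)) = fun i => wd w (i + s) := funext fun i => by
        simp only [wd, add_right_comm i 1 s]
      have e3 : Injective fun i => w (i + s) := hw.comp (add_left_injective s)
      simp only [rule, e1, hb, if_false, e2, e3, hw, hn, ne_eq, not_false_eq_true, true_and,
        decide_eq_decide] at h
      exact h

end Pool.Agent.P.MP_8b3519_lc
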