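import Mathlib

/-!
Definitions for the comparison of the groupoids of classes of countable structures.
-/

namespace Pool.Agent.P.MP_8b3519_lc

/-- `ModL L`: the `L`-structures with universe `ℕ`. -/
def ModL (L : FirstOrder.Language.{0, 0}) : Type := L.Structure ℕ

/-- The atomic diagram of a structure on `ℕ`: the values of all function symbols and the truth
values of all relation symbols at all tuples. -/
def diagram (L : FirstOrder.Language.{0, 0}) (M : ModL L) :
    ((Σ n : ℕ, L.Functions n × (Fin n → ℕ)) → ℕ) × ((Σ n : ℕ, L.Relations n × (Fin n → ℕ)) → Prop) :=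
  (fun p => @FirstOrder.Language.Structure.funMap L ℕ M p.1 p.2.1 p.2.2,
    fun p => @FirstOrder.Language.Structure.RelMap L ℕ M p.1 p.2.1 p.2.2)

/-- The standard Borel structure of `ModL L`: the product Borel structure on atomic diagrams. -/
instance modBorel (L : FirstOrder.Language.{0, 0}) : MeasurableSpace (ModL L) :=
  MeasurableSpace.comap (diagram L) inferInstance

/-- The Borel structure of `S_∞`, as a subspace of the Baire space `ℕ → ℕ`. -/
@[reducible] def permBorel : MeasurableSpace (Equiv.Perm ℕ) :=
  MeasurableSpace.comap (fun g : Equiv.Perm ℕ => (g : ℕ → ℕ)) inferInstance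

/-- Isomorphism of `L`-structures on `ℕ`. -/
def Iso {L : FirstOrder.Language.{0, 0}} (M N : ModL L) : Prop :=
  Nonempty (@FirstOrder.Language.Equiv L ℕ ℕ M N)

/-- The logic action: `act g M` is the structure for which `g` is an isomorphism from `M`. -/
def act {L : FirstOrder.Language.{0, 0}} (g : Equiv.Perm ℕ) (M : ModL L) : ModL L :=
  @Equiv.inducedStructure L ℕ ℕ M g

/-- A class: an isomorphism-invariant Borel subset of `ModL L`. -/
structure Cls (L : FirstOrder.Language.{0, 0}) where
  carrier : Set (ModL L)
  borel : MeasurableSet carrier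
  invariant : ∀ M N : ModL L, Iso M N → M ∈ carrier → N ∈ carrier

/-- The logic action on a class. -/
def Cls.act {L : FirstOrder.Language.{0, 0}} (C : Cls L) (g : Equiv.Perm ℕ) (x : C.carrier) : C.carrier :=
  ⟨Pool.Agent.P.MP_8b3519_lc.act g x.1,
    C.invariant _ _ ⟨@Equiv.inducedStructureEquiv L ℕ ℕ x.1 g⟩ x.2⟩

/-- Borel completeness of a class. -/
def BorelComplete {L : FirstOrder.Language.{0, 0}} (C : Cls L) : Prop :=
  ∀ (L' : FirstOrder.Language.{0, 0}), Countable L'.Symbols → ∀ C' : Cls L',
    ∃ f : C'.carrier → C.carrier, Measurable f ∧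
      ∀ x y : C'.carrier, Iso x.1 y.1 ↔ Iso (f x).1 (f y).1

/-- The arrows `(g, x)` of the action groupoid of `C`; the source of `(g, x)` is `x`, its range is
`g • x`, the identity arrow at `x` is `(1, x)` and `(h, g • x) (g, x) = (h * g, x)`. -/
def Arr {L : FirstOrder.Language.{0, 0}} (C : Cls L) : Type := Equiv.Perm ℕ × C.carrier

/-- The product Borel structure on the arrows. -/
instance arrBorel {L : FirstOrder.Language.{0, 0}} (C : Cls L) : MeasurableSpace (Arr C) :=
  permBorel.prod inferInstance

/-- `F` is a functor from the groupoid of `C` to the groupoid of `D`: it sends identity arrows to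
identity arrows, composable pairs to composable pairs, and composites to composites. -/
def IsFunctor {L L' : FirstOrder.Language.{0, 0}} (C : Cls L) (D : Cls L') (F : Arr C → Arr D) : Prop :=
  (∀ x : C.carrier, (F (1, x)).1 = 1) ∧
    ∀ (g h : Equiv.Perm ℕ) (x : C.carrier),
      (F (h, C.act g x)).2 = D.act (F (g, x)).1 (F (g, x)).2 ∧
        F (h * g, x) = ((F (h, C.act g x)).1 * (F (g, x)).1, (F (g, x)).2)

/-- There is a Borel reduction from the groupoid of `C` to the groupoid of `D`: a functor, Borel on
arrows, such that objects whose images are joined by an arrow are joined by an arrow. -/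
def GroupoidReduces {L L' : FirstOrder.Language.{0, 0}} (C : Cls L) (D : Cls L') : Prop :=
  ∃ F : Arr C → Arr D, Measurable F ∧ IsFunctor C D F ∧
    ∀ x y : C.carrier, (∃ h : Equiv.Perm ℕ, D.act h (F (1, x)).2 = (F (1, y)).2) →
      ∃ g : Equiv.Perm ℕ, C.act g x = y

end Pool.Agent.P.MP_8b3519_lc
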