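import Mathlib

/-!
Local genericity (Baire category) in a topological space.
-/

namespace Pool.Agent.P.MP_8b3519_lc

open Filter Topology Set

variable {Z Z' : Type*} [TopologicalSpace Z] [TopologicalSpace Z']

/-- `P` holds comeagrely near `z`. -/
def Forces (z : Z) (P : Z → Prop) : Prop := ∀ᶠ w in 𝓝 z ⊓ residual Z, P w

theorem forces_iff {z : Z} {P : Z → Prop} :
    Forces z P ↔ ∃ U, IsOpen U ∧ z ∈ U ∧ ∀ᶠ w in residual Z, w ∈ U → P w := by
  constructor
  · intro h
    obtain ⟨s, hs, t, ht, hst⟩ := mem_inf_iff_superset.1 h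
    obtain ⟨U, hUs, hU, hz⟩ := mem_nhds_iff.1 hs
    refine ⟨U, hU, hz, ?_⟩
    filter_upwards [ht] with w hw hwU
    exact hst ⟨hUs hwU, hw⟩
  · rintro ⟨U, hU, hz, h⟩
    have h1 : ∀ᶠ w in 𝓝 z ⊓ residual Z, w ∈ U := mem_inf_of_left (hU.mem_nhds hz)
    have h2 : ∀ᶠ w in 𝓝 z ⊓ residual Z, w ∈ U → P w := mem_inf_of_right h
    filter_upwards [h1, h2] with w a b using b a

theorem isOpen_forces (P : Z → Prop) : IsOpen {z | Forces z P} := by
  rw [isOpen_iff_forall_mem_open]
  intro z hz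
  obtain ⟨U, hU, hzU, h⟩ := forces_iff.1 hz
  exact ⟨U, fun w hw => forces_iff.2 ⟨U, hU, hw, h⟩, hU, hzU⟩

theorem Forces.and {z : Z} {P Q : Z → Prop} (h : Forces z P) (h' : Forces z Q) :
    Forces z (fun w => P w ∧ Q w) := Eventually.and h h'

theorem Forces.mono {z : Z} {P Q : Z → Prop} (h : Forces z P) (h' : ∀ w, P w → Q w) :
    Forces z Q := Eventually.mono h h'

theorem forces_all {z : Z} {ι : Type*} [Finite ι] {P : ι → Z → Prop} (h : ∀ i, Forces z (P i)) :
    Forces z (fun w => ∀ i, P i w) := eventually_all.2 h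

theorem exists_of_residual [BaireSpace Z] {U : Set Z} (hU : IsOpen U) (hne : U.Nonempty)
    {P : Z → Prop} (h : ∀ᶠ w in residual Z, P w) : ∃ w ∈ U, P w := by
  obtain ⟨w, hw, hw'⟩ := (dense_of_mem_residual h).inter_open_nonempty U hU hne
  exact ⟨w, hw, hw'⟩

theorem Forces.exists [BaireSpace Z] {z : Z} {P : Z → Prop} (h : Forces z P) : ∃ w, P w := by
  obtain ⟨U, hU, hz, h⟩ := forces_iff.1 h
  obtain ⟨w, hw, hw'⟩ := exists_of_residual hU ⟨z, hz⟩ h
  exact ⟨w, hw' hw⟩

theorem Forces.not_forces_not [BaireSpace Z] {z : Z} {P : Z → Prop} (h : Forces z P) :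
    ¬ Forces z (fun w => ¬ P w) := fun h' => by
  obtain ⟨w, h1, h2⟩ := (h.and h').exists
  exact h2 h1

theorem Forces.pullback {f : Z → Z'} (hc : Continuous f) (ho : IsOpenMap f) {z : Z}
    {P : Z' → Prop} (h : Forces (f z) P) : Forces z (fun w => P (f w)) :=
  ((hc.tendsto z).inf (tendsto_residual_of_isOpenMap hc ho)).eventually h

theorem generic {P : Z → Prop} (h : BaireMeasurableSet {z | P z}) :
    ∀ᶠ z in residual Z, P z → Forces z P := by
  obtain ⟨u, hu, he⟩ := h.residualEq_isOpen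
  rw [eventuallyEq_set] at he
  filter_upwards [he] with z hz hP
  refine forces_iff.2 ⟨u, hu, hz.1 hP, ?_⟩
  filter_upwards [he] with w hw hwu using hw.2 hwu

theorem forces_of_not_forces_not {P : Z → Prop} (h : BaireMeasurableSet {z | P z}) {U : Set Z}
    (hU : IsOpen U) (hn : ∀ w ∈ U, ¬ Forces w (fun v => ¬ P v)) {z : Z} (hz : z ∈ U) :
    Forces z P := by
  refine forces_iff.2 ⟨U, hU, hz, ?_⟩
  have : BaireMeasurableSet {z | ¬ P z} := h.compl
  filter_upwards [generic this] with w hw hwU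
  by_contra hP
  exact hn w hwU (hw hP)

theorem Forces.pushforward [BaireSpace Z] {f : Z → Z'} (hc : Continuous f) (ho : IsOpenMap f)
    {P : Z' → Prop} (hP : BaireMeasurableSet {z | P z}) {z : Z}
    (h : Forces z (fun w => P (f w))) : Forces (f z) P := by
  refine forces_of_not_forces_not hP (ho _ (isOpen_forces (fun w => P (f w)))) ?_ ⟨z, h, rfl⟩
  rintro _ ⟨w, hw, rfl⟩ hn
  exact Forces.not_forces_not hw (hn.pullback hc ho)

theorem exists_forces [BaireSpace Z] {ι : Type*} [Countable ι] {P : ι → Z → Prop}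
    (hP : ∀ i, BaireMeasurableSet {z | P i z}) {U : Set Z} (hU : IsOpen U) (hne : U.Nonempty)
    (h : ∀ z ∈ U, ∃ i, P i z) : ∃ z ∈ U, ∃ i, Forces z (P i) := by
  obtain ⟨w, hw, hw'⟩ := exists_of_residual hU hne
    (eventually_countable_forall.2 fun i => generic (hP i))
  obtain ⟨i, hi⟩ := h w hw
  exact ⟨w, hw, i, hw' i hi⟩

end Pool.Agent.P.MP_8b3519_lc
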