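import Pool.Agent.Results.MP_8b3519_lc.LinearOrders
/-!
The case of linear orders.
-/

namespace Pool.Agent.P.MP_8b3519_lc

open FirstOrder

theorem comp2 (σ : ℕ → ℕ) (a b : ℕ) : σ ∘ ![a, b] = ![σ a, σ b] := by
  funext i; fin_cases i <;> rfl

/-- The class of linear orders. -/
def clsLO : Cls Language.order where
  carrier := {M | (∀ a b, rel M Language.leSymb ![a, b] ∨ rel M Language.leSymb ![b, a]) ∧
    (∀ a b, rel M Language.leSymb ![a, b] → rel M Language.leSymb ![b, a] → a = b) ∧
    ∀ a b c, rel M Language.leSymb ![a, b] → rel M Language.leSymb ![b, c] → rel M Language.leSymb ![a, c]}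
  borel := by
    refine measurableSet_setOfPred.2 (Measurable.and ?_ (Measurable.and ?_ ?_))
    · exact .forall fun a => .forall fun b => (measurable_rel _ _).or (measurable_rel _ _)
    · exact .forall fun a => .forall fun b => (measurable_rel _ _).imp ((measurable_rel _ _).imp measurable_const)
    · exact .forall fun a => .forall fun b => .forall fun c => (measurable_rel _ _).imp ((measurable_rel _ _).imp (measurable_rel _ _))
  invariant := by
    intro M N h ⟨h1, h2, h3⟩
    obtain ⟨σ, -, hσ⟩ := iso_iff.1 h
    have key : ∀ a b, rel N Language.leSymb ![σ a, σ b] ↔ rel M Language.leSymb ![a, b] :=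
      fun a b => by rw [← comp2]; exact hσ _ _ _
    refine ⟨fun a b => ?_, fun a b => ?_, fun a b c => ?_⟩
    · obtain ⟨a, rfl⟩ := σ.surjective a
      obtain ⟨b, rfl⟩ := σ.surjective b
      simp only [key]; exact h1 a b
    · obtain ⟨a, rfl⟩ := σ.surjective a
      obtain ⟨b, rfl⟩ := σ.surjective b
      simp only [key]; intro p q; rw [h2 a b p q]
    · obtain ⟨a, rfl⟩ := σ.surjective a
      obtain ⟨b, rfl⟩ := σ.surjective b
      obtain ⟨c, rfl⟩ := σ.surjective c
      simp only [key]; exact h3 a b c

theorem not_reduces_linearOrders (C : Cls Language.graph) (hC : ∀ T : SimpleGraph ℕ, T.IsTree → T.structure ∈ C.carrier) :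
    ¬ GroupoidReduces C clsLO := by
  intro h
  have hL : Countable Language.order.Symbols := inferInstance
  obtain ⟨M, a, ha, hM⟩ := Pool.Agent.Results.MP_8b3519_lc.LinearOrders.result C hC _ hL clsLO h
    (fun _ => 2) (fun _ M v => rel M.1 Language.leSymb v)
    (fun _ v => measurableSet_setOfPred.2 ((measurable_rel _ _).comp measurable_subtype_coe))
    (fun _ g M v => by
      change rel M.1 _ (g.symm ∘ g ∘ v) ↔ _
      have : g.symm ∘ g ∘ v = v := funext fun i => by simp
      rw [this])
  have := hM 0 ![0, 1] ![1, 0] (by decide) (by decide)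
  rw [comp2, comp2] at this
  have e : a 0 = a 1 := by
    rcases M.2.1 (a 0) (a 1) with h | h
    · exact M.2.2.1 _ _ h (this.1 h)
    · exact M.2.2.1 _ _ (this.2 h) h
  exact absurd (ha e) (by decide)

end Pool.Agent.P.MP_8b3519_lc
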