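import Pool.Agent.P.MP_8b3519_lc.LoSpace

/-!
A cocycle over the action on matrices with reals which acts on structures without infinite
indiscernible sets is generically trivial along the permutations of the rows.
-/

namespace Pool.Agent.P.MP_8b3519_lc

open Filter Topology Set

variable {c : GG × XX → Equiv.Perm ℕ}

theorem step_one2 (hc : IsCoc c) (k : ℕ) {U : Set XX} (hU : IsOpen U) (hne : U.Nonempty) :
    ∃ z₀ N, BB z₀ N ⊆ U ∧ ∀ (γ : GG) (z : XX), (∀ i < N, γ.r i = i) → (∀ i < N, γ.s i = i) →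
      z ∈ BB z₀ N → Ar c k k (γ, z) := by
  obtain ⟨z₀, hz, h1⟩ := hc.exists_one k hU hne
  obtain ⟨N, hN⟩ := exists_box_one2 (isOpen_Ar c k k) h1
  obtain ⟨M, hM, hMU⟩ := exists_BB hU hz N
  exact ⟨z₀, M, hMU, fun g z hg hg' hz => hN g z (fun i hi => hg i (hi.trans_le hM))
    (fun i hi => hg' i (hi.trans_le hM)) (BB_mono hM hz)⟩

theorem IsCoc.slice' (hc : IsCoc c) (γ : GG) (k : ℕ) {U : Set XX} (hU : IsOpen U)
    (hne : U.Nonempty) : ∃ u ∈ U, ∃ a, Ar c a k (γ, u) := by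
  obtain ⟨x, hx⟩ := hne
  obtain ⟨w, hw, a, ha⟩ := hc.slice γ⁻¹ k (isOpen_smul_mem2 γ⁻¹ hU) ⟨γ • x, by simpa using hx⟩
  have := hc.inv ha
  rw [inv_inv] at this
  exact ⟨_, hw, a, this⟩

/-- The element `a` over `y` is a copy, along `d`, of the element `k` over the box. -/
def Copy (c : GG × XX → Equiv.Perm ℕ) (k N : ℕ) (z₀ : XX) (d : GG) (a : ℕ) (y : XX) : Prop :=
  (∀ i < N, d.s i = i) ∧ d • y ∈ BB z₀ N ∧ Ar c a k (d, y)

theorem isOpen_copy (c : GG × XX → Equiv.Perm ℕ) (k N : ℕ) (z₀ : XX) (d : GG) (a : ℕ) :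
    IsOpen {y | Copy c k N z₀ d a y} :=
  isOpen_const.and ((isOpen_smul_mem2 d (isOpen_BB z₀ N)).inter (isOpen_slice2 d (isOpen_Ar c a k)))

theorem Copy.row {k N : ℕ} {z₀ y : XX} {d : GG} {a : ℕ} (h : Copy c k N z₀ d a y) {i n : ℕ}
    (hi : i < N) (hn : n < N) : y.A (d.r⁻¹ i) n = z₀.A i n := by
  have := h.2.1.1 i hi n hn
  rwa [smul_A, Equiv.Perm.inv_eq_iff_eq.2 (h.1 n hn).symm] at this

theorem transport (hc : IsCoc c) {k N : ℕ} {z₀ : XX}
    (H1 : ∀ (γ : GG) (z : XX), (∀ i < N, γ.r i = i) → (∀ i < N, γ.s i = i) →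
      z ∈ BB z₀ N → Ar c k k (γ, z)) {y₁ : XX} {O : Set XX} (hO : IsOpen O) (hy : y₁ ∈ O) {n : ℕ}
    {d d' : Fin n → GG} {a a' : Fin n → ℕ} (h : ∀ j, Copy c k N z₀ (d j) (a j) y₁)
    (h' : ∀ j, Copy c k N z₀ (d' j) (a' j) y₁)
    (hd : ∀ j j', ∀ i < N, ∀ i' < N, (d j).r⁻¹ i = (d j').r⁻¹ i' → j = j')
    (hd' : ∀ j j', ∀ i < N, ∀ i' < N, (d' j).r⁻¹ i = (d' j').r⁻¹ i' → j = j') :
    ∃ (τ : GG) (y₂ : XX), y₂ ∈ O ∧ τ • y₂ ∈ O ∧ ∀ j, Ar c (a j) (a' j) (τ, y₂) := by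
  classical
  have hO' : IsOpen ((O ∩ ⋂ j, {y | Copy c k N z₀ (d j) (a j) y}) ∩
      ⋂ j, {y | Copy c k N z₀ (d' j) (a' j) y}) :=
    (hO.inter (isOpen_iInter_of_finite fun j => isOpen_copy _ _ _ _ _ _)).inter
      (isOpen_iInter_of_finite fun j => isOpen_copy _ _ _ _ _ _)
  choose B hB using fun j => exists_bound (fun i => (d j).r⁻¹ i) N
  choose B' hB' using fun j => exists_bound (fun i => (d' j).r⁻¹ i) N
  obtain ⟨M, hM, hMO⟩ := exists_BB hO' ⟨⟨hy, mem_iInter.2 h⟩, mem_iInter.2 h'⟩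
    (Finset.univ.sup B + Finset.univ.sup B' + N)
  have b1 : ∀ j, ∀ i < N, (d j).r⁻¹ i < M := fun j i hi => by
    have h1 := hB j i hi
    have h2 : B j ≤ Finset.univ.sup B := Finset.le_sup (Finset.mem_univ j)
    omega
  have b2 : ∀ j, ∀ i < N, (d' j).r⁻¹ i < M := fun j i hi => by
    have h1 := hB' j i hi
    have h2 : B' j ≤ Finset.univ.sup B' := Finset.le_sup (Finset.mem_univ j)
    omega
  have hφ : ∀ p, ∃ q, (∃ j, ∃ i < N, p = (d' j).r⁻¹ i ∧ q = (d j).r⁻¹ i) ∨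
      ((¬ ∃ j, ∃ i < N, p = (d' j).r⁻¹ i) ∧ q = M + p) := fun p => by
    by_cases e : ∃ j, ∃ i < N, p = (d' j).r⁻¹ i
    · obtain ⟨j, i, hi, e⟩ := e
      exact ⟨_, Or.inl ⟨j, i, hi, e, rfl⟩⟩
    · exact ⟨_, Or.inr ⟨e, rfl⟩⟩
  choose φ hφ using hφ
  obtain ⟨s, hs⟩ := exists_inv_eq M φ (by
    intro p _ p' _ e
    obtain ⟨j, i, hi, e1, e2⟩ | ⟨-, e2⟩ := hφ p
    · obtain ⟨j', i', hi', e1', e2'⟩ | ⟨-, e2'⟩ := hφ p'
      · have e3 : (d j).r⁻¹ i = (d j').r⁻¹ i' := by rw [← e2, ← e2', e]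
        obtain rfl := hd j j' i hi i' hi' e3
        rw [e1, e1', (d j).r⁻¹.injective e3]
      · have := b1 j i hi
        omega
    · obtain ⟨j', i', hi', e1', e2'⟩ | ⟨-, e2'⟩ := hφ p'
      · have := b1 j' i' hi'
        omega
      · omega)
  have hs1 : ∀ j, ∀ i < N, s.p ((d j).r⁻¹ i) = (d' j).r⁻¹ i := fun j i hi => by
    have e := hs _ (b2 j i hi)
    obtain ⟨j', i', hi', e1, e2⟩ | ⟨e1, -⟩ := hφ ((d' j).r⁻¹ i)
    · obtain rfl := hd' j j' i hi i' hi' e1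
      obtain rfl := (d' j).r⁻¹.injective e1
      rw [e2] at e
      exact (Equiv.Perm.inv_eq_iff_eq.1 e).symm
    · exact absurd ⟨j, i, hi, rfl⟩ e1
  obtain ⟨t, ht⟩ := exists_inv_eq M (fun n => if n < N then n else M + n) (by
    intro i hi j hj e
    split_ifs at e <;> omega)
  have ht1 : ∀ n < N, t.p⁻¹ n = n := fun n hn => by
    have := ht n (by omega)
    simpa only [hn, if_true] using this
  have ht2 : ∀ n < N, t.p n = n := fun n hn => (Equiv.Perm.inv_eq_iff_eq.1 (ht1 n hn)).symm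
  let y₂ : XX := XX.mk (fun r n => if n < M then (if r < M then y₁.A r n else y₁.A (s.p r) n)
    else y₁.A (s.p r) (n - M)) (glue M y₁.b y₁.b)
  let τ : GG := GG.mk s t
  have m1 : y₂ ∈ BB y₁ M := ⟨fun i hi n hn => by simp [y₂, hi, hn], glue_mem _ _ le_rfl⟩
  have m2 : τ • y₂ ∈ BB y₁ M := by
    refine ⟨fun i hi n hn => ?_, fun n hn j _ => ?_⟩
    · rw [smul_A]
      change y₂.A (s.p⁻¹ i) (t.p⁻¹ n) = _
      rw [ht n hn]
      have e0 : s.p (s.p⁻¹ i) = i := by simp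
      split_ifs with hN
      · simp only [y₂, XX.A_mk, hn, if_true, e0]
        split_ifs with hlt
        · rw [hs i hi] at hlt ⊢
          obtain ⟨j, i', hi', e1, e2⟩ | ⟨-, e2⟩ := hφ i
          · rw [e2, (h j).row hi' hN, e1, (h' j).row hi' hN]
          · omega
        · rfl
      · simp only [y₂, XX.A_mk, show ¬ (M + n < M) by omega, if_false, e0]
        simp
    · rw [smul_b]
      change y₂.b (t.p⁻¹ n) j = _
      rw [ht n hn]
      split_ifs with h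
      · simp only [y₂, XX.b_mk]
        rw [glue_lt _ _ hn]
      · simp only [y₂, XX.b_mk]
        rw [glue_add]
  obtain ⟨⟨p1, p2⟩, -⟩ := hMO m1
  obtain ⟨⟨q1, -⟩, q3⟩ := hMO m2
  refine ⟨τ, y₂, p1, q1, fun j => ?_⟩
  obtain ⟨c1, c2, c3⟩ : Copy c k N z₀ (d j) (a j) y₂ := mem_iInter.1 p2 j
  obtain ⟨e1, e2, e3⟩ : Copy c k N z₀ (d' j) (a' j) (τ • y₂) := mem_iInter.1 q3 j
  have a1 : Ar c k k (d' j * τ * (d j)⁻¹, d j • y₂) := by
    refine H1 _ _ (fun i hi => ?_) (fun i hi => ?_) c2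
    · simp only [τ, GG.r_mul, GG.r_inv, GG.r_mk, Equiv.Perm.mul_apply, hs1 j i hi]
      simp
    · simp only [τ, GG.s_mul, GG.s_inv, GG.s_mk, Equiv.Perm.mul_apply,
        Equiv.Perm.inv_eq_iff_eq.2 (c1 i hi).symm, ht2 i hi, e1 i hi]
  have a2 := hc.comp c3 a1
  have a3 : Ar c k (a' j) ((d' j)⁻¹, (d' j * τ * (d j)⁻¹ * d j) • y₂) := by
    rw [inv_mul_cancel_right, mul_smul]
    exact hc.inv e3
  have a4 := hc.comp a2 a3
  rwa [inv_mul_cancel_right, inv_mul_cancel_left] at a4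

section Cases

variable (hc : IsCoc c) {ar : ℕ → ℕ} {T : ∀ m, (Fin (ar m) → ℕ) → XX → Prop}
  (hT : ∀ m, IsFact c (T m))
  (hno : ∀ (x : XX) (a : ℕ → ℕ), Function.Injective a → ¬ ∀ (m : ℕ) (u v : Fin (ar m) → ℕ),
    Function.Injective u → Function.Injective v → (T m (a ∘ u) x ↔ T m (a ∘ v) x))
  {k N : ℕ} {z₀ : XX}
  (H1 : ∀ (γ : GG) (z : XX), (∀ i < N, γ.r i = i) → (∀ i < N, γ.s i = i) →
      z ∈ BB z₀ N → Ar c k k (γ, z))

include hc hT hno H1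

theorem disjoint_case {γ : GG} {x : XX} {l : ℕ} (hx : x ∈ BB z₀ N) (hy : γ • x ∈ BB z₀ N)
    (hs : ∀ i < N, γ.s i = i) (hr : ∀ i < N, N ≤ γ.r i) (ha : Ar c k l (γ, x)) : l = k := by
  by_contra hlk
  have hW : IsOpen ({y | Copy c k N z₀ 1 k y} ∩ {y | Copy c k N z₀ γ⁻¹ l y}) :=
    (isOpen_copy _ _ _ _ _ _).inter (isOpen_copy _ _ _ _ _ _)
  have hWne : ({y | Copy c k N z₀ 1 k y} ∩ {y | Copy c k N z₀ γ⁻¹ l y}).Nonempty :=
    ⟨γ • x, ⟨fun _ _ => rfl, by rwa [one_smul], H1 _ _ (fun _ _ => rfl) (fun _ _ => rfl) hy⟩,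
      fun i hi => Equiv.Perm.inv_eq_iff_eq.2 (hs i hi).symm, by rwa [inv_smul_smul], hc.inv ha⟩
  have G1 : ∀ᶠ y in residual XX, ∀ P, y ∈ BB z₀ N → ∃ (P' : ℕ) (d : GG) (a : ℕ), P ≤ P' ∧
      Copy c k N z₀ d a y ∧ ∀ i < N, d.r⁻¹ i = P' + i := by
    refine eventually_countable_forall.2 fun P => residual_of_dense' fun W hW' hne => ?_
    by_cases e : (W ∩ BB z₀ N).Nonempty
    · obtain ⟨z, hz⟩ := e
      obtain ⟨P', hP, hPW⟩ := exists_BB hW' hz.1 P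
      obtain ⟨u, hu⟩ := exists_inv_eq N (fun i => P' + i) (fun i _ j _ e => by omega)
      obtain ⟨w, ⟨w1, w2⟩, a, ha⟩ := hc.slice' (GG.mk u 1) k
        (hW'.inter (isOpen_smul_mem2 (GG.mk u 1) (isOpen_BB z₀ N)))
        ⟨XX.mk (glue P' z.A z₀.A) z.b, hPW ⟨glue_mem _ _ le_rfl, self_mem_Bx _ _⟩, by
          change GG.mk u 1 • XX.mk (glue P' z.A z₀.A) z.b ∈ BB z₀ N
          rw [mk_one_smul]
          refine ⟨fun i hi j _ => ?_, hz.2.2⟩
          rw [XX.A_mk, smul_ap, hu i hi, glue_add]⟩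
      exact ⟨W ∩ {y | Copy c k N z₀ (GG.mk u 1) a y}, hW'.inter (isOpen_copy _ _ _ _ _ _),
        ⟨w, w1, fun _ _ => rfl, w2, ha⟩, inter_subset_left,
        fun y hy _ => ⟨P', _, a, hP, hy.2, hu⟩⟩
    · exact ⟨W, hW', hne, subset_rfl, fun y hy hy' => absurd ⟨y, hy, hy'⟩ e⟩
  have G3 : ∀ᶠ x in residual XX, ∀ m v, (T m v x → Forces x (T m v)) ∧
      (¬ T m v x → Forces x (fun y => ¬ T m v y)) :=
    eventually_countable_forall.2 fun i => eventually_countable_forall.2 fun v =>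
      (generic ((hT i).bm v)).and (generic ((hT i).not.bm v))
  obtain ⟨y₁, ⟨w1, w2⟩, g1, g3⟩ := exists_of_residual hW hWne (G1.and G3)
  have hy₁ : y₁ ∈ BB z₀ N := by simpa using w1.2.1
  choose nxt d a h1 h2 h3 using fun P => g1 P hy₁
  let q : ℕ → ℕ := fun j => Nat.rec 0 (fun _ p => nxt p + N) j
  have q1 : ∀ j, q (j + 1) = nxt (q j) + N := fun _ => rfl
  have q2 : Monotone q := monotone_nat_of_le_succ fun j => by
    have := h1 (q j)
    rw [q1]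
    omega
  have dj : ∀ j j', ∀ i < N, ∀ i' < N, (d (q j)).r⁻¹ i = (d (q j')).r⁻¹ i' → j = j' := by
    intro j j' i hi i' hi' e
    rw [h3 _ i hi, h3 _ i' hi'] at e
    have e1 := h1 (q j)
    have e2 := h1 (q j')
    have e3 := q1 j
    have e4 := q1 j'
    rcases lt_trichotomy j j' with h | h | h
    · have := q2 (show j + 1 ≤ j' from h)
      omega
    · exact h
    · have := q2 (show j' + 1 ≤ j from h)
      omega
  refine hno y₁ (fun j => a (q j)) (fun j j' e => ?_) ?_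
  · by_contra hne
    obtain ⟨τ, y₂, -, -, hτ⟩ := transport hc H1 isOpen_univ (mem_univ y₁) (n := 2)
      (d := fun o => d (q (![j, j'] o))) (a := fun o => a (q (![j, j'] o)))
      (d' := ![1, γ⁻¹]) (a' := ![k, l]) (fun o => h2 _)
      (fun o => by
        fin_cases o
        · exact w1
        · exact w2)
      (fun o o' i hi i' hi' e' => by
        have := dj _ _ i hi i' hi' e'
        fin_cases o <;> fin_cases o' <;> simp_all)
      (fun o o' i hi i' hi' e' => by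
        have e1 := hr i hi
        have e2 := hr i' hi'
        fin_cases o <;> fin_cases o' <;> simp at e' ⊢ <;> omega)
    have t0 : Ar c (a (q j)) k (τ, y₂) := hτ 0
    have t1 : Ar c (a (q j')) l (τ, y₂) := hτ 1
    have e' : a (q j) = a (q j') := e
    rw [e'] at t0
    exact hlk (t1.unique t0)
  · have key : ∀ (m : ℕ) (u v : Fin (ar m) → ℕ), Function.Injective u → Function.Injective v →
        T m ((fun j => a (q j)) ∘ u) y₁ → T m ((fun j => a (q j)) ∘ v) y₁ := by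
      intro m u v hu hv h
      by_contra hn
      obtain ⟨τ, y₂, o1, o2, hτ⟩ := transport hc H1
        ((isOpen_forces (T m ((fun j => a (q j)) ∘ u))).inter
          (isOpen_forces (fun y => ¬ T m ((fun j => a (q j)) ∘ v) y)))
        ⟨(g3 m _).1 h, (g3 m _).2 hn⟩
        (d := fun o => d (q (u o))) (a := fun o => a (q (u o)))
        (d' := fun o => d (q (v o))) (a' := fun o => a (q (v o))) (fun o => h2 _) (fun o => h2 _)
        (fun o o' i hi i' hi' e' => hu (dj _ _ i hi i' hi' e'))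
        (fun o o' i hi i' hi' e' => hv (dj _ _ i hi i' hi' e'))
      exact ((hT m).transfer hτ o1.1).not_forces_not o2.2
    exact fun m u v hu hv => ⟨key m u v hu hv, key m v u hv hu⟩

theorem general_case {γ : GG} {x : XX} {l : ℕ} (hx : x ∈ BB z₀ N) (hy : γ • x ∈ BB z₀ N)
    (hs : ∀ i < N, γ.s i = i) (ha : Ar c k l (γ, x)) : l = k := by
  have hW : IsOpen ((BB z₀ N ∩ {y : XX | γ • y ∈ BB z₀ N}) ∩ {z | (γ, z) ∈ {b | Ar c k l b}}) :=
    ((isOpen_BB z₀ N).inter (isOpen_smul_mem2 γ (isOpen_BB z₀ N))).inter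
      (isOpen_slice2 γ (isOpen_Ar c k l))
  obtain ⟨P₀, hP₀⟩ := exists_bound (fun i => γ.r⁻¹ i) N
  obtain ⟨P, hP, hPW⟩ := exists_BB hW (z := x) ⟨⟨hx, hy⟩, ha⟩ (P₀ + N)
  obtain ⟨u, hu⟩ := exists_inv_eq N (fun i => P + i) (fun i _ j _ e => by omega)
  obtain ⟨w, ⟨⟨⟨w1, w2⟩, w3⟩, w4⟩, m, hm⟩ := hc.slice (GG.mk u 1) k
    (hW.inter (isOpen_smul_mem2 (GG.mk u 1) (isOpen_BB z₀ N)))
    ⟨XX.mk (glue P x.A z₀.A) x.b, hPW ⟨glue_mem _ _ le_rfl, self_mem_Bx _ _⟩, by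
      change GG.mk u 1 • XX.mk (glue P x.A z₀.A) x.b ∈ BB z₀ N
      rw [mk_one_smul]
      refine ⟨fun i hi j _ => ?_, hx.2⟩
      rw [XX.A_mk, smul_ap, hu i hi, glue_add]⟩
  have e1 : m = k := by
    refine disjoint_case hc hT hno H1 w1 w4 (fun i _ => rfl) (fun i hi => ?_) hm
    by_contra hlt
    have := hu _ (not_le.1 hlt)
    simp only [GG.r_mk] at this
    simp at this
    omega
  subst e1
  have b1 := hc.inv hm
  have b2 : Ar c m l (γ, (GG.mk u 1)⁻¹ • GG.mk u 1 • w) := by rw [inv_smul_smul]; exact w3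
  refine disjoint_case hc hT hno H1 w4 ?_ (fun i hi => ?_) (fun i hi => ?_) (hc.comp b1 b2)
  · rw [mul_smul, inv_smul_smul]
    exact w2
  · simpa using hs i hi
  · simp only [GG.r_mul, GG.r_inv, GG.r_mk, Equiv.Perm.mul_apply, hu i hi]
    by_contra hlt
    have := hP₀ _ (not_le.1 hlt)
    simp at this
    omega

theorem all_case {γ : GG} {x : XX} (hx : x ∈ BB z₀ N) (hy : γ • x ∈ BB z₀ N)
    (hs : ∀ i < N, γ.s i = i) : Ar c k k (γ, x) := by
  have hO : IsOpen (({a : GG × XX | a.2 ∈ BB z₀ N} ∩ {a : GG × XX | a.1 • a.2 ∈ BB z₀ N}) ∩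
      {a : GG × XX | ∀ i < N, a.1.s i = i}) :=
    (((isOpen_BB z₀ N).preimage continuous_snd).inter
      ((isOpen_BB z₀ N).preimage (f := fun a : GG × XX => a.1 • a.2) (by fun_prop))).inter
      (isOpen_forall_lt N fun i =>
        isOpen_eq_const (SG.cev (GG.c2.comp continuous_fst) i) (fun b => b = i))
  refine forces_of_not_forces_not (hc.bm k k) hO (fun w hw hn => ?_) (z := (γ, x)) ⟨⟨hx, hy⟩, hs⟩
  obtain ⟨⟨δ, u⟩, ⟨⟨⟨h1, h2⟩, h3⟩, h4⟩, l, hl⟩ :=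
    hc.dense (hO.inter (isOpen_forces (fun v => ¬ c v k = k))) ⟨w, hw, hn⟩ k
  obtain rfl := general_case hc hT hno H1 h1 h2 h3 hl
  exact Forces.not_forces_not hl h4

end Cases

/-- All arrows from `U` to `U'` which only permute rows generically send `j` to `k`. -/
def AllR (c : GG × XX → Equiv.Perm ℕ) (j k : ℕ) (U U' : Set XX) : Prop :=
  ∀ (g : SG) (x : XX), x ∈ U → GG.mk g 1 • x ∈ U' → Ar c j k (GG.mk g 1, x)

/-- The cocycle is locally trivial along the permutations of the rows. -/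
def GoodR (c : GG × XX → Equiv.Perm ℕ) : Prop :=
  ∀ (k : ℕ) (U : Set XX), IsOpen U → U.Nonempty →
    ∃ V, IsOpen V ∧ V.Nonempty ∧ V ⊆ U ∧ AllR c k k V V

theorem good_dense2 (hc : IsCoc c) {ar : ℕ → ℕ} {T : ∀ m, (Fin (ar m) → ℕ) → XX → Prop}
    (hT : ∀ m, IsFact c (T m))
    (hno : ∀ (x : XX) (a : ℕ → ℕ), Function.Injective a → ¬ ∀ (m : ℕ) (u v : Fin (ar m) → ℕ),
      Function.Injective u → Function.Injective v → (T m (a ∘ u) x ↔ T m (a ∘ v) x)) :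
    GoodR c := by
  intro k U hU hne
  obtain ⟨z₀, N, h1, H1⟩ := step_one2 hc k hU hne
  exact ⟨BB z₀ N, isOpen_BB _ _, ⟨_, self_mem_BB _ _⟩, h1, fun g x hx hy =>
    all_case hc hT hno H1 hx hy fun _ _ => rfl⟩

end Pool.Agent.P.MP_8b3519_lc
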