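import Mathlib

/-!
The tree coding a three-dimensional array of bits.
-/

namespace Pool.Agent.P.MP_8b3519_lc

open Function

/-- The graph of a parent function. -/
def pgraph {V : Type} (p : V → V) : SimpleGraph V := SimpleGraph.fromRel fun u v => p u = v

theorem pgraph_adj {V : Type} {p : V → V} {u v : V} :
    (pgraph p).Adj u v ↔ u ≠ v ∧ (p u = v ∨ p v = u) := SimpleGraph.fromRel_adj _ _ _

section Par

variable {V : Type} {p : V → V} {r : V} {rk : V → ℕ} (hr : p r = r)
  (h : ∀ v, v ≠ r → rk (p v) < rk v)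

include h in
theorem adj_par {v : V} (hv : v ≠ r) : (pgraph p).Adj v (p v) :=
  pgraph_adj.2 ⟨fun e => by have := h v hv; rw [← e] at this; omega, Or.inl rfl⟩

include hr h

theorem rk_par_le (v : V) : rk (p v) ≤ rk v := by
  by_cases hv : v = r
  · rw [hv, hr]
  · exact (h v hv).le

theorem rk_iter_le (n : ℕ) (v : V) : rk (p^[n] v) ≤ rk v := by
  induction n with
  | zero => exact le_rfl
  | succ n ih => rw [iterate_succ_apply']; exact (rk_par_le hr h _).trans ih

theorem pgraph_isTree : (pgraph p).IsTree := by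
  have reach : ∀ n v, rk v = n → (pgraph p).Reachable v r := by
    intro n
    induction n using Nat.strong_induction_on with
    | _ n ih =>
      intro v hv
      by_cases e : v = r
      · rw [e]
      · exact (adj_par h e).reachable.trans (ih _ (hv ▸ h v e) _ rfl)
  have : Nonempty V := ⟨r⟩
  refine ⟨⟨fun u v => (reach _ u rfl).trans (reach _ v rfl).symm⟩, ?_⟩
  have key : ∀ u, u ≠ p u → (pgraph p).IsBridge s(u, p u) := by
    intro u hu
    rw [SimpleGraph.isBridge_iff, SimpleGraph.reachable_iff_reflTransGen]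
    intro hre
    have : ∀ w, Relation.ReflTransGen ((pgraph p).deleteEdges {s(u, p u)}).Adj u w →
        ∃ n, p^[n] w = u := by
      intro w hw
      induction hw with
      | refl => exact ⟨0, rfl⟩
      | @tail a b _ hab ih =>
        obtain ⟨n, hn⟩ := ih
        rw [SimpleGraph.deleteEdges_adj, pgraph_adj] at hab
        obtain ⟨⟨_, h1 | h1⟩, h2⟩ := hab
        · cases n with
          | zero =>
            exfalso
            apply h2
            have : a = u := hn
            rw [← h1, this]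
            rfl
          | succ n => exact ⟨n, by rw [← h1]; exact hn⟩
        · exact ⟨n + 1, by rw [iterate_succ_apply, h1]; exact hn⟩
    obtain ⟨n, hn⟩ := this _ hre
    have h1 := rk_iter_le hr h n (p u)
    have h2 := h u (fun e => hu (by rw [e, hr]))
    rw [hn] at h1
    omega
  rw [SimpleGraph.isAcyclic_iff_forall_adj_isBridge]
  intro v w hvw
  obtain ⟨h1, h2 | h2⟩ := pgraph_adj.1 hvw
  · subst h2
    exact key v h1
  · subst h2
    rw [Sym2.eq_swap]
    exact key w h1.symm

theorem map_par {p' : V → V} {φ : V ≃ V} (hr' : p' (φ r) = φ r)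
    (hφ : ∀ u v, (pgraph p).Adj u v → (pgraph p').Adj (φ u) (φ v)) (v : V) :
    φ (p v) = p' (φ v) := by
  have : ∀ n v, rk v = n → φ (p v) = p' (φ v) := by
    intro n
    induction n using Nat.strong_induction_on with
    | _ n ih =>
      intro v hv
      by_cases e : v = r
      · rw [e, hr, hr']
      · obtain ⟨_, h1 | h1⟩ := pgraph_adj.1 (hφ _ _ (adj_par h e))
        · exact h1.symm
        · rw [← ih _ (hv ▸ h v e) _ rfl] at h1
          have h2 := rk_par_le hr h (p v)
          have h3 := h v e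
          rw [φ.injective h1] at h2
          omega
  exact this _ v rfl

end Par

/-- The nodes of the tree. -/
inductive Nd : Type
  | root : Nd
  | row (i : ℕ) : Nd
  | cell (i n m : ℕ) : Nd
  | leaf (i n m : ℕ) : Nd

instance : Countable Nd := by
  let d : Unit ⊕ ℕ ⊕ (ℕ × ℕ × ℕ) ⊕ (ℕ × ℕ × ℕ) → Nd := fun u => match u with
    | .inl _ => .root
    | .inr (.inl i) => .row i
    | .inr (.inr (.inl (i, n, m))) => .cell i n m
    | .inr (.inr (.inr (i, n, m))) => .leaf i n m
  refine Surjective.countable (f := d) ?_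
  rintro (_ | _ | _ | _)
  · exact ⟨.inl (), rfl⟩
  · exact ⟨.inr (.inl _), rfl⟩
  · exact ⟨.inr (.inr (.inl (_, _, _))), rfl⟩
  · exact ⟨.inr (.inr (.inr (_, _, _))), rfl⟩

instance : Infinite Nd := Infinite.of_injective Nd.row fun _ _ e => Nd.row.inj e

/-- The parent function. -/
def par (β : ℕ → ℕ → ℕ → Bool) : Nd → Nd
  | .root => .root
  | .row _ => .root
  | .cell i _ 0 => .row i
  | .cell i n (m + 1) => .cell i n m
  | .leaf i n m => .cell i n (if β i n m then 2 * m else 2 * m + 1)

/-- A rank. -/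
def rank : Nd → ℕ
  | .root => 0
  | .row _ => 1
  | .cell _ _ m => m + 2
  | .leaf _ _ m => 2 * m + 4

theorem rank_par (β : ℕ → ℕ → ℕ → Bool) (v : Nd) (hv : v ≠ .root) : rank (par β v) < rank v := by
  rcases v with _ | i | ⟨i, n, _ | m⟩ | ⟨i, n, m⟩
  · exact absurd rfl hv
  · simp [par, rank]
  · simp [par, rank]
  · simp [par, rank]
  · simp only [par, rank]
    split_ifs <;> omega

theorem par_eq_root {β : ℕ → ℕ → ℕ → Bool} {v : Nd} (h : par β v = .root) :
    v = .root ∨ ∃ i, v = .row i := by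
  rcases v with _ | i | ⟨i, n, _ | m⟩ | ⟨i, n, m⟩ <;> simp [par] at h ⊢

theorem par_eq_row {β : ℕ → ℕ → ℕ → Bool} {v : Nd} {i : ℕ} (h : par β v = .row i) :
    ∃ n, v = .cell i n 0 := by
  rcases v with _ | i | ⟨i, n, _ | m⟩ | ⟨i, n, m⟩ <;> simp [par] at h ⊢
  exact h

theorem par_eq_cell {β : ℕ → ℕ → ℕ → Bool} {v : Nd} {i n m : ℕ} (h : par β v = .cell i n m) :
    v = .cell i n (m + 1) ∨
      ∃ j, v = .leaf i n j ∧ (if β i n j then 2 * j else 2 * j + 1) = m := by
  rcases v with _ | i | ⟨i, n, _ | m⟩ | ⟨i, n, m⟩ <;> simp only [par, reduceCtorEq] at h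
  · obtain ⟨rfl, rfl, rfl⟩ := Nd.cell.inj h
    exact Or.inl rfl
  · obtain ⟨rfl, rfl, h'⟩ := Nd.cell.inj h
    exact Or.inr ⟨m, rfl, h'⟩

theorem par_ne_leaf {β : ℕ → ℕ → ℕ → Bool} {v : Nd} {i n m : ℕ} : par β v ≠ .leaf i n m := by
  rcases v with _ | i | ⟨i, n, _ | m⟩ | ⟨i, n, m⟩ <;> simp [par]

theorem big_iff (β : ℕ → ℕ → ℕ → Bool) (v : Nd) :
    {w | (pgraph (par β)).Adj v w}.Infinite ↔ v = .root ∨ ∃ i, v = .row i := by
  rcases v with _ | i | ⟨i, n, m⟩ | ⟨i, n, m⟩
  · refine iff_of_true (Set.infinite_of_injective_forall_mem (f := Nd.row)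
      (fun _ _ e => Nd.row.inj e) fun i => ?_) (Or.inl rfl)
    simp [pgraph_adj, par]
  · refine iff_of_true (Set.infinite_of_injective_forall_mem (f := fun n => Nd.cell i n 0)
      (fun _ _ e => (Nd.cell.inj e).2.1) fun n => ?_) (Or.inr ⟨i, rfl⟩)
    simp [pgraph_adj, par]
  · refine iff_of_false (Set.not_infinite.2 (Set.Finite.subset (s := {par β (.cell i n m),
      .cell i n (m + 1), .leaf i n (m / 2)}) (Set.toFinite _) fun w hw => ?_)) (by simp)
    obtain ⟨_, h | h⟩ := pgraph_adj.1 hw
    · exact Or.inl h.symm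
    · obtain h | ⟨j, h1, h2⟩ := par_eq_cell h
      · exact Or.inr (Or.inl h)
      · refine Or.inr (Or.inr ?_)
        have : j = m / 2 := by split_ifs at h2 <;> omega
        rw [h1, this]
        rfl
  · refine iff_of_false (Set.not_infinite.2 (Set.Finite.subset (s := {par β (.leaf i n m)})
      (Set.toFinite _) fun w hw => ?_)) (by simp)
    obtain ⟨_, h | h⟩ := pgraph_adj.1 hw
    · exact h.symm
    · exact absurd h par_ne_leaf

theorem decode {β β' : ℕ → ℕ → ℕ → Bool} (φ : Nd ≃ Nd)
    (hφ : ∀ u v, (pgraph (par β)).Adj u v ↔ (pgraph (par β')).Adj (φ u) (φ v)) (i : ℕ) :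
    ∃ i', ∀ n, ∃ n', ∀ m, β' i' n' m = β i n m := by
  have big : ∀ v, (v = .root ∨ ∃ i, v = .row i) → (φ v = .root ∨ ∃ i, φ v = .row i) := by
    intro v hv
    rw [← big_iff β] at hv
    rw [← big_iff β']
    refine Set.Infinite.mono ?_ (hv.image (f := φ) φ.injective.injOn)
    rintro _ ⟨w, hw, rfl⟩
    exact (hφ _ _).1 hw
  have hroot : φ .root = .root := by
    obtain h | ⟨j, h⟩ := big _ (Or.inl rfl)
    · exact h
    · exfalso
      have e : ∀ a, φ (.row a) = .root := fun a => by
        have h1 : (pgraph (par β')).Adj (φ .root) (φ (.row a)) :=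
          (hφ _ _).1 (by simp [pgraph_adj, par])
        obtain h2 | ⟨j', h2⟩ := big _ (Or.inr ⟨a, rfl⟩)
        · exact h2
        · rw [h, h2] at h1
          simp [pgraph_adj, par] at h1
      have := φ.injective ((e 0).trans (e 1).symm)
      simp at this
  have hp : ∀ v, φ (par β v) = par β' (φ v) :=
    map_par (r := .root) (rk := rank) rfl (rank_par β) (by rw [hroot]; rfl)
      fun u v h => (hφ u v).1 h
  obtain ⟨i', hi⟩ : ∃ i', φ (.row i) = .row i' := by
    obtain h | h := par_eq_root ((hp (.row i)).symm.trans hroot)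
    · have := φ.injective (h.trans hroot.symm)
      simp at this
    · exact h
  refine ⟨i', fun n => ?_⟩
  obtain ⟨n', hn⟩ := par_eq_row ((hp (.cell i n 0)).symm.trans hi)
  have hc : ∀ m, φ (.cell i n m) = .cell i' n' m := by
    intro m
    induction m with
    | zero => exact hn
    | succ m ih =>
      obtain h | ⟨j, h, _⟩ := par_eq_cell ((hp (.cell i n (m + 1))).symm.trans ih)
      · exact h
      · exact absurd ((hp (.cell i n (m + 2))).symm.trans h) par_ne_leaf
  refine ⟨n', fun m => ?_⟩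
  obtain h | ⟨j, _, h⟩ := par_eq_cell ((hp (.leaf i n m)).symm.trans (hc _))
  · have := φ.injective (h.trans (hc _).symm)
    simp at this
  · have : j = m := by split_ifs at h <;> omega
    subst this
    cases h1 : β' i' n' j <;> cases h2 : β i n j <;> simp [h1, h2] at h ⊢

end Pool.Agent.P.MP_8b3519_lc
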