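import Pool.Agent.P.MP_8b3519_lc.Main
import Pool.Agent.P.MP_8b3519_lc.LoGen
import Pool.Agent.P.MP_8b3519_lc.LoTree

/-!
A Borel reduction of the groupoid of a class containing the trees to the groupoid of a class of
structures yields infinite indiscernible sets.
-/

namespace Pool.Agent.P.MP_8b3519_lc

open Function

/-- An enumeration of the nodes. -/
noncomputable def en : Nd ≃ ℕ := (nonempty_equiv_of_countable (α := Nd) (β := ℕ)).some

/-- The array of bits of a point. -/
def bit (x : XX) (i n : ℕ) : ℕ → Bool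
  | 0 => x.A i n
  | m + 1 => x.b n m

/-- The action of a pair of maps on the nodes. -/
def ndMap (g h : ℕ → ℕ) : Nd → Nd
  | .root => .root
  | .row i => .row (g i)
  | .cell i n m => .cell (g i) (h n) m
  | .leaf i n m => .leaf (g i) (h n) m

/-- The action of a pair of permutations on the nodes. -/
def nd (γ : GG) : Nd ≃ Nd where
  toFun := ndMap γ.r γ.s
  invFun := ndMap γ.r.symm γ.s.symm
  left_inv v := by cases v <;> simp [ndMap]
  right_inv v := by cases v <;> simp [ndMap]

theorem nd_ap (γ : GG) (v : Nd) : nd γ v = ndMap γ.r γ.s v := rfl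

theorem bit_smul (γ : GG) (x : XX) (i n m : ℕ) :
    bit (γ • x) (γ.r i) (γ.s n) m = bit x i n m := by
  cases m with
  | zero => simp [bit, smul_A]
  | succ m => simp [bit, smul_b]

theorem par_nd (γ : GG) (x : XX) (v : Nd) :
    par (bit (γ • x)) (nd γ v) = nd γ (par (bit x) v) := by
  rcases v with _ | i | ⟨i, n, _ | m⟩ | ⟨i, n, m⟩ <;> simp [nd_ap, ndMap, par, bit_smul]

/-- The permutation of `ℕ` induced by a pair of permutations. -/
noncomputable def rho (γ : GG) : Equiv.Perm ℕ := (en.symm.trans (nd γ)).trans en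

theorem rho_ap (γ : GG) (a : ℕ) : rho γ a = en (nd γ (en.symm a)) := rfl

theorem rho_one : rho 1 = 1 := by
  ext a
  rw [rho_ap]
  have : ∀ v, nd 1 v = v := fun v => by cases v <;> rfl
  simp [this]

theorem rho_mul (γ δ : GG) : rho (γ * δ) = rho γ * rho δ := by
  ext a
  have : ∀ v, nd (γ * δ) v = nd γ (nd δ v) := fun v => by cases v <;> rfl
  simp [rho_ap, this]

/-- The parent function on `ℕ`. -/
noncomputable def parN (x : XX) (a : ℕ) : ℕ := en (par (bit x) (en.symm a))

theorem adj_en (x : XX) (u v : Nd) :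
    (pgraph (parN x)).Adj (en u) (en v) ↔ (pgraph (par (bit x))).Adj u v := by
  simp [pgraph_adj, parN]

theorem tree_isTree (x : XX) : (pgraph (parN x)).IsTree :=
  pgraph_isTree (r := en .root) (rk := fun a => rank (en.symm a)) (by simp [parN, par])
    fun v hv => by
      simp only [parN, Equiv.symm_apply_apply]
      exact rank_par _ _ fun e => hv (by rw [← e]; simp)

theorem adj_rho (γ : GG) (x : XX) (a b : ℕ) :
    (pgraph (parN (γ • x))).Adj (rho γ a) (rho γ b) ↔ (pgraph (parN x)).Adj a b := by
  obtain ⟨u, rfl⟩ := en.surjective a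
  obtain ⟨v, rfl⟩ := en.surjective b
  simp [rho_ap, pgraph_adj, par_nd, parN]

theorem ext_Mod {L : FirstOrder.Language.{0, 0}} {M N : ModL L}
    (h1 : ∀ n (g : L.Functions n) x, fn M g x = fn N g x)
    (h2 : ∀ n (r : L.Relations n) x, rel M r x ↔ rel N r x) : M = N := by
  obtain ⟨f, r⟩ := M
  obtain ⟨f', r'⟩ := N
  congr
  · funext n g x
    exact h1 n g x
  · funext n s x
    exact propext (h2 n s x)

/-- The tree of a point, as a structure. -/
@[reducible] noncomputable def treeM (x : XX) : ModL FirstOrder.Language.graph :=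
  (pgraph (parN x)).structure

theorem treeM_smul (γ : GG) (x : XX) : treeM (γ • x) = act (rho γ) (treeM x) := by
  refine ext_Mod (fun n g => g.elim) fun n r v => ?_
  cases r
  change (pgraph (parN (γ • x))).Adj (v 0) (v 1) ↔
    (pgraph (parN x)).Adj ((rho γ).symm (v 0)) ((rho γ).symm (v 1))
  rw [← adj_rho γ x]
  simp

theorem treeM_decode {A A' b : SX} (hb : Injective b) {σ : Equiv.Perm ℕ}
    (h : act σ (treeM (XX.mk A b)) = treeM (XX.mk A' b)) : ∃ n, A' 0 = A n := by
  have key : ∀ a a', (pgraph (parN (XX.mk A' b))).Adj a a' ↔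
      (pgraph (parN (XX.mk A b))).Adj (σ.symm a) (σ.symm a') := fun a a' => by
    have : rel (treeM (XX.mk A' b)) FirstOrder.Language.adj ![a, a'] ↔
        rel (act σ (treeM (XX.mk A b))) FirstOrder.Language.adj ![a, a'] := by rw [h]
    exact this
  obtain ⟨i, hi⟩ := decode (β := bit (XX.mk A' b)) (β' := bit (XX.mk A b))
    ((en.trans σ.symm).trans en.symm) (fun u v => by
      rw [← adj_en, key, ← adj_en]
      simp) 0
  refine ⟨i, funext fun n => ?_⟩
  obtain ⟨n', hn⟩ := hi n
  obtain rfl : n' = n := hb (funext fun m => hn (m + 1))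
  exact (hn 0).symm

instance : MeasurableSpace XX := borel XX
instance : BorelSpace XX := ⟨rfl⟩
instance : MeasurableSpace GG := borel GG
instance : BorelSpace GG := ⟨rfl⟩

theorem continuous_bit (i n m : ℕ) : Continuous fun x : XX => bit x i n m := by
  cases m with
  | zero => exact (continuous_coord i n).comp XX.cA
  | succ m => exact (continuous_coord n m).comp XX.cb

theorem continuous_parN (a : ℕ) : Continuous fun x : XX => parN x a := by
  unfold parN
  rcases en.symm a with _ | i | ⟨i, n, _ | m⟩ | ⟨i, n, m⟩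
  · exact continuous_const (y := en .root)
  · exact continuous_const (y := en .root)
  · exact continuous_const (y := en (.row i))
  · exact continuous_const (y := en (.cell i n m))
  · exact (continuous_of_discreteTopology (f := fun t : Bool =>
      en (.cell i n (if t then 2 * m else 2 * m + 1)))).comp (continuous_bit i n m)

theorem measurable_treeM : Measurable treeM := by
  refine measurable_comap_iff.2 (Measurable.prodMk ?_ ?_)
  · exact measurable_pi_iff.2 fun p => p.2.1.elim
  · refine measurable_pi_iff.2 ?_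
    rintro ⟨n, r, v⟩
    cases r
    change Measurable fun x : XX => (pgraph (parN x)).Adj (v 0) (v 1)
    simp only [pgraph_adj]
    exact measurable_const.and
      (((measurable_of_countable fun m : ℕ => m = v 1).comp (continuous_parN _).measurable).or
        ((measurable_of_countable fun m : ℕ => m = v 0).comp (continuous_parN _).measurable))

theorem continuous_rho (a : ℕ) : Continuous fun γ : GG => rho γ a := by
  simp only [rho_ap, nd_ap]
  rcases en.symm a with _ | i | ⟨i, n, m⟩ | ⟨i, n, m⟩
  · exact continuous_const (y := en .root)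
  · exact (continuous_of_discreteTopology (f := fun t : ℕ => en (.row t))).comp (SG.cev GG.c1 i)
  · exact (continuous_of_discreteTopology (f := fun t : ℕ × ℕ => en (.cell t.1 t.2 m))).comp
      ((SG.cev GG.c1 i).prodMk (SG.cev GG.c2 n))
  · exact (continuous_of_discreteTopology (f := fun t : ℕ × ℕ => en (.leaf t.1 t.2 m))).comp
      ((SG.cev GG.c1 i).prodMk (SG.cev GG.c2 n))

/-- The arity of the fact attached to a symbol. -/
def symAr {L : FirstOrder.Language.{0, 0}} : L.Symbols → ℕ
  | .inl p => p.1 + 1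
  | .inr p => p.1 + 1

/-- The fact attached to a symbol. -/
def symFact {L : FirstOrder.Language.{0, 0}} (M : ModL L) :
    ∀ i : L.Symbols, (Fin (symAr i) → ℕ) → Prop
  | .inl p => fun v : Fin (p.1 + 1) → ℕ => fn M p.2 (Fin.tail v) = v 0
  | .inr p => fun v : Fin (p.1 + 1) → ℕ => rel M p.2 (Fin.tail v)

theorem symFact_act {L : FirstOrder.Language.{0, 0}} (M : ModL L) (σ : Equiv.Perm ℕ)
    (i : L.Symbols) (v : Fin (symAr i) → ℕ) : symFact (act σ M) i (σ ∘ v) ↔ symFact M i v := by
  rcases i with ⟨n, g⟩ | ⟨n, r⟩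
  · revert v
    intro (v : Fin (n + 1) → ℕ)
    change σ (fn M g (σ.symm ∘ σ ∘ Fin.tail v)) = σ (v 0) ↔ fn M g (Fin.tail v) = v 0
    have : σ.symm ∘ σ ∘ Fin.tail v = Fin.tail v := funext fun i => by simp
    rw [this, σ.injective.eq_iff]
  · revert v
    intro (v : Fin (n + 1) → ℕ)
    change rel M r (σ.symm ∘ σ ∘ Fin.tail v) ↔ rel M r (Fin.tail v)
    have : σ.symm ∘ σ ∘ Fin.tail v = Fin.tail v := funext fun i => by simp
    rw [this]

theorem eq_of_symFact {L : FirstOrder.Language.{0, 0}} {M N : ModL L}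
    (h : ∀ i v, symFact M i v ↔ symFact N i v) : M = N := by
  refine ext_Mod (fun n g x => ?_) fun n r x => ?_
  · exact (h (.inl ⟨n, g⟩) (Fin.cons (fn N g x) x : Fin (n + 1) → ℕ)).2 rfl
  · exact h (.inr ⟨n, r⟩) (Fin.cons 0 x : Fin (n + 1) → ℕ)

theorem measurable_symFact {L : FirstOrder.Language.{0, 0}} (i : L.Symbols)
    (v : Fin (symAr i) → ℕ) : Measurable fun M : ModL L => symFact M i v := by
  rcases i with ⟨n, g⟩ | ⟨n, r⟩
  · revert v
    intro (v : Fin (n + 1) → ℕ)
    exact (measurable_of_countable fun m : ℕ => m = v 0).comp (measurable_fn g (Fin.tail v))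
  · exact measurable_rel r _

theorem indisc_of_reduces (C : Cls FirstOrder.Language.graph)
    (hC : ∀ T : SimpleGraph ℕ, T.IsTree → T.structure ∈ C.carrier)
    {L : FirstOrder.Language.{0, 0}} [Countable L.Symbols] (D : Cls L) (h : GroupoidReduces C D)
    (ar : ℕ → ℕ) (R : ∀ m : ℕ, D.carrier → (Fin (ar m) → ℕ) → Prop)
    (hmeas : ∀ m v, MeasurableSet {M : D.carrier | R m M v})
    (hinv : ∀ m (g : Equiv.Perm ℕ) (M : D.carrier) v, R m (D.act g M) (g ∘ v) ↔ R m M v) :
    ∃ (M : D.carrier) (a : ℕ → ℕ), Injective a ∧ ∀ (m : ℕ) (u v : Fin (ar m) → ℕ),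
      Injective u → Injective v → (R m M (a ∘ u) ↔ R m M (a ∘ v)) := by
  by_contra hcon
  obtain ⟨F, hF, ⟨h1, h2⟩, h3⟩ := h
  let cd : XX → C.carrier := fun x => ⟨treeM x, hC _ (tree_isTree x)⟩
  have cd_smul : ∀ γ x, cd (γ • x) = C.act (rho γ) (cd x) := fun γ x =>
    Subtype.ext (treeM_smul γ x)
  have hcd : Measurable cd := measurable_treeM.subtype_mk
  have harr : @Measurable (GG × XX) (Arr C) _ _ fun a => (rho a.1, cd a.2) := by
    let _ := permBorel
    refine Measurable.prodMk ?_ (hcd.comp measurable_snd)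
    exact measurable_comap_iff.2 (measurable_pi_iff.2 fun j =>
      (continuous_rho j).measurable.comp measurable_fst)
  have harr1 : @Measurable XX (Arr C) _ _ fun z => (1, cd z) := by
    let _ := permBorel
    exact Measurable.prodMk measurable_const hcd
  let c : GG × XX → Equiv.Perm ℕ := fun a => (F (rho a.1, cd a.2)).1
  let f : XX → D.carrier := fun z => (F (1, cd z)).2
  have hsrc : ∀ g x, (F (g, x)).2 = (F (1, x)).2 := fun g x => by
    have := congrArg Prod.snd (h2 1 g x).2
    simpa using this
  have hf : ∀ (γ : GG) z, f (γ • z) = D.act (c (γ, z)) (f z) := fun γ z => by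
    have := (h2 (rho γ) 1 (cd z)).1
    rw [hsrc (rho γ), ← cd_smul] at this
    exact this
  have hc : IsCoc c := by
    refine ⟨fun j k => ?_, fun h g x => ?_⟩
    · refine MeasurableSet.baireMeasurableSet (measurableSet_setOfPred.2 ?_)
      exact (measurable_of_countable fun m : ℕ => m = k).comp
        ((measurable_arr_fst D j).comp (hF.comp harr))
    · have := congrArg Prod.fst (h2 (rho g) (rho h) (cd x)).2
      rw [← cd_smul, ← rho_mul] at this
      exact this
  have hfm' : Measurable f := (measurable_arr_snd D).comp (hF.comp harr1)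
  have hfm : Measurable fun z => (f z).1 := measurable_subtype_coe.comp hfm'
  have hT : ∀ m, IsFact c (fun v z => R m (f z) v) := fun m => by
    refine ⟨fun v => (hfm' (hmeas m v)).baireMeasurableSet, fun v g x => ?_⟩
    rw [hf]
    exact hinv m _ _ v
  have hR : ∀ i : L.Symbols, IsFact c (fun v z => symFact (f z).1 i v) := by
    intro i
    refine ⟨fun v => ?_, fun v g x => ?_⟩
    · refine MeasurableSet.baireMeasurableSet (measurableSet_setOfPred.2 ?_)
      exact (measurable_symFact i v).comp hfm
    · rw [hf]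
      exact symFact_act _ _ i v
  obtain ⟨A, A', b, hb, hA, σ, hσ⟩ := generic_iso2 hc
    (good_dense2 hc hT fun x a ha h => hcon ⟨f x, a, ha, h⟩) (ar := symAr) hR
  obtain ⟨g, hg⟩ := h3 (cd (XX.mk A b)) (cd (XX.mk A' b)) ⟨σ, Subtype.ext (eq_of_symFact
    fun i v => by
      have e : v = σ ∘ σ.symm ∘ v := funext fun i => by simp
      rw [e]
      exact (symFact_act _ σ i _).trans (hσ i _).symm)⟩
  obtain ⟨n, hn⟩ := treeM_decode hb (congrArg Subtype.val hg)
  exact hA n hn

end Pool.Agent.P.MP_8b3519_lc
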