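import Pool.Agent.P.MP_8b3519_lc.Triv

/-!
Two copies of the permutation group acting on a matrix of bits together with a real for each column.
-/

namespace Pool.Agent.P.MP_8b3519_lc

open Filter Topology Set

section General

variable {G X : Type*} [Group G] [TopologicalSpace G] [IsTopologicalGroup G] [TopologicalSpace X]
  [MulAction G X] [ContinuousSMul G X] [BaireSpace (G × X)] [BaireSpace (G × G × X)]
  {c : G × X → Equiv.Perm ℕ}

theorem IsCoc.exists_one (hc : IsCoc c) (k : ℕ) {U : Set X} (hU : IsOpen U) (hne : U.Nonempty) :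
    ∃ z ∈ U, Ar c k k (1, z) := by
  obtain ⟨x, hx⟩ := hne
  obtain ⟨⟨g, z⟩, hz, l, hl⟩ := hc.dense (U := {a : G × X | a.2 ∈ U})
    (hU.preimage continuous_snd) ⟨(1, x), hx⟩ k
  have := hc.comp hl (hc.inv hl)
  rw [inv_mul_cancel] at this
  exact ⟨z, hz, this⟩

theorem IsCoc.slice (hc : IsCoc c) (γ : G) (k : ℕ) {U : Set X} (hU : IsOpen U)
    (hne : U.Nonempty) : ∃ u ∈ U, ∃ l, Ar c k l (γ, u) := by
  obtain ⟨z, hz, h1⟩ := hc.exists_one k hU hne
  have hO : IsOpen ({a : G × X | (γ⁻¹ * a.1, a.2) ∈ {b | Ar c k k b}} ∩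
      {a : G × X | (γ⁻¹ * a.1) • a.2 ∈ U}) :=
    ((isOpen_Ar c k k).preimage (f := fun a : G × X => (γ⁻¹ * a.1, a.2)) (by fun_prop)).inter
      (hU.preimage (f := fun a : G × X => (γ⁻¹ * a.1) • a.2) (by fun_prop))
  obtain ⟨⟨g, u⟩, ⟨h2, h3⟩, l, hl⟩ := hc.dense hO ⟨(γ, z), by simpa using h1, by simpa using hz⟩ k
  have h4 : Ar c k k ((γ⁻¹ * g)⁻¹, (γ⁻¹ * g) • u) := hc.inv h2
  have h5 : Ar c k l (g, (γ⁻¹ * g)⁻¹ • (γ⁻¹ * g) • u) := by rwa [inv_smul_smul]
  have h6 := hc.comp h4 h5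
  have e : g * (γ⁻¹ * g)⁻¹ = γ := by group
  rw [e] at h6
  exact ⟨_, h3, l, h6⟩

end General

theorem residual_of_dense' {Y : Type*} [TopologicalSpace Y] {P : Y → Prop}
    (h : ∀ W : Set Y, IsOpen W → W.Nonempty → ∃ V, IsOpen V ∧ V.Nonempty ∧ V ⊆ W ∧ ∀ x ∈ V, P x) :
    ∀ᶠ x in residual Y, P x := by
  have h1 : IsOpen (interior {x | P x}) := isOpen_interior
  have h2 : Dense (interior {x | P x}) := by
    rw [dense_iff_inter_open]
    intro W hW hne
    obtain ⟨V, hV, ⟨x, hx⟩, hVW, hP⟩ := h W hW hne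
    exact ⟨x, hVW hx, interior_maximal hP hV hx⟩
  exact mem_of_superset (residual_of_dense_open h1 h2) interior_subset

/-- Pairs of permutations: one for the rows, one for the columns. -/
def GG : Type := SG × SG

instance : Group GG := inferInstanceAs (Group (SG × SG))
instance : TopologicalSpace GG := inferInstanceAs (TopologicalSpace (SG × SG))
instance : IsTopologicalGroup GG := inferInstanceAs (IsTopologicalGroup (SG × SG))
instance : PolishSpace GG := inferInstanceAs (PolishSpace (SG × SG))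

/-- The pair of permutations. -/
def GG.mk (g h : SG) : GG := (g, h)

/-- The permutation of the rows. -/
def GG.r (γ : GG) : Equiv.Perm ℕ := γ.1.p

/-- The permutation of the columns. -/
def GG.s (γ : GG) : Equiv.Perm ℕ := γ.2.p

@[simp] theorem GG.r_mul (γ δ : GG) : (γ * δ).r = γ.r * δ.r := rfl
@[simp] theorem GG.s_mul (γ δ : GG) : (γ * δ).s = γ.s * δ.s := rfl
@[simp] theorem GG.r_inv (γ : GG) : (γ⁻¹).r = γ.r⁻¹ := rfl
@[simp] theorem GG.s_inv (γ : GG) : (γ⁻¹).s = γ.s⁻¹ := rfl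
@[simp] theorem GG.r_one : (1 : GG).r = 1 := rfl
@[simp] theorem GG.s_one : (1 : GG).s = 1 := rfl
@[simp] theorem GG.r_mk (g h : SG) : (GG.mk g h).r = g.p := rfl
@[simp] theorem GG.s_mk (g h : SG) : (GG.mk g h).s = h.p := rfl

theorem GG.c1 : Continuous fun γ : GG => γ.1 := continuous_fst
theorem GG.c2 : Continuous fun γ : GG => γ.2 := continuous_snd

/-- A matrix of bits and a real for each column. -/
def XX : Type := SX × SX

instance : TopologicalSpace XX := inferInstanceAs (TopologicalSpace (SX × SX))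
instance : SecondCountableTopology XX := inferInstanceAs (SecondCountableTopology (SX × SX))
instance : TopologicalSpace.IsCompletelyMetrizableSpace XX :=
  inferInstanceAs (TopologicalSpace.IsCompletelyMetrizableSpace (SX × SX))

/-- The point with given matrix and given reals. -/
def XX.mk (A b : SX) : XX := (A, b)

/-- The matrix. -/
def XX.A (x : XX) : SX := x.1

/-- The reals. -/
def XX.b (x : XX) : SX := x.2

@[simp] theorem XX.A_mk (A b : SX) : (XX.mk A b).A = A := rfl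
@[simp] theorem XX.b_mk (A b : SX) : (XX.mk A b).b = b := rfl
theorem XX.mk_eta (x : XX) : XX.mk x.A x.b = x := rfl

theorem XX.cA : Continuous XX.A := continuous_fst
theorem XX.cb : Continuous XX.b := continuous_snd
theorem XX.cmk {W : Type*} [TopologicalSpace W] {f g : W → SX} (hf : Continuous f)
    (hg : Continuous g) : Continuous fun w => XX.mk (f w) (g w) := hf.prodMk hg

instance : MulAction GG XX where
  smul γ x := XX.mk (fun i n => x.A (γ.r⁻¹ i) (γ.s⁻¹ n)) (fun n => x.b (γ.s⁻¹ n))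
  one_smul _ := rfl
  mul_smul _ _ _ := rfl

theorem smul_A (γ : GG) (x : XX) (i n : ℕ) : (γ • x).A i n = x.A (γ.r⁻¹ i) (γ.s⁻¹ n) := rfl
theorem smul_b (γ : GG) (x : XX) (n : ℕ) : (γ • x).b n = x.b (γ.s⁻¹ n) := rfl

instance : ContinuousSMul GG XX where
  continuous_smul := by
    refine XX.cmk (continuous_pi fun i => continuous_pi fun n => ?_) (continuous_pi fun n => ?_)
    · exact Continuous.ev (f := fun w : GG × XX => w.2.A (w.1.r⁻¹ i))
        (Continuous.ev (f := fun w : GG × XX => w.2.A) (XX.cA.comp continuous_snd)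
          (SG.cev' (GG.c1.comp continuous_fst) i)) (SG.cev' (GG.c2.comp continuous_fst) n)
    · exact Continuous.ev (f := fun w : GG × XX => w.2.b) (XX.cb.comp continuous_snd)
        (SG.cev' (GG.c2.comp continuous_fst) n)

instance : BaireSpace XX := inferInstance
instance : BaireSpace (GG × XX) := inferInstance
instance : BaireSpace (GG × GG × XX) := inferInstance
instance : BaireSpace (SX × XX) := inferInstance

/-- Basic neighbourhoods. -/
def BB (z : XX) (N : ℕ) : Set XX := {w | w.A ∈ Bx z.A N ∧ w.b ∈ Bx z.b N}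

theorem self_mem_BB (z : XX) (N : ℕ) : z ∈ BB z N := ⟨self_mem_Bx _ _, self_mem_Bx _ _⟩

theorem isOpen_BB (z : XX) (N : ℕ) : IsOpen (BB z N) :=
  ((isOpen_Bx z.A N).preimage XX.cA).inter ((isOpen_Bx z.b N).preimage XX.cb)

theorem Bx_mono {z : SX} {N M : ℕ} (h : N ≤ M) : Bx z M ⊆ Bx z N :=
  fun _ hw i hi j hj => hw i (hi.trans_le h) j (hj.trans_le h)

theorem BB_mono {z : XX} {N M : ℕ} (h : N ≤ M) : BB z M ⊆ BB z N :=
  fun _ hw => ⟨Bx_mono h hw.1, Bx_mono h hw.2⟩

theorem tendsto_of_BB {z : XX} {w : ℕ → XX} (h : ∀ N, w N ∈ BB z N) : Tendsto w atTop (𝓝 z) :=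
  (tendsto_of_Bx fun N => (h N).1).prodMk_nhds (tendsto_of_Bx fun N => (h N).2)

theorem exists_BB {z : XX} {U : Set XX} (hU : IsOpen U) (hz : z ∈ U) (N₀ : ℕ) :
    ∃ N, N₀ ≤ N ∧ BB z N ⊆ U := by
  have : ∃ N, BB z N ⊆ U := by
    by_contra hcon
    push Not at hcon
    choose w hw using fun N => not_subset.1 (hcon N)
    obtain ⟨N, hN⟩ := ((tendsto_of_BB fun N => (hw N).1).eventually (hU.mem_nhds hz)).exists
    exact (hw N).2 hN
  obtain ⟨N, hN⟩ := this
  exact ⟨max N₀ N, le_max_left _ _, (BB_mono (le_max_right _ _)).trans hN⟩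

theorem exists_BY {y : SX × XX} {U : Set (SX × XX)} (hU : IsOpen U) (hy : y ∈ U) :
    ∃ N, ∀ w : SX × XX, w.1 ∈ Bx y.1 N → w.2 ∈ BB y.2 N → w ∈ U := by
  by_contra hcon
  push Not at hcon
  choose w h1 h2 h3 using hcon
  obtain ⟨N, hN⟩ := (((tendsto_of_Bx h1).prodMk_nhds (tendsto_of_BB h2)).eventually
    (hU.mem_nhds hy)).exists
  exact h3 N hN

theorem tendsto_one {g : ℕ → SG} (hg : ∀ N, ∀ i < N, (g N).p i = i) : Tendsto g atTop (𝓝 1) := by
  rw [SG.isClosedEmbedding.isInducing.tendsto_nhds_iff]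
  refine Tendsto.prodMk_nhds (tendsto_pi_nhds.2 fun i => ?_) (tendsto_pi_nhds.2 fun i => ?_)
  · refine tendsto_const_nhds.congr' ?_
    filter_upwards [eventually_gt_atTop i] with N hi
    exact (hg N i hi).symm
  · refine tendsto_const_nhds.congr' ?_
    filter_upwards [eventually_gt_atTop i] with N hi
    change i = (g N).p⁻¹ i
    rw [Equiv.Perm.eq_inv_iff_eq]
    exact hg N i hi

theorem exists_box_one2 {z : XX} {U : Set (GG × XX)} (hU : IsOpen U) (hz : ((1 : GG), z) ∈ U) :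
    ∃ N, ∀ (γ : GG) (w : XX), (∀ i < N, γ.r i = i) → (∀ i < N, γ.s i = i) → w ∈ BB z N →
      (γ, w) ∈ U := by
  by_contra hcon
  push Not at hcon
  choose g w hg hg' hw hn using hcon
  have h1 : Tendsto g atTop (𝓝 1) :=
    (tendsto_one (g := fun N => (g N).1) hg).prodMk_nhds (tendsto_one (g := fun N => (g N).2) hg')
  obtain ⟨N, hN⟩ := ((h1.prodMk_nhds (tendsto_of_BB hw)).eventually (hU.mem_nhds hz)).exists
  exact hn N hN

theorem mk_one_smul (g : SG) (A b : SX) : GG.mk g 1 • XX.mk A b = XX.mk (g • A) b := rfl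

theorem fiber_trans {U U' : Set XX} (hU : IsOpen U) (hU' : IsOpen U') {A A' b : SX}
    (h : XX.mk A b ∈ U) (h' : XX.mk A' b ∈ U') :
    ∃ (g : SG) (u : XX), u ∈ U ∧ GG.mk g 1 • u ∈ U' := by
  obtain ⟨g, A₀, h1, h2⟩ := top_trans (U := {A | XX.mk A b ∈ U}) (U' := {A | XX.mk A b ∈ U'})
    (hU.preimage (XX.cmk continuous_id continuous_const))
    (hU'.preimage (XX.cmk continuous_id continuous_const)) ⟨A, h⟩ ⟨A', h'⟩
  exact ⟨g, XX.mk A₀ b, h1, h2⟩

theorem isOpen_slice2 (γ : GG) {O : Set (GG × XX)} (h : IsOpen O) :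
    IsOpen {z : XX | (γ, z) ∈ O} :=
  h.preimage (f := fun z : XX => (γ, z)) (by fun_prop)

theorem isOpen_smul_mem2 (γ : GG) {U : Set XX} (h : IsOpen U) : IsOpen {z : XX | γ • z ∈ U} :=
  h.preimage (f := fun z : XX => γ • z) (by fun_prop)

end Pool.Agent.P.MP_8b3519_lc
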