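import Pool.Agent.P.MP_8b3519_lc.NoRed

/-!
Two generic points in different orbits have isomorphic images.
-/

namespace Pool.Agent.P.MP_8b3519_lc

open Filter Topology Set

variable {c : SG × SX → Equiv.Perm ℕ}

theorem AllAr.mono {j k : ℕ} {U U' V V' : Set SX} (h : AllAr c j k U U') (h1 : V ⊆ U)
    (h2 : V' ⊆ U') : AllAr c j k V V' := fun g x hx hg => h g x (h1 hx) (h2 hg)

theorem AllAr.symm (hc : IsCoc c) {j k : ℕ} {U U' : Set SX} (h : AllAr c j k U U') :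
    AllAr c k j U' U := fun g x hx hg => by
  have := hc.inv (h g⁻¹ (g • x) hg (by simpa using hx))
  simpa using this

theorem residual_of_dense {P : SX → Prop}
    (h : ∀ W : Set SX, IsOpen W → W.Nonempty → ∃ V, IsOpen V ∧ V.Nonempty ∧ V ⊆ W ∧ ∀ x ∈ V, P x) :
    ∀ᶠ x in residual SX, P x := by
  have h1 : IsOpen (interior {x | P x}) := isOpen_interior
  have h2 : Dense (interior {x | P x}) := by
    rw [dense_iff_inter_open]
    intro W hW hne
    obtain ⟨V, hV, ⟨x, hx⟩, hVW, hP⟩ := h W hW hne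
    exact ⟨x, hVW hx, interior_maximal hP hV hx⟩
  exact mem_of_superset (residual_of_dense_open h1 h2) interior_subset

theorem total_dense (hc : IsCoc c) {k : ℕ} {V : Set SX} (hV : IsOpen V) (hne : V.Nonempty)
    (h : AllAr c k k V V) :
    ∀ᶠ x in residual SX, ∃ k' U', IsOpen U' ∧ x ∈ U' ∧ AllAr c k k' V U' := by
  refine residual_of_dense fun W hW hWne => ?_
  obtain ⟨g₀, x₀, h1, h2⟩ := top_trans hV hW hne hWne
  obtain ⟨⟨g, u⟩, ⟨hu, hgu⟩, k', hk'⟩ := hc.dense ((isOpen_src hV).inter (isOpen_rng hW))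
    ⟨(g₀, x₀), h1, h2⟩ k
  have hO : IsOpen (W ∩ {w | g⁻¹ • w ∈ V ∩ {z | (g, z) ∈ {b | Ar c k k' b}}}) :=
    hW.inter (isOpen_smul_mem g⁻¹ (hV.inter (isOpen_slice g (isOpen_Ar c k k'))))
  refine ⟨_, hO, ⟨g • u, hgu, by simpa using And.intro hu hk'⟩, inter_subset_left,
    fun x hx => ⟨k', _, hO, hx, fun d y hy hdy => ?_⟩⟩
  have a1 : Ar c k k (g⁻¹ * d, y) := h _ _ hy (by rw [mul_smul]; exact hdy.2.1)
  have a2 : Ar c k k' (g, (g⁻¹ * d) • y) := by rw [mul_smul]; exact hdy.2.2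
  have a3 := hc.comp a1 a2
  rwa [mul_inv_cancel_left] at a3

/-- The elements `k` over `x` and `k'` over `x'` correspond to each other. -/
def Corr (c : SG × SX → Equiv.Perm ℕ) (x x' : SX) (k k' : ℕ) : Prop :=
  ∃ U U', IsOpen U ∧ IsOpen U' ∧ x ∈ U ∧ x' ∈ U' ∧ AllAr c k k' U U'

theorem Corr.symm (hc : IsCoc c) {x x' : SX} {k k' : ℕ} (h : Corr c x x' k k') :
    Corr c x' x k' k := by
  obtain ⟨U, U', h1, h2, h3, h4, h5⟩ := h
  exact ⟨U', U, h2, h1, h4, h3, h5.symm hc⟩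

theorem Corr.unique {x x' : SX} {k k' k'' : ℕ} (h : Corr c x x' k k') (h' : Corr c x x' k k'') :
    k' = k'' := by
  obtain ⟨U, U', h1, h2, h3, h4, h5⟩ := h
  obtain ⟨V, V', g1, g2, g3, g4, g5⟩ := h'
  obtain ⟨g, y, hy, hgy⟩ := top_trans (h1.inter g1) (h2.inter g2) ⟨x, h3, g3⟩ ⟨x', h4, g4⟩
  exact (h5 g y hy.1 hgy.1).unique (g5 g y hy.2 hgy.2)

theorem Corr.fact {x x' : SX} {n : ℕ} {R : (Fin n → ℕ) → SX → Prop} (hR : IsFact c R)
    {v w : Fin n → ℕ} (h : ∀ j, Corr c x x' (v j) (w j)) (hx : Forces x (R v)) :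
    ¬ Forces x' (fun y => ¬ R w y) := by
  intro hn
  choose U U' h1 h2 h3 h4 h5 using h
  obtain ⟨g, y, hy, hgy⟩ := top_trans ((isOpen_iInter_of_finite h1).inter (isOpen_forces (R v)))
    ((isOpen_iInter_of_finite h2).inter (isOpen_forces (fun y => ¬ R w y)))
    ⟨x, mem_iInter.2 h3, hx⟩ ⟨x', mem_iInter.2 h4, hn⟩
  exact (hR.transfer (fun j => h5 j g y (mem_iInter.1 hy.1 j) (mem_iInter.1 hgy.1 j))
    hy.2).not_forces_not hgy.2

theorem generic_iso (hc : IsCoc c) {T : ℕ → (Fin 3 → ℕ) → SX → Prop} (hT : ∀ m, IsFact c (T m))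
    (hfun : ∀ m a b e e' x, T m ![a, b, e] x → T m ![a, b, e'] x → e = e')
    (htr : ∀ x a b e, ∃ m, T m ![a, b, e] x ∨ T m ![b, e, a] x ∨ T m ![e, a, b] x)
    {ι : Type} [Countable ι] {ar : ι → ℕ} {R : ∀ i, (Fin (ar i) → ℕ) → SX → Prop}
    (hR : ∀ i, IsFact c (R i)) :
    ∃ x x' : SX, (∀ g : SG, g • x ≠ x') ∧
      ∃ σ : Equiv.Perm ℕ, ∀ i v, R i (σ ∘ v) x' ↔ R i v x := by
  have G1 : ∀ᶠ x in residual SX, ∀ k, ∃ V ∈ TopologicalSpace.countableBasis SX,
      x ∈ V ∧ AllAr c k k V V := by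
    refine eventually_countable_forall.2 fun k => residual_of_dense fun W hW hne => ?_
    obtain ⟨V, h1, h2, h3, h4⟩ := good_dense hc hT hfun htr k hW hne
    refine ⟨V, h1, h2, h3, fun x hx => ?_⟩
    obtain ⟨V', g1, g2, g3⟩ :=
      (TopologicalSpace.isBasis_countableBasis SX).exists_subset_of_mem_open hx h1
    exact ⟨V', g1, g2, h4.mono g3 g3⟩
  have G2 : ∀ᶠ x in residual SX, ∀ k, ∀ V ∈ TopologicalSpace.countableBasis SX,
      V.Nonempty → AllAr c k k V V → ∃ k' U', IsOpen U' ∧ x ∈ U' ∧ AllAr c k k' V U' := by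
    refine eventually_countable_forall.2 fun k =>
      (eventually_countable_ball (TopologicalSpace.countable_countableBasis SX)).2 fun V hV => ?_
    by_cases h : V.Nonempty ∧ AllAr c k k V V
    · filter_upwards [total_dense hc (TopologicalSpace.isOpen_of_mem_countableBasis hV) h.1 h.2]
        with x hx _ _ using hx
    · exact Eventually.of_forall fun x h1 h2 => absurd ⟨h1, h2⟩ h
  have G3 : ∀ᶠ x in residual SX, ∀ i v, (R i v x → Forces x (R i v)) ∧
      (¬ R i v x → Forces x (fun y => ¬ R i v y)) :=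
    eventually_countable_forall.2 fun i => eventually_countable_forall.2 fun v =>
      (generic ((hR i).bm v)).and (generic ((hR i).not.bm v))
  have hne : (univ : Set SX).Nonempty := ⟨fun _ _ => true, trivial⟩
  obtain ⟨x, -, ⟨x1, x2⟩, x3⟩ := exists_of_residual isOpen_univ hne ((G1.and G2).and G3)
  have G4 : ∀ᶠ y in residual SX, ∀ n, y 0 ≠ x n := by
    refine eventually_countable_forall.2 fun n => residual_of_dense fun W hW ⟨z, hz⟩ => ?_
    obtain ⟨N, -, hN⟩ := exists_Bx hW hz 0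
    refine ⟨W ∩ {y | y 0 N ≠ x n N}, hW.inter
      (isOpen_eq_const (continuous_coord 0 N) (fun b => b ≠ x n N)),
      ⟨fun i j => if j = N then !(x n N) else z i j, hN fun i _ j hj => by simp [hj.ne], by simp⟩,
      inter_subset_left, fun y hy e => hy.2 (congrFun e N)⟩
  obtain ⟨y, -, ⟨⟨y1, y2⟩, y3⟩, y4⟩ :=
    exists_of_residual isOpen_univ hne (((G1.and G2).and G3).and G4)
  have tot1 : ∀ k, ∃ k', Corr c x y k k' := fun k => by
    obtain ⟨V, h1, h2, h3⟩ := x1 k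
    obtain ⟨k', U', g1, g2, g3⟩ := y2 k V h1 ⟨x, h2⟩ h3
    exact ⟨k', V, U', TopologicalSpace.isOpen_of_mem_countableBasis h1, g1, h2, g2, g3⟩
  have tot2 : ∀ k, ∃ k', Corr c y x k k' := fun k => by
    obtain ⟨V, h1, h2, h3⟩ := y1 k
    obtain ⟨k', U', g1, g2, g3⟩ := x2 k V h1 ⟨y, h2⟩ h3
    exact ⟨k', V, U', TopologicalSpace.isOpen_of_mem_countableBasis h1, g1, h2, g2, g3⟩
  choose s hs using tot1
  choose s' hs' using tot2
  refine ⟨x, y, fun g e => y4 (g.p⁻¹ 0) (by rw [← e]; rfl),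
    ⟨s, s', fun k => (hs' (s k)).unique ((hs k).symm hc),
      fun k => (hs (s' k)).unique ((hs' k).symm hc)⟩, fun i v => ⟨fun h => ?_, fun h => ?_⟩⟩
  · by_contra hn
    exact Corr.fact (hR i) (v := s ∘ v) (w := v) (fun j => (hs (v j)).symm hc) ((y3 i _).1 h)
      ((x3 i v).2 hn)
  · by_contra hn
    exact Corr.fact (hR i) (v := v) (w := s ∘ v) (fun j => hs (v j)) ((x3 i v).1 h)
      ((y3 i _).2 hn)

end Pool.Agent.P.MP_8b3519_lc
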