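import Pool.Agent.P.MP_8b3519_lc.Complete
import Pool.Agent.P.MP_8b3519_lc.Triv

/-!
There is no Borel reduction of the groupoid of all structures to the groupoid of the structures
with the triple property.
-/

namespace Pool.Agent.P.MP_8b3519_lc

open Function

/-- The relations coding a sequence of reals by unary predicates. -/
def codeRel (z : SX) : ∀ n, Rel n → (Fin n → ℕ) → Prop
  | _, .T _, _ => False
  | _, .E, _ => False
  | _, .R _ k, x => ∀ i, z (x i) k = true
  | _, .F _ _, _ => False

/-- A sequence of reals as a structure. -/
def code (z : SX) : clsAll.carrier := ⟨mkLL (codeRel z), trivial⟩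

theorem code_smul (g : SG) (z : SX) : code (g • z) = clsAll.act g.p (code z) := by
  refine Subtype.ext (ext_LL fun n r x => ?_)
  cases r <;> exact Iff.rfl

theorem code_injective : Injective code := by
  intro z w h
  funext a k
  have h1 : rel (code z).1 (Rel.R 1 k) ![a] ↔ rel (code w).1 (Rel.R 1 k) ![a] := by rw [h]
  change (∀ i : Fin 1, z (![a] i) k = true) ↔ ∀ i : Fin 1, w (![a] i) k = true at h1
  simp only [Fin.forall_fin_one, Matrix.cons_val_zero] at h1
  exact Bool.eq_iff_iff.2 h1

instance : MeasurableSpace SX := borel SX
instance : BorelSpace SX := ⟨rfl⟩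
instance : MeasurableSpace SG := borel SG
instance : BorelSpace SG := ⟨rfl⟩

theorem measurable_code : Measurable code := by
  refine Measurable.subtype_mk (measurable_mkLL fun n r x => ?_)
  cases r with
  | T k => exact measurable_const
  | E => exact measurable_const
  | R n k =>
    exact .forall fun i => (measurable_of_countable fun b : Bool => b = true).comp
      (continuous_coord (x i) k).measurable
  | F n k => exact measurable_const

theorem measurable_arr : @Measurable (SG × SX) (Arr clsAll) _ _ fun a => (a.1.p, code a.2) := by
  letI := permBorel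
  refine Measurable.prodMk ?_ (measurable_code.comp measurable_snd)
  exact measurable_comap_iff.2 (SG.continuous_coe.measurable.comp measurable_fst)

theorem measurable_arr_fst {L : FirstOrder.Language.{0, 0}} (C : Cls L) (j : ℕ) :
    Measurable fun a : Arr C => a.1 j := by
  letI := permBorel
  have h1 : Measurable fun g : Equiv.Perm ℕ => (g : ℕ → ℕ) := comap_measurable _
  exact (measurable_pi_apply j).comp (h1.comp measurable_fst)

theorem measurable_arr_snd {L : FirstOrder.Language.{0, 0}} (C : Cls L) :
    Measurable fun a : Arr C => a.2 := by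
  letI := permBorel
  exact measurable_snd

theorem not_reduces : ¬ GroupoidReduces clsAll clsTriple := by
  rintro ⟨F, hF, ⟨h1, h2⟩, h3⟩
  let c : SG × SX → Equiv.Perm ℕ := fun a => (F (a.1.p, code a.2)).1
  let f : SX → clsTriple.carrier := fun z => (F (1, code z)).2
  have hact : ∀ x : clsAll.carrier, clsAll.act 1 x = x := fun x => rfl
  have hsrc : ∀ g x, (F (g, x)).2 = (F (1, x)).2 := fun g x => by
    have := congrArg Prod.snd (h2 1 g x).2
    simpa using this
  have hf : ∀ (g : SG) z, f (g • z) = clsTriple.act (c (g, z)) (f z) := fun g z => by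
    have := (h2 g.p 1 (code z)).1
    rw [hsrc g.p, ← code_smul] at this
    exact this
  have hc : IsCoc c := by
    refine ⟨fun j k => ?_, fun h g x => ?_⟩
    · refine MeasurableSet.baireMeasurableSet (measurableSet_setOfPred.2 ?_)
      exact (measurable_of_countable fun m : ℕ => m = k).comp
        ((measurable_arr_fst clsTriple j).comp (hF.comp measurable_arr))
    · have := congrArg Prod.fst (h2 g.p h.p (code x)).2
      rw [← code_smul] at this
      exact this
  have hfm : Measurable f :=
    (measurable_arr_snd clsTriple).comp (hF.comp (measurable_arr.comp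
      (measurable_const.prodMk measurable_id : Measurable fun z : SX => ((1 : SG), z))))
  have hR : ∀ i : Σ n, Rel n, IsFact c (fun v z => rel (f z).1 i.2 v) := by
    rintro ⟨n, r⟩
    refine ⟨fun v => ?_, fun v g x => ?_⟩
    · refine MeasurableSet.baireMeasurableSet (measurableSet_setOfPred.2 ?_)
      exact (measurable_rel (L := LL) r v).comp (measurable_subtype_coe.comp hfm)
    · rw [hf]
      change rel (f x).1 r ((c (g, x)).symm ∘ c (g, x) ∘ v) ↔ _
      have : (c (g, x)).symm ∘ c (g, x) ∘ v = v := funext fun i => by simp
      rw [this]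
  haveI := countable_rel
  obtain ⟨x, y, hxy, σ, hσ⟩ := generic_iso hc (T := fun m v z => rel (f z).1 (Rel.T m) v)
    (fun m => hR ⟨3, Rel.T m⟩) (fun m a b e e' x => (f x).2.1 m a b e e')
    (fun x a b e => (f x).2.2 a b e) (ar := fun i : Σ n, Rel n => i.1) hR
  obtain ⟨g, hg⟩ := h3 (code x) (code y) ⟨σ, Subtype.ext (ext_LL fun n r v => by
    have := hσ ⟨n, r⟩ (σ.symm ∘ v)
    have e : σ ∘ σ.symm ∘ v = v := funext fun i => by simp
    rw [e] at this
    exact this.symm)⟩
  exact hxy (SG.mk g) (code_injective (by rw [code_smul]; exact hg))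

end Pool.Agent.P.MP_8b3519_lc
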