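import Pool.Agent.P.MP_8b3519_lc.SInf

/-!
A cocycle over the shift action on sequences of reals which acts on structures with the
triple property is generically trivial.
-/

namespace Pool.Agent.P.MP_8b3519_lc

open Filter Topology Set

variable {c : SG × SX → Equiv.Perm ℕ}

/-- All arrows from `U` to `U'` generically send `j` to `k`. -/
def AllAr (c : SG × SX → Equiv.Perm ℕ) (j k : ℕ) (U U' : Set SX) : Prop :=
  ∀ (g : SG) (x : SX), x ∈ U → g • x ∈ U' → Ar c j k (g, x)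

theorem isOpen_slice (g : SG) {O : Set (SG × SX)} (h : IsOpen O) : IsOpen {z : SX | (g, z) ∈ O} :=
  h.preimage (f := fun z : SX => (g, z)) (by fun_prop)

theorem isOpen_src {U : Set SX} (h : IsOpen U) : IsOpen {a : SG × SX | a.2 ∈ U} :=
  h.preimage continuous_snd

theorem isOpen_rng {U : Set SX} (h : IsOpen U) : IsOpen {a : SG × SX | a.1 • a.2 ∈ U} :=
  h.preimage (f := fun a : SG × SX => a.1 • a.2) (by fun_prop)

theorem isOpen_smul_mem (g : SG) {U : Set SX} (h : IsOpen U) : IsOpen {z : SX | g • z ∈ U} :=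
  h.preimage (f := fun z : SX => g • z) (by fun_prop)

theorem step_one (hc : IsCoc c) (k : ℕ) {U : Set SX} (hU : IsOpen U) (hne : U.Nonempty) :
    ∃ z₀ N, Bx z₀ N ⊆ U ∧
      ∀ (g : SG) (z : SX), (∀ i < N, g.p i = i) → z ∈ Bx z₀ N → Ar c k k (g, z) := by
  obtain ⟨x, hx⟩ := hne
  obtain ⟨⟨g, z₀⟩, hz, l, hl⟩ := hc.dense (isOpen_src hU) ⟨(1, x), hx⟩ k
  have h1 : Ar c k k (1, z₀) := by
    have := hc.comp hl (hc.inv hl)
    rwa [inv_mul_cancel] at this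
  obtain ⟨N, hN⟩ := exists_box_one (isOpen_Ar c k k) h1
  obtain ⟨M, hM, hMU⟩ := exists_Bx hU hz N
  exact ⟨z₀, M, hMU, fun g z hg hz => hN g z (fun i hi => hg i (hi.trans_le hM))
    fun i hi j hj => hz i (hi.trans_le hM) j (hj.trans_le hM)⟩

section Cases

variable (hc : IsCoc c) {k N : ℕ} {z₀ : SX}
  (H1 : ∀ (g : SG) (z : SX), (∀ i < N, g.p i = i) → z ∈ Bx z₀ N → Ar c k k (g, z))

include hc H1

theorem case_a {d : SG} {z₁ : SX} (h1 : z₁ ∈ Bx z₀ N) (h2 : d • z₁ ∈ Bx z₀ N)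
    (h3 : ∀ i < N, N ≤ d.p⁻¹ i) (h4 : Ar c k k (d, z₁)) :
    ∃ M, Bx z₁ M ⊆ Bx z₀ N ∧ AllAr c k k (Bx z₁ M) (Bx z₁ M) := by
  obtain ⟨M₀, hM₀⟩ := exists_bound (fun i => d.p⁻¹ i) N
  obtain ⟨M, hM, hMU⟩ := exists_Bx (((isOpen_slice d (isOpen_Ar c k k)).inter
    (isOpen_smul_mem d (isOpen_Bx z₀ N))).inter (isOpen_Bx z₀ N)) (z := z₁) ⟨⟨h4, h2⟩, h1⟩
    (M₀ + N)
  have hsub : Bx z₁ M ⊆ Bx z₀ N := fun z hz => (hMU hz).2
  have H2 : ∀ (g : SG) (z : SX), (∀ i, N ≤ i → i < M → g.p i = i) → z ∈ Bx z₁ M →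
      g • z ∈ Bx z₁ M → Ar c k k (g, z) := by
    intro g z hg hz hgz
    refine (hc.conj (hMU hz).1.1 (hMU hgz).1.1).1 (H1 _ _ (fun i hi => ?_) (hMU hz).1.2)
    have := hg (d.p⁻¹ i) (h3 i hi) (by have := hM₀ i hi; omega)
    simp only [SG.p_mul, SG.p_inv, Equiv.Perm.mul_apply, this]
    simp
  refine ⟨M, hsub, fun g z hz hgz => ?_⟩
  refine forces_of_not_forces_not (hc.bm k k)
    ((isOpen_src (isOpen_Bx z₁ M)).inter (isOpen_rng (isOpen_Bx z₁ M))) ?_ (z := (g, z)) ⟨hz, hgz⟩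
  clear hz hgz g z
  rintro ⟨g, z⟩ ⟨hz, hgz⟩ hn
  obtain ⟨P₀, hP₀⟩ := exists_bound (fun i => g.p⁻¹ i) N
  obtain ⟨P, hP, hPU⟩ := exists_Bx ((isOpen_slice g (isOpen_forces (fun v => ¬ c v k = k))).inter
    ((isOpen_Bx z₁ M).inter (isOpen_smul_mem g (isOpen_Bx z₁ M)))) (z := z) ⟨hn, hz, hgz⟩
    (P₀ + M)
  obtain ⟨hn', hz', hgz'⟩ := hPU (glue_mem z z₁ le_rfl)
  set y := glue P z z₁ with hy
  obtain ⟨u, hu⟩ := exists_inv_eq M (fun i => if i < N then i else P + i) (by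
    intro i hi j hj e
    split_ifs at e <;> omega)
  have hg : ∀ i, N ≤ g.p (P + i) := fun i => by
    by_contra hlt
    have := hP₀ _ (not_le.1 hlt)
    simp at this
    omega
  obtain ⟨v, hv⟩ := exists_inv_eq M (fun i => if i < N then i else g.p (P + i)) (by
    intro i hi j hj e
    have := hg i
    have := hg j
    split_ifs at e
    · exact e
    · omega
    · omega
    · have := g.p.injective e
      omega)
  have hu1 : ∀ i < N, u.p i = i := fun i hi => by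
    have := hu i (by omega)
    simp only [hi, if_true] at this
    exact (Equiv.Perm.inv_eq_iff_eq.1 this).symm
  have hv1 : ∀ i < N, (v⁻¹).p i = i := fun i hi => by
    have := hv i (by omega)
    simp only [hi, if_true] at this
    exact this
  have hz2 : u • y ∈ Bx z₁ M := fun i hi j hj => by
    rw [smul_ap, hu i hi]
    split_ifs with h
    · exact hz' i hi j hj
    · rw [hy, glue_add]
  have hw2 : v • g • y ∈ Bx z₁ M := fun i hi j hj => by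
    rw [smul_ap, hv i hi]
    split_ifs with h
    · exact hgz' i hi j hj
    · have : g.p⁻¹ (g.p (P + i)) = P + i := by simp
      rw [smul_ap, this, hy, glue_add]
  have e1 : (v * g * u⁻¹) • u • y = v • g • y := by simp [mul_smul]
  have a1 : Ar c k k (u, y) := H1 u y hu1 (hsub hz')
  have a2 : Ar c k k (v * g * u⁻¹, u • y) := by
    refine H2 _ _ (fun i hi hi' => ?_) hz2 (by rw [e1]; exact hw2)
    have b1 := hu i hi'
    have b2 := hv i hi'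
    simp only [not_lt.2 hi, if_false] at b1 b2
    simp only [SG.p_mul, SG.p_inv, Equiv.Perm.mul_apply, b1, ← b2]
    simp
  have a3 : Ar c k k (v⁻¹, (v * g * u⁻¹ * u) • y) := by
    refine H1 _ _ hv1 (hsub ?_)
    rw [mul_smul, e1]
    exact hw2
  have a4 := hc.comp (hc.comp a1 a2) a3
  have e2 : v⁻¹ * (v * g * u⁻¹ * u) = g := by group
  rw [e2] at a4
  exact Forces.not_forces_not a4 hn'

theorem case_b {T : (Fin 3 → ℕ) → SX → Prop} (hT : IsFact c T)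
    (hfun : ∀ a b e e' x, T ![a, b, e] x → T ![a, b, e'] x → e = e')
    {W : Set SX} (hW : IsOpen W) (hne : W.Nonempty) {d₀ d₁ d₂ : SG} {a₀ a₁ a₂ : ℕ}
    (h0 : ∀ z ∈ W, Ar c a₀ k (d₀, z) ∧ d₀ • z ∈ Bx z₀ N)
    (h1 : ∀ z ∈ W, Ar c a₁ k (d₁, z) ∧ d₁ • z ∈ Bx z₀ N)
    (h2 : ∀ z ∈ W, Ar c a₂ k (d₂, z) ∧ d₂ • z ∈ Bx z₀ N)
    (hd0 : ∀ i < N, ∀ j < N, d₂.p⁻¹ i ≠ d₀.p⁻¹ j) (hd1 : ∀ i < N, ∀ j < N, d₂.p⁻¹ i ≠ d₁.p⁻¹ j)
    (hF : ∀ z ∈ W, Forces z (T ![a₀, a₁, a₂])) :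
    ∃ (d : SG) (z₁ : SX), z₁ ∈ Bx z₀ N ∧ d • z₁ ∈ Bx z₀ N ∧ (∀ i < N, N ≤ d.p⁻¹ i) ∧
      Ar c k k (d, z₁) := by
  classical
  obtain ⟨z₃, hz₃⟩ := hne
  obtain ⟨M₀, hM₀⟩ := exists_bound (fun i => d₀.p⁻¹ i) N
  obtain ⟨M₁, hM₁⟩ := exists_bound (fun i => d₁.p⁻¹ i) N
  obtain ⟨M₂, hM₂⟩ := exists_bound (fun i => d₂.p⁻¹ i) N
  obtain ⟨M, hM, hMW⟩ := exists_Bx hW hz₃ (M₀ + M₁ + M₂)
  have hO : IsOpen ({a : SG × SX | a.2 ∈ W} ∩ {a : SG × SX | a.1 • a.2 ∈ W} ∩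
      {a : SG × SX | ∀ i < N, a.1.p⁻¹ (d₀.p⁻¹ i) = d₀.p⁻¹ i} ∩
      {a : SG × SX | ∀ i < N, a.1.p⁻¹ (d₁.p⁻¹ i) = d₁.p⁻¹ i} ∩
      {a : SG × SX | ∀ i < N, M ≤ a.1.p⁻¹ (d₂.p⁻¹ i)}) := by
    refine ((((isOpen_src hW).inter (isOpen_rng hW)).inter ?_).inter ?_).inter ?_
    · exact isOpen_forall_lt N fun i =>
        isOpen_eq_const (SG.cev' continuous_fst (d₀.p⁻¹ i)) (fun b => b = d₀.p⁻¹ i)
    · exact isOpen_forall_lt N fun i =>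
        isOpen_eq_const (SG.cev' continuous_fst (d₁.p⁻¹ i)) (fun b => b = d₁.p⁻¹ i)
    · exact isOpen_forall_lt N fun i =>
        isOpen_eq_const (SG.cev' continuous_fst (d₂.p⁻¹ i)) (fun b => M ≤ b)
  obtain ⟨u, hu⟩ := exists_inv_eq M (fun p => if ∃ i < N, d₂.p⁻¹ i = p then M + p else p) (by
    intro i hi j hj e
    split_ifs at e <;> omega)
  obtain ⟨⟨g, z⟩, ⟨⟨⟨⟨hz, hgz⟩, g0⟩, g1⟩, g2⟩, b, hb⟩ := hc.dense hO ⟨(u, glue M z₃ z₃), by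
    refine ⟨⟨⟨⟨hMW (glue_mem _ _ le_rfl), hMW fun i hi j _ => ?_⟩, fun i hi => ?_⟩,
      fun i hi => ?_⟩, fun i hi => ?_⟩
    · change (u • glue M z₃ z₃) i j = _
      rw [smul_ap, hu i hi]
      split_ifs
      · rw [glue_add]
      · rw [glue_lt _ _ hi]
    · change u.p⁻¹ _ = _
      rw [hu _ (by have := hM₀ i hi; omega), if_neg]
      rintro ⟨j, hj, e⟩
      exact hd0 j hj i hi e
    · change u.p⁻¹ _ = _
      rw [hu _ (by have := hM₁ i hi; omega), if_neg]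
      rintro ⟨j, hj, e⟩
      exact hd1 j hj i hi e
    · change M ≤ u.p⁻¹ _
      rw [hu _ (by have := hM₂ i hi; omega), if_pos ⟨i, hi, rfl⟩]
      omega⟩ a₂
  change z ∈ W at hz
  change g • z ∈ W at hgz
  have fix : ∀ d : SG, (∀ i < N, g.p⁻¹ (d.p⁻¹ i) = d.p⁻¹ i) →
      ∀ i < N, (d * g * d⁻¹).p i = i := by
    intro d hd i hi
    have := Equiv.Perm.inv_eq_iff_eq.1 (hd i hi)
    simp only [SG.p_mul, SG.p_inv, Equiv.Perm.mul_apply, ← this]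
    simp
  have b0 : Ar c a₀ a₀ (g, z) :=
    (hc.conj (h0 z hz).1 (h0 _ hgz).1).1 (H1 _ _ (fix d₀ g0) (h0 z hz).2)
  have b1 : Ar c a₁ a₁ (g, z) :=
    (hc.conj (h1 z hz).1 (h1 _ hgz).1).1 (H1 _ _ (fix d₁ g1) (h1 z hz).2)
  have t1 : Forces (g • z) (T ![a₀, a₁, b]) := by
    refine hT.transfer (fun i => ?_) (hF z hz)
    fin_cases i
    · exact b0
    · exact b1
    · exact hb
  obtain ⟨w, w1, w2⟩ := (t1.and (hF _ hgz)).exists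
  obtain rfl := hfun _ _ _ _ _ w1 w2
  refine ⟨d₂ * g * d₂⁻¹, d₂ • z, (h2 z hz).2, ?_, fun i hi => ?_,
    (hc.conj (h2 z hz).1 (h2 _ hgz).1).2 hb⟩
  · have : (d₂ * g * d₂⁻¹) • d₂ • z = d₂ • g • z := by simp [mul_smul]
    rw [this]
    exact (h2 _ hgz).2
  · by_contra hlt
    have e1 := hM₂ _ (not_le.1 hlt)
    have e2 : M ≤ g.p⁻¹ (d₂.p⁻¹ i) := g2 i hi
    have e3 : d₂.p⁻¹ ((d₂ * g * d₂⁻¹).p⁻¹ i) = g.p⁻¹ (d₂.p⁻¹ i) := by simp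
    rw [e3] at e1
    omega

end Cases

theorem copy_step (hc : IsCoc c) (k N s : ℕ) {W : Set SX} (hW : IsOpen W) (hne : W.Nonempty) :
    ∃ (d : SG) (a : ℕ) (W' : Set SX), IsOpen W' ∧ W'.Nonempty ∧ W' ⊆ W ∧
      (∀ i < N, d.p⁻¹ i = s + i) ∧ ∀ z ∈ W', Ar c a k (d, z) := by
  obtain ⟨x, hx⟩ := hne
  obtain ⟨u, hu⟩ := exists_inv_eq N (fun i => s + i) (fun i _ j _ e => by omega)
  have hO : IsOpen ({a : SG × SX | a.2 ∈ W} ∩ {a : SG × SX | ∀ i < N, a.1.p⁻¹ i = s + i}) :=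
    (isOpen_src hW).inter (isOpen_forall_lt N fun i =>
      isOpen_eq_const (SG.cev' continuous_fst i) (fun b => b = s + i))
  obtain ⟨⟨d, z⟩, ⟨hz, hd⟩, a, ha⟩ := hc.dense' hO ⟨(u, x), hx, hu⟩ k
  exact ⟨d, a, W ∩ {z | (d, z) ∈ {b | Ar c a k b}}, hW.inter (isOpen_slice d (isOpen_Ar c a k)),
    ⟨z, hz, ha⟩, inter_subset_left, hd, fun z hz => hz.2⟩

theorem good_dense (hc : IsCoc c) {T : ℕ → (Fin 3 → ℕ) → SX → Prop} (hT : ∀ m, IsFact c (T m))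
    (hfun : ∀ m a b e e' x, T m ![a, b, e] x → T m ![a, b, e'] x → e = e')
    (htr : ∀ x a b e, ∃ m, T m ![a, b, e] x ∨ T m ![b, e, a] x ∨ T m ![e, a, b] x)
    (k : ℕ) {U : Set SX} (hU : IsOpen U) (hne : U.Nonempty) :
    ∃ V, IsOpen V ∧ V.Nonempty ∧ V ⊆ U ∧ AllAr c k k V V := by
  obtain ⟨z₀, N, hNU, H1⟩ := step_one hc k hU hne
  suffices h : ∃ (d : SG) (z₁ : SX), z₁ ∈ Bx z₀ N ∧ d • z₁ ∈ Bx z₀ N ∧
      (∀ i < N, N ≤ d.p⁻¹ i) ∧ Ar c k k (d, z₁) by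
    obtain ⟨d, z₁, h1, h2, h3, h4⟩ := h
    obtain ⟨M, h5, h6⟩ := case_a hc H1 h1 h2 h3 h4
    exact ⟨_, isOpen_Bx z₁ M, ⟨_, self_mem_Bx _ _⟩, h5.trans hNU, h6⟩
  have hW₀ : IsOpen {z : SX | ∀ e < 3, ∀ i < N, ∀ j < N, z (e * N + i) j = z₀ i j} :=
    isOpen_forall_lt 3 fun e => isOpen_forall_lt N fun i => isOpen_forall_lt N fun j =>
      isOpen_eq_const (continuous_coord (e * N + i) j) (fun b => b = z₀ i j)
  have hne₀ : {z : SX | ∀ e < 3, ∀ i < N, ∀ j < N, z (e * N + i) j = z₀ i j}.Nonempty :=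
    ⟨fun p => z₀ (p % N), fun e _ i hi j _ => by
      simp [Nat.mul_add_mod_self_right, Nat.mod_eq_of_lt hi]⟩
  obtain ⟨d₀, a₀, W₁, o1, n1, s1, e0, r0⟩ := copy_step hc k N (0 * N) hW₀ hne₀
  obtain ⟨d₁, a₁, W₂, o2, n2, s2, e1, r1⟩ := copy_step hc k N (1 * N) o1 n1
  obtain ⟨d₂, a₂, W₃, o3, n3, s3, e2, r2⟩ := copy_step hc k N (2 * N) o2 n2
  have q : ∀ z ∈ W₃, ∀ (d : SG), ∀ e < 3, (∀ i < N, d.p⁻¹ i = e * N + i) → d • z ∈ Bx z₀ N := by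
    intro z hz d e he hd i hi j hj
    rw [smul_ap, hd i hi]
    exact s1 (s2 (s3 hz)) e he i hi j hj
  have q0 : ∀ z ∈ W₃, Ar c a₀ k (d₀, z) ∧ d₀ • z ∈ Bx z₀ N := fun z hz =>
    ⟨r0 z (s2 (s3 hz)), q z hz d₀ 0 (by omega) e0⟩
  have q1 : ∀ z ∈ W₃, Ar c a₁ k (d₁, z) ∧ d₁ • z ∈ Bx z₀ N := fun z hz =>
    ⟨r1 z (s3 hz), q z hz d₁ 1 (by omega) e1⟩
  have q2 : ∀ z ∈ W₃, Ar c a₂ k (d₂, z) ∧ d₂ • z ∈ Bx z₀ N := fun z hz =>
    ⟨r2 z hz, q z hz d₂ 2 (by omega) e2⟩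
  obtain ⟨z, hz, ⟨m, o⟩, hm⟩ := exists_forces (ι := ℕ × Fin 3)
    (P := fun i x => T i.1 (![![a₀, a₁, a₂], ![a₁, a₂, a₀], ![a₂, a₀, a₁]] i.2) x)
    (fun i => (hT i.1).bm _) o3 n3 (fun z _ => by
      obtain ⟨m, h | h | h⟩ := htr z a₀ a₁ a₂
      · exact ⟨(m, 0), h⟩
      · exact ⟨(m, 1), h⟩
      · exact ⟨(m, 2), h⟩)
  fin_cases o
  · exact case_b hc H1 (hT m) (hfun m) (o3.inter (isOpen_forces _)) ⟨z, hz, hm⟩
      (fun z hz => q0 z hz.1) (fun z hz => q1 z hz.1) (fun z hz => q2 z hz.1)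
      (fun i hi j hj => by rw [e2 i hi, e0 j hj]; omega)
      (fun i hi j hj => by rw [e2 i hi, e1 j hj]; omega) (fun z hz => hz.2)
  · exact case_b hc H1 (hT m) (hfun m) (o3.inter (isOpen_forces _)) ⟨z, hz, hm⟩
      (fun z hz => q1 z hz.1) (fun z hz => q2 z hz.1) (fun z hz => q0 z hz.1)
      (fun i hi j hj => by rw [e0 i hi, e1 j hj]; omega)
      (fun i hi j hj => by rw [e0 i hi, e2 j hj]; omega) (fun z hz => hz.2)
  · exact case_b hc H1 (hT m) (hfun m) (o3.inter (isOpen_forces _)) ⟨z, hz, hm⟩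
      (fun z hz => q2 z hz.1) (fun z hz => q0 z hz.1) (fun z hz => q1 z hz.1)
      (fun i hi j hj => by rw [e1 i hi, e2 j hj]; omega)
      (fun i hi j hj => by rw [e1 i hi, e0 j hj]; omega) (fun z hz => hz.2)

end Pool.Agent.P.MP_8b3519_lc
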