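import Pool.Agent.P.MP_8b3519_lc.Cocycle
import Pool.Agent.P.MP_8b3519_lc.Generic

/-!
The Polish group of permutations of `ℕ` acting on sequences of points of the Cantor space.
-/

namespace Pool.Agent.P.MP_8b3519_lc

open Filter Topology Set

/-- The permutations of `ℕ`, as a topological group. -/
def SG : Type := Equiv.Perm ℕ

instance : Group SG := inferInstanceAs (Group (Equiv.Perm ℕ))

/-- The underlying permutation. -/
def SG.p (g : SG) : Equiv.Perm ℕ := g

/-- A permutation as an element of the group. -/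
def SG.mk (g : Equiv.Perm ℕ) : SG := g

@[simp] theorem SG.p_mk (g : Equiv.Perm ℕ) : (SG.mk g).p = g := rfl
@[simp] theorem SG.p_mul (g h : SG) : (g * h).p = g.p * h.p := rfl
@[simp] theorem SG.p_inv (g : SG) : (g⁻¹).p = g.p⁻¹ := rfl
@[simp] theorem SG.p_one : (1 : SG).p = 1 := rfl

def SG.emb (g : SG) : (ℕ → ℕ) × (ℕ → ℕ) := (g.p, (g.p⁻¹ : Equiv.Perm ℕ))

instance : TopologicalSpace SG := TopologicalSpace.induced SG.emb inferInstance

theorem SG.continuous_emb : Continuous SG.emb := continuous_induced_dom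

theorem SG.continuous_coe : Continuous (fun g : SG => (g.p : ℕ → ℕ)) :=
  continuous_fst.comp SG.continuous_emb

theorem SG.continuous_coe_inv : Continuous (fun g : SG => ((g.p⁻¹ : Equiv.Perm ℕ) : ℕ → ℕ)) :=
  continuous_snd.comp SG.continuous_emb

theorem continuous_ev {Y : Type*} [TopologicalSpace Y] :
    Continuous (fun a : (ℕ → Y) × ℕ => a.1 a.2) :=
  continuous_prod_of_discrete_right.2 fun y => continuous_apply y

theorem Continuous.ev {W Y : Type*} [TopologicalSpace W] [TopologicalSpace Y] {f : W → ℕ → Y}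
    {n : W → ℕ} (hf : Continuous f) (hn : Continuous n) : Continuous (fun w => f w (n w)) :=
  continuous_ev.comp (hf.prodMk hn)

theorem SG.continuous_of {W : Type*} [TopologicalSpace W] {f : W → SG}
    (h1 : ∀ i, Continuous fun w => (f w).p i) (h2 : ∀ i, Continuous fun w => (f w).p⁻¹ i) :
    Continuous f :=
  continuous_induced_rng.2 ((continuous_pi h1).prodMk (continuous_pi h2))

theorem SG.cev {W : Type*} [TopologicalSpace W] {f : W → SG} (hf : Continuous f) (i : ℕ) :
    Continuous fun w => (f w).p i := (continuous_apply i).comp (SG.continuous_coe.comp hf)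

theorem SG.cev' {W : Type*} [TopologicalSpace W] {f : W → SG} (hf : Continuous f) (i : ℕ) :
    Continuous fun w => (f w).p⁻¹ i := (continuous_apply i).comp (SG.continuous_coe_inv.comp hf)

instance : IsTopologicalGroup SG where
  continuous_mul := by
    refine SG.continuous_of (fun i => ?_) (fun i => ?_)
    · exact Continuous.ev (f := fun w : SG × SG => w.1.p) (n := fun w => w.2.p i)
        (SG.continuous_coe.comp continuous_fst) (SG.cev continuous_snd i)
    · exact Continuous.ev (f := fun w : SG × SG => (w.2.p⁻¹ : Equiv.Perm ℕ))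
        (n := fun w => w.1.p⁻¹ i)
        (SG.continuous_coe_inv.comp continuous_snd) (SG.cev' continuous_fst i)
  continuous_inv := by
    refine SG.continuous_of (fun i => ?_) (fun i => ?_)
    · exact SG.cev' continuous_id i
    · exact SG.cev continuous_id i

theorem SG.isClosedEmbedding : IsClosedEmbedding SG.emb := by
  refine ⟨⟨⟨rfl⟩, fun g h e => Equiv.ext fun i => congrFun (congrArg Prod.fst e) i⟩, ?_⟩
  have : range SG.emb = ⋂ i, ({a | a.1 (a.2 i) = i} ∩ {a | a.2 (a.1 i) = i}) := by
    ext a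
    simp only [mem_range, mem_iInter, mem_inter_iff, mem_ofPred_eq]
    constructor
    · rintro ⟨g, rfl⟩ i
      simp [SG.emb]
    · intro h
      exact ⟨SG.mk ⟨a.1, a.2, fun i => (h i).2, fun i => (h i).1⟩, rfl⟩
  rw [this]
  refine isClosed_iInter fun i => IsClosed.inter ?_ ?_
  · exact isClosed_eq (Continuous.ev continuous_fst ((continuous_apply i).comp continuous_snd))
      continuous_const
  · exact isClosed_eq (Continuous.ev continuous_snd ((continuous_apply i).comp continuous_fst))
      continuous_const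

instance : PolishSpace SG := SG.isClosedEmbedding.polishSpace

/-- Sequences of points of the Cantor space. -/
def SX : Type := ℕ → ℕ → Bool

instance : TopologicalSpace SX := inferInstanceAs (TopologicalSpace (ℕ → ℕ → Bool))
instance : SecondCountableTopology SX :=
  inferInstanceAs (SecondCountableTopology (ℕ → ℕ → Bool))
instance : TopologicalSpace.IsCompletelyMetrizableSpace SX :=
  inferInstanceAs (TopologicalSpace.IsCompletelyMetrizableSpace (ℕ → ℕ → Bool))

instance : MulAction SG SX where
  smul g x := fun i => x (g.p⁻¹ i)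
  one_smul _ := rfl
  mul_smul _ _ _ := rfl

theorem smul_ap (g : SG) (x : SX) (i : ℕ) : (g • x) i = x (g.p⁻¹ i) := rfl

instance : ContinuousSMul SG SX where
  continuous_smul := continuous_pi fun i =>
    Continuous.ev (f := fun w : SG × SX => w.2) continuous_snd (SG.cev' continuous_fst i)

instance : BaireSpace SX := inferInstance
instance : BaireSpace (SG × SX) := inferInstance
instance : BaireSpace (SG × SG × SX) := inferInstance

/-- Basic neighbourhoods. -/
def Bx (z : SX) (N : ℕ) : Set SX := {w | ∀ i < N, ∀ j < N, w i j = z i j}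

theorem self_mem_Bx (z : SX) (N : ℕ) : z ∈ Bx z N := fun _ _ _ _ => rfl

theorem continuous_coord (i j : ℕ) : Continuous fun w : SX => w i j :=
  (continuous_apply j).comp (continuous_apply (A := fun _ : ℕ => ℕ → Bool) i)

theorem isOpen_eq_const {W Y : Type*} [TopologicalSpace W] [TopologicalSpace Y]
    [DiscreteTopology Y] {f : W → Y} (hf : Continuous f) (P : Y → Prop) : IsOpen {w | P (f w)} :=
  (isOpen_discrete {y | P y}).preimage hf

theorem isOpen_forall_lt {W : Type*} [TopologicalSpace W] {P : ℕ → W → Prop} (N : ℕ)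
    (h : ∀ i, IsOpen {w | P i w}) : IsOpen {w | ∀ i < N, P i w} := by
  have : {w | ∀ i < N, P i w} = ⋂ i ∈ Finset.range N, {w | P i w} := by
    ext w; simp
  rw [this]
  exact isOpen_biInter_finset fun i _ => h i

theorem isOpen_Bx (z : SX) (N : ℕ) : IsOpen (Bx z N) :=
  isOpen_forall_lt N fun i => isOpen_forall_lt N fun j =>
    isOpen_eq_const (continuous_coord i j) (fun b => b = z i j)

theorem tendsto_of_Bx {z : SX} {w : ℕ → SX} (h : ∀ N, w N ∈ Bx z N) : Tendsto w atTop (𝓝 z) := by
  refine tendsto_pi_nhds.2 fun i => tendsto_pi_nhds.2 fun j => ?_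
  refine tendsto_const_nhds.congr' ?_
  filter_upwards [eventually_gt_atTop i, eventually_gt_atTop j] with N hi hj
  exact (h N i hi j hj).symm

theorem exists_Bx {z : SX} {U : Set SX} (hU : IsOpen U) (hz : z ∈ U) (N₀ : ℕ) :
    ∃ N, N₀ ≤ N ∧ Bx z N ⊆ U := by
  have : ∃ N, Bx z N ⊆ U := by
    by_contra hcon
    push Not at hcon
    choose w hw using fun N => not_subset.1 (hcon N)
    obtain ⟨N, hN⟩ := ((tendsto_of_Bx fun N => (hw N).1).eventually (hU.mem_nhds hz)).exists
    exact (hw N).2 hN
  obtain ⟨N, hN⟩ := this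
  exact ⟨max N₀ N, le_max_left _ _, fun w hw => hN fun i hi j hj =>
    hw i (lt_max_of_lt_right hi) j (lt_max_of_lt_right hj)⟩

theorem exists_box_one {z : SX} {U : Set (SG × SX)} (hU : IsOpen U) (hz : ((1 : SG), z) ∈ U) :
    ∃ N, ∀ (g : SG) (w : SX), (∀ i < N, g.p i = i) → w ∈ Bx z N → (g, w) ∈ U := by
  by_contra hcon
  push Not at hcon
  choose g w hg hw hn using hcon
  have h1 : Tendsto g atTop (𝓝 1) := by
    rw [SG.isClosedEmbedding.isInducing.tendsto_nhds_iff]
    refine Tendsto.prodMk_nhds (tendsto_pi_nhds.2 fun i => ?_) (tendsto_pi_nhds.2 fun i => ?_)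
    · refine tendsto_const_nhds.congr' ?_
      filter_upwards [eventually_gt_atTop i] with N hi
      exact (hg N i hi).symm
    · refine tendsto_const_nhds.congr' ?_
      filter_upwards [eventually_gt_atTop i] with N hi
      change i = (g N).p⁻¹ i
      rw [Equiv.Perm.eq_inv_iff_eq]
      exact hg N i hi
  obtain ⟨N, hN⟩ := ((h1.prodMk_nhds (tendsto_of_Bx hw)).eventually (hU.mem_nhds hz)).exists
  exact hn N hN

theorem exists_inv_eq (M : ℕ) (φ : ℕ → ℕ) (h : ∀ i < M, ∀ j < M, φ i = φ j → i = j) :
    ∃ g : SG, ∀ i < M, g.p⁻¹ i = φ i := by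
  obtain ⟨u, hu⟩ := ext_perm (Finset.range M) φ fun i hi j hj e =>
    h i (by simpa using hi) j (by simpa using hj) e
  exact ⟨SG.mk u⁻¹, fun i hi => by simpa using hu i (Finset.mem_range.2 hi)⟩

/-- The sequence `z` up to position `P`, followed by the sequence `w`. -/
def glue (P : ℕ) (z w : SX) : SX := fun p => if p < P then z p else w (p - P)

theorem glue_lt {P p : ℕ} (z w : SX) (h : p < P) : glue P z w p = z p := by simp [glue, h]

theorem glue_add (P i : ℕ) (z w : SX) : glue P z w (P + i) = w i := by simp [glue]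

theorem glue_mem {P N : ℕ} (z w : SX) (h : N ≤ P) : glue P z w ∈ Bx z N := fun i hi j _ => by
  rw [glue_lt z w (hi.trans_le h)]

theorem top_trans {U U' : Set SX} (hU : IsOpen U) (hU' : IsOpen U') (h : U.Nonempty)
    (h' : U'.Nonempty) : ∃ (g : SG) (x : SX), x ∈ U ∧ g • x ∈ U' := by
  obtain ⟨z, hz⟩ := h
  obtain ⟨z', hz'⟩ := h'
  obtain ⟨N, -, hN⟩ := exists_Bx hU hz 0
  obtain ⟨N', -, hN'⟩ := exists_Bx hU' hz' 0
  obtain ⟨g, hg⟩ := exists_inv_eq N' (fun i => N + i) (fun i _ j _ e => by omega)
  refine ⟨g, glue N z z', hN (glue_mem _ _ le_rfl), hN' fun i hi j _ => ?_⟩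
  rw [smul_ap, hg i hi, glue_add]

theorem exists_bound (φ : ℕ → ℕ) (N : ℕ) : ∃ M, ∀ i < N, φ i < M :=
  ⟨(Finset.range N).sup φ + 1, fun i hi =>
    Nat.lt_succ_of_le (Finset.le_sup (f := φ) (Finset.mem_range.2 hi))⟩

end Pool.Agent.P.MP_8b3519_lc
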